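import Mathlib

namespace Pool.Agent.Helper917.SAAM

open Matrix

variable {Φ : Type*} [Field Φ] {n : ℕ}

/-- `V` is a linear space of matrices whose elements all satisfy `x ^ 2 = 0` and `xᵗ = ε x`.
For `ε = -1` this is a SAAM, for `ε = 1` a SASM. -/
def IsAC (ε : Φ) (V : Submodule Φ (Matrix (Fin n) (Fin n) Φ)) : Prop :=
  ∀ x ∈ V, x * x = 0 ∧ xᵀ = ε • x

/-- A maximal SAAM (`ε = -1`), a maximal SASM (`ε = 1`). -/
def IsMaxAC (ε : Φ) (V : Submodule Φ (Matrix (Fin n) (Fin n) Φ)) : Prop :=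
  IsAC ε V ∧ ∀ W, IsAC ε W → V ≤ W → W = V

/-- Equivalence: `W = q V qᵗ` for some orthogonal `q`. -/
def Equivt (V W : Submodule Φ (Matrix (Fin n) (Fin n) Φ)) : Prop :=
  ∃ q : Matrix (Fin n) (Fin n) Φ, q * qᵀ = 1 ∧ ∀ x, x ∈ W ↔ ∃ y ∈ V, x = q * y * qᵀ

/-- `U` is totally isotropic for the form `∑ i, y i ^ 2`. -/
def TotIso (U : Submodule Φ (Fin n → Φ)) : Prop := ∀ u ∈ U, ∀ v ∈ U, u ⬝ᵥ v = 0

/-- `U` is a maximal totally isotropic subspace. -/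
def MaxTotIso (U : Submodule Φ (Fin n → Φ)) : Prop :=
  TotIso U ∧ ∀ U', TotIso U' → U ≤ U' → U' = U

/-- The space of all matrices `x` with `xᵗ = ε x` whose columns all lie in `U`. -/
def colSpace (ε : Φ) (U : Submodule Φ (Fin n → Φ)) :
    Submodule Φ (Matrix (Fin n) (Fin n) Φ) where
  carrier := {x | xᵀ = ε • x ∧ ∀ v, x *ᵥ v ∈ U}
  add_mem' := by
    rintro x y ⟨hx, hx'⟩ ⟨hy, hy'⟩
    refine ⟨by rw [transpose_add, hx, hy, smul_add], fun v => ?_⟩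
    rw [add_mulVec]
    exact U.add_mem (hx' v) (hy' v)
  zero_mem' := by
    refine ⟨by simp, fun v => ?_⟩
    rw [zero_mulVec]
    exact U.zero_mem
  smul_mem' := by
    rintro c x ⟨hx, hx'⟩
    refine ⟨by rw [transpose_smul, hx, smul_comm], fun v => ?_⟩
    rw [smul_mulVec]
    exact U.smul_mem c (hx' v)

/-- `u, w` is a hyperbolic system: `u i . u j = w i . w j = 0`, `u i . w j = δ i j`. -/
def Hyp (u w : Fin 4 → (Fin n → Φ)) : Prop :=
  (∀ i j, u i ⬝ᵥ u j = 0) ∧ (∀ i j, w i ⬝ᵥ w j = 0) ∧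
    (∀ i j, u i ⬝ᵥ w j = if i = j then 1 else 0)

/-- `a bᵗ + ε b aᵗ` -/
def br (ε : Φ) (a b : Fin n → Φ) : Matrix (Fin n) (Fin n) Φ :=
  vecMulVec a b + ε • vecMulVec b a

/-- first basic element -/
def bX (ε : Φ) (u w : Fin 4 → (Fin n → Φ)) : Matrix (Fin n) (Fin n) Φ :=
  br ε (u 0) (u 2) + br ε (u 1) (u 3)

/-- second basic element -/
def bY (ε : Φ) (u w : Fin 4 → (Fin n → Φ)) : Matrix (Fin n) (Fin n) Φ :=
  br ε (u 0) (w 3) - br ε (u 1) (w 2)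

/-- third basic element (antisymmetric case) -/
def bW (u w : Fin 4 → (Fin n → Φ)) : Matrix (Fin n) (Fin n) Φ :=
  br (-1) (w 0) (u 1) + br (-1) (w 3) (u 2)

/-- a space of symmetric matrices, dimension 5 -/
def T1 (u w : Fin 4 → (Fin n → Φ)) : Submodule Φ (Matrix (Fin n) (Fin n) Φ) :=
  Submodule.span Φ {bX 1 u w, bY 1 u w, vecMulVec (u 0) (u 0), br 1 (u 0) (u 1),
    vecMulVec (u 1) (u 1)}

/-- a space of antisymmetric matrices, dimension 3 -/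
def T2 (u w : Fin 4 → (Fin n → Φ)) : Submodule Φ (Matrix (Fin n) (Fin n) Φ) :=
  Submodule.span Φ {bX (-1) u w, bY (-1) u w, br (-1) (u 0) (u 1)}

/-- a space of antisymmetric matrices, dimension 3 -/
def T3 (u w : Fin 4 → (Fin n → Φ)) : Submodule Φ (Matrix (Fin n) (Fin n) Φ) :=
  Submodule.span Φ {bX (-1) u w, bY (-1) u w, bW u w}

end Pool.Agent.Helper917.SAAM
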