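import Mathlib
import Pool.Agent.Helper917.SAAM.Defs

set_option linter.unusedVariables false

namespace Pool.Agent.Helper917.SAAM

open Matrix

variable {Φ : Type*} [Field Φ] {n : ℕ}

theorem mem_colSpace {ε : Φ} {U : Submodule Φ (Fin n → Φ)} {x : Matrix (Fin n) (Fin n) Φ} :
    x ∈ colSpace ε U ↔ xᵀ = ε • x ∧ ∀ v, x *ᵥ v ∈ U := Iff.rfl

/-- (x u) . (y v) = ε u . (x y v) -/
theorem dot_mulVec_mulVec {ε : Φ} {x y : Matrix (Fin n) (Fin n) Φ} (hx : xᵀ = ε • x)
    (u v : Fin n → Φ) : (x *ᵥ u) ⬝ᵥ (y *ᵥ v) = ε * (u ⬝ᵥ ((x * y) *ᵥ v)) := by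
  have h1 : (x *ᵥ u) ⬝ᵥ (y *ᵥ v) = u ⬝ᵥ (xᵀ *ᵥ (y *ᵥ v)) := by
    rw [mulVec_transpose, dotProduct_comm (x *ᵥ u), dotProduct_mulVec, dotProduct_comm]
  rw [h1, hx, smul_mulVec, dotProduct_smul, mulVec_mulVec, smul_eq_mul]

/-! ### part J1 -/

/-- the reflection in `w` -/
noncomputable def refl (w : Fin n → Φ) : Matrix (Fin n) (Fin n) Φ :=
  1 - (2 / (w ⬝ᵥ w)) • vecMulVec w w

theorem refl_mulVec (w v : Fin n → Φ) :
    refl w *ᵥ v = v - (2 / (w ⬝ᵥ w) * (w ⬝ᵥ v)) • w := by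
  unfold refl
  rw [sub_mulVec, one_mulVec, smul_mulVec, vecMulVec_mulVec]
  congr 1
  ext i
  simp
  ring

theorem refl_transpose (w : Fin n → Φ) : (refl w)ᵀ = refl w := by
  unfold refl
  rw [transpose_sub, transpose_one, transpose_smul, transpose_vecMulVec]

theorem refl_invol {w : Fin n → Φ} (hw : w ⬝ᵥ w ≠ 0) (v : Fin n → Φ) :
    refl w *ᵥ (refl w *ᵥ v) = v := by
  rw [refl_mulVec w v, refl_mulVec]
  ext i
  simp only [dotProduct_sub, dotProduct_smul, smul_eq_mul, Pi.sub_apply, Pi.smul_apply]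
  field_simp
  ring

theorem refl_mul_refl {w : Fin n → Φ} (hw : w ⬝ᵥ w ≠ 0) : refl w * refl w = 1 := by
  apply Matrix.mulVec_injective
  funext v
  rw [← mulVec_mulVec, refl_invol hw, one_mulVec]

theorem refl_dot {w : Fin n → Φ} (hw : w ⬝ᵥ w ≠ 0) (u v : Fin n → Φ) :
    (refl w *ᵥ u) ⬝ᵥ (refl w *ᵥ v) = u ⬝ᵥ v := by
  have h1 : (refl w *ᵥ u) ⬝ᵥ (refl w *ᵥ v) = u ⬝ᵥ ((refl w)ᵀ *ᵥ (refl w *ᵥ v)) := by
    rw [mulVec_transpose, dotProduct_comm (refl w *ᵥ u), dotProduct_mulVec, dotProduct_comm]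
  rw [h1, refl_transpose, refl_invol hw]

theorem refl_maxTotIso {w : Fin n → Φ} (hw : w ⬝ᵥ w ≠ 0) {U : Submodule Φ (Fin n → Φ)}
    (hU : MaxTotIso U) : MaxTotIso (U.map (refl w).mulVecLin) := by
  have hmap : ∀ V : Submodule Φ (Fin n → Φ), TotIso V → TotIso (V.map (refl w).mulVecLin) := by
    rintro V hV _ ⟨a, ha, rfl⟩ _ ⟨b, hb, rfl⟩
    simp only [mulVecLin_apply]
    rw [refl_dot hw]
    exact hV a ha b hb
  refine ⟨hmap U hU.1, fun V hV hUV => ?_⟩
  apply le_antisymm _ hUV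
  have h1 : U ≤ V.map (refl w).mulVecLin := by
    intro u hu
    exact ⟨refl w *ᵥ u, hUV ⟨u, hu, rfl⟩, by simp only [mulVecLin_apply]; exact refl_invol hw u⟩
  have h2 := hU.2 _ (hmap V hV) h1
  intro v hv
  refine ⟨refl w *ᵥ v, ?_, by simp only [mulVecLin_apply]; exact refl_invol hw v⟩
  rw [← h2]
  exact ⟨v, hv, rfl⟩

theorem witt_aux (h2 : (2 : Φ) ≠ 0) {U' : Submodule Φ (Fin n → Φ)} (hU' : MaxTotIso U') (k : ℕ) :
    ∀ U : Submodule Φ (Fin n → Φ), MaxTotIso U →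
    Module.finrank Φ U' - Module.finrank Φ (U ⊓ U' : Submodule Φ (Fin n → Φ)) = k →
    ∃ q : Matrix (Fin n) (Fin n) Φ, q * qᵀ = 1 ∧ ∀ v, v ∈ U' ↔ ∃ u ∈ U, v = q *ᵥ u := by
  induction k using Nat.strong_induction_on with
  | _ k ih =>
    intro U hU hk
    by_cases hle : U ≤ U'
    · have := hU.2 U' hU'.1 hle
      subst this
      exact ⟨1, by simp, fun v => ⟨fun hv => ⟨v, hv, by simp⟩, by
        rintro ⟨u, hu, rfl⟩; simpa using hu⟩⟩
    · obtain ⟨u, huU, huU'⟩ := SetLike.not_le_iff_exists.1 hle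
      have hex : ∃ u' ∈ U', u ⬝ᵥ u' ≠ 0 := by
        by_contra hcon
        push Not at hcon
        have hT : TotIso (U' ⊔ Submodule.span Φ {u}) := by
          intro a ha b hb
          obtain ⟨a1, ha1, a2, ha2, rfl⟩ := Submodule.mem_sup.1 ha
          obtain ⟨b1, hb1, b2, hb2, rfl⟩ := Submodule.mem_sup.1 hb
          obtain ⟨c, rfl⟩ := Submodule.mem_span_singleton.1 ha2
          obtain ⟨d, rfl⟩ := Submodule.mem_span_singleton.1 hb2
          simp only [add_dotProduct, dotProduct_add, smul_dotProduct, dotProduct_smul, smul_eq_mul]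
          rw [hU'.1 a1 ha1 b1 hb1, dotProduct_comm a1 u, hcon a1 ha1, hcon b1 hb1,
            hU.1 u huU u huU]
          simp
        have := hU'.2 _ hT le_sup_left
        apply huU'
        rw [← this]
        exact Submodule.mem_sup_right (Submodule.mem_span_singleton_self u)
      obtain ⟨u', hu', hne⟩ := hex
      have huu : u ⬝ᵥ u = 0 := hU.1 u huU u huU
      have huu' : u' ⬝ᵥ u' = 0 := hU'.1 u' hu' u' hu'
      obtain ⟨w, hwdef⟩ : ∃ w : Fin n → Φ, w = u - u' := ⟨_, rfl⟩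
      have hww : w ⬝ᵥ w = -2 * (u ⬝ᵥ u') := by
        rw [hwdef]
        simp only [sub_dotProduct, dotProduct_sub]
        rw [huu, huu', dotProduct_comm u' u]
        ring
      have hw : w ⬝ᵥ w ≠ 0 := by
        rw [hww]
        exact mul_ne_zero (neg_ne_zero.2 h2) hne
      have hwu : w ⬝ᵥ u = - (u ⬝ᵥ u') := by
        rw [hwdef, sub_dotProduct, huu, dotProduct_comm u' u]
        ring
      have hsu : refl w *ᵥ u = u' := by
        rw [refl_mulVec, hwu, hww]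
        have : (2 / (-2 * (u ⬝ᵥ u')) * -(u ⬝ᵥ u')) = 1 := by
          field_simp
        rw [this, one_smul, hwdef]
        abel
      have hlt : U ⊓ U' < U.map (refl w).mulVecLin ⊓ U' := by
        refine lt_of_le_of_ne ?_ ?_
        · intro d hd
          obtain ⟨hd1, hd2⟩ := Submodule.mem_inf.1 hd
          refine Submodule.mem_inf.2 ⟨⟨d, hd1, ?_⟩, hd2⟩
          simp only [mulVecLin_apply]
          rw [refl_mulVec]
          have : w ⬝ᵥ d = 0 := by
            rw [hwdef, sub_dotProduct, hU.1 u huU d hd1, hU'.1 u' hu' d hd2, sub_zero]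
          rw [this]
          simp
        · intro heq
          have hm : u' ∈ U.map (refl w).mulVecLin ⊓ U' :=
            Submodule.mem_inf.2 ⟨⟨u, huU, by simp only [mulVecLin_apply]; exact hsu⟩, hu'⟩
          rw [← heq] at hm
          exact hne (hU.1 u huU u' (Submodule.mem_inf.1 hm).1)
      have hfr := Submodule.finrank_lt_finrank_of_lt hlt
      have hfr' : Module.finrank Φ (U.map (refl w).mulVecLin ⊓ U' : Submodule Φ (Fin n → Φ)) ≤
          Module.finrank Φ U' := Submodule.finrank_mono inf_le_right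
      obtain ⟨q, hq, hqU⟩ := ih _ (by omega) _ (refl_maxTotIso hw hU) rfl
      refine ⟨q * refl w, ?_, fun v => ?_⟩
      · rw [transpose_mul, refl_transpose, Matrix.mul_assoc, ← Matrix.mul_assoc (refl w),
          refl_mul_refl hw, Matrix.one_mul, hq]
      · rw [hqU]
        constructor
        · rintro ⟨_, ⟨a, ha, rfl⟩, rfl⟩
          exact ⟨a, ha, by simp only [mulVecLin_apply]; rw [mulVec_mulVec]⟩
        · rintro ⟨a, ha, rfl⟩
          exact ⟨refl w *ᵥ a, ⟨a, ha, rfl⟩, by rw [mulVec_mulVec]⟩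

/-- Any two maximal totally isotropic subspaces are related by an orthogonal matrix. -/
theorem witt_trans (h2 : (2 : Φ) ≠ 0) {U U' : Submodule Φ (Fin n → Φ)}
    (hU : MaxTotIso U) (hU' : MaxTotIso U') :
    ∃ q : Matrix (Fin n) (Fin n) Φ, q * qᵀ = 1 ∧ ∀ v, v ∈ U' ↔ ∃ u ∈ U, v = q *ᵥ u :=
  witt_aux h2 hU' _ U hU rfl


/-! ### part J2 -/

/-- If two members of the space have nonzero product there is a totally isotropic subspace of dimension 4. -/
theorem four_tot_iso (h2 : (2 : Φ) ≠ 0) {ε : Φ} (hε : ε * ε = 1)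
    {V : Submodule Φ (Matrix (Fin n) (Fin n) Φ)} (hV : IsAC ε V)
    {x y : Matrix (Fin n) (Fin n) Φ} (hx : x ∈ V) (hy : y ∈ V) (hxy : x * y ≠ 0) :
    ∃ U : Submodule Φ (Fin n → Φ), TotIso U ∧ Module.finrank Φ U = 4 := by
  classical
  obtain ⟨hxx, hxt⟩ := hV x hx
  obtain ⟨hyy, hyt⟩ := hV y hy
  obtain ⟨hss, _⟩ := hV (x + y) (V.add_mem hx hy)
  have hyx : y * x = -(x * y) := by
    have : (x + y) * (x + y) = x * x + x * y + y * x + y * y := by noncomm_ring
    rw [this, hxx, hyy, zero_add, add_zero] at hss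
    exact eq_neg_of_add_eq_zero_right hss
  set z := x * y with hz
  have hzt : zᵀ = -z := by
    rw [hz, transpose_mul, hxt, hyt, smul_mul_smul_comm, hε, one_smul, hyx]
  have hanti : ∀ u v : Fin n → Φ, u ⬝ᵥ (z *ᵥ v) = -(v ⬝ᵥ (z *ᵥ u)) := by
    intro u v
    have h1 : u ⬝ᵥ (z *ᵥ v) = (zᵀ *ᵥ u) ⬝ᵥ v := by
      rw [mulVec_transpose, dotProduct_mulVec]
    rw [h1, hzt, neg_mulVec, neg_dotProduct, dotProduct_comm]
  have hself : ∀ u : Fin n → Φ, u ⬝ᵥ (z *ᵥ u) = 0 := by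
    intro u
    have h1 := hanti u u
    have h3 : 2 * (u ⬝ᵥ (z *ᵥ u)) = 0 := by
      rw [two_mul]
      nth_rewrite 1 [h1]
      exact neg_add_cancel _
    exact (mul_eq_zero.1 h3).resolve_left h2
  have hex : ∃ e f : Fin n → Φ, e ⬝ᵥ (z *ᵥ f) ≠ 0 := by
    by_contra hcon
    push Not at hcon
    apply hxy
    ext i j
    have := hcon (Pi.single i 1) (Pi.single j 1)
    simpa using this
  obtain ⟨e, f, ht⟩ := hex
  have hyz : y * z = 0 := by
    rw [hz, ← mul_assoc, hyx, neg_mul, hz, mul_assoc, hyy, mul_zero, neg_zero]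
  have hpair : ∀ a b : Φ, a • (z *ᵥ e) + b • (z *ᵥ f) = 0 → a = 0 ∧ b = 0 := by
    intro a b hab
    have h3 := congrArg (fun w => e ⬝ᵥ w) hab
    have h4 := congrArg (fun w => f ⬝ᵥ w) hab
    simp only [dotProduct_add, dotProduct_smul, smul_eq_mul, hself, mul_zero, zero_add, add_zero,
      dotProduct_zero] at h3 h4
    rw [hanti f e] at h4
    refine ⟨?_, (mul_eq_zero.1 h3).resolve_right ht⟩
    exact (mul_eq_zero.1 h4).resolve_right (neg_ne_zero.2 ht)
  have hli : LinearIndependent Φ ![x *ᵥ e, x *ᵥ f, z *ᵥ e, z *ᵥ f] := by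
    rw [Fintype.linearIndependent_iff]
    intro g hg
    rw [Fin.sum_univ_four] at hg
    simp only [Matrix.cons_val_zero, Matrix.cons_val_one, Matrix.cons_val] at hg
    have h3 := congrArg (fun w => y *ᵥ w) hg
    simp only [mulVec_add, mulVec_smul, mulVec_mulVec, hyx, hyz, zero_mulVec, smul_zero, add_zero,
      neg_mulVec, smul_neg, mulVec_zero] at h3
    have h4 : g 0 • (z *ᵥ e) + g 1 • (z *ᵥ f) = 0 := by
      rw [← neg_add] at h3
      exact neg_eq_zero.1 h3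
    obtain ⟨h5, h6⟩ := hpair _ _ h4
    rw [h5, h6, zero_smul, zero_smul, zero_add, zero_add] at hg
    obtain ⟨h7, h8⟩ := hpair _ _ hg
    intro i
    fin_cases i
    · exact h5
    · exact h6
    · exact h7
    · exact h8
  refine ⟨Submodule.span Φ (Set.range ![x *ᵥ e, x *ᵥ f, z *ᵥ e, z *ᵥ f]), ?_, ?_⟩
  · have hle : Submodule.span Φ (Set.range ![x *ᵥ e, x *ᵥ f, z *ᵥ e, z *ᵥ f]) ≤
        LinearMap.range x.mulVecLin := by
      rw [Submodule.span_le]
      rintro _ ⟨i, rfl⟩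
      fin_cases i
      · exact ⟨e, rfl⟩
      · exact ⟨f, rfl⟩
      · refine ⟨y *ᵥ e, ?_⟩
        show x *ᵥ (y *ᵥ e) = z *ᵥ e
        rw [mulVec_mulVec]
      · refine ⟨y *ᵥ f, ?_⟩
        show x *ᵥ (y *ᵥ f) = z *ᵥ f
        rw [mulVec_mulVec]
    intro u hu v hv
    obtain ⟨u', rfl⟩ := hle hu
    obtain ⟨v', rfl⟩ := hle hv
    rw [mulVecLin_apply, mulVecLin_apply, dot_mulVec_mulVec hxt, hxx, zero_mulVec,
      dotProduct_zero, mul_zero]
  · rw [finrank_span_eq_card hli]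
    rfl


/-! ### part J3 -/

/-- explicit pair from a table of dot products -/
theorem hyp_pair_core {ε : Φ} (hε : ε * ε = 1) (u0 u1 u2 u3 w0 w1 w2 w3 : Fin n → Φ)
    (h00 : u0 ⬝ᵥ u0 = 0) (h01 : u0 ⬝ᵥ u1 = 0) (h02 : u0 ⬝ᵥ u2 = 0) (h03 : u0 ⬝ᵥ u3 = 0)
    (h10 : u1 ⬝ᵥ u0 = 0) (h11 : u1 ⬝ᵥ u1 = 0) (h12 : u1 ⬝ᵥ u2 = 0) (h13 : u1 ⬝ᵥ u3 = 0)
    (h20 : u2 ⬝ᵥ u0 = 0) (h21 : u2 ⬝ᵥ u1 = 0) (h22 : u2 ⬝ᵥ u2 = 0) (h23 : u2 ⬝ᵥ u3 = 0)
    (h30 : u3 ⬝ᵥ u0 = 0) (h31 : u3 ⬝ᵥ u1 = 0) (h32 : u3 ⬝ᵥ u2 = 0) (h33 : u3 ⬝ᵥ u3 = 0)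
    (a0 : u0 ⬝ᵥ w2 = 0) (a1 : u1 ⬝ᵥ w2 = 0) (a2 : u2 ⬝ᵥ w2 = 1) (a3 : u3 ⬝ᵥ w2 = 0)
    (b0 : u0 ⬝ᵥ w3 = 0) (b1 : u1 ⬝ᵥ w3 = 0) (b2 : u2 ⬝ᵥ w3 = 0) (b3 : u3 ⬝ᵥ w3 = 1)
    (c22 : w2 ⬝ᵥ w2 = 0) (c23 : w2 ⬝ᵥ w3 = 0) (c33 : w3 ⬝ᵥ w3 = 0)
    (d0 : u0 ⬝ᵥ w0 = 1) (d1 : u1 ⬝ᵥ w0 = 0) (e1 : u1 ⬝ᵥ w1 = 1) :
    ∃ V : Submodule Φ (Matrix (Fin n) (Fin n) Φ), IsAC ε V ∧ ∃ x ∈ V, ∃ y ∈ V, x * y ≠ 0 := by
  have a0' : w2 ⬝ᵥ u0 = 0 := by rw [dotProduct_comm]; exact a0
  have a1' : w2 ⬝ᵥ u1 = 0 := by rw [dotProduct_comm]; exact a1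
  have a2' : w2 ⬝ᵥ u2 = 1 := by rw [dotProduct_comm]; exact a2
  have a3' : w2 ⬝ᵥ u3 = 0 := by rw [dotProduct_comm]; exact a3
  have b0' : w3 ⬝ᵥ u0 = 0 := by rw [dotProduct_comm]; exact b0
  have b1' : w3 ⬝ᵥ u1 = 0 := by rw [dotProduct_comm]; exact b1
  have b2' : w3 ⬝ᵥ u2 = 0 := by rw [dotProduct_comm]; exact b2
  have b3' : w3 ⬝ᵥ u3 = 1 := by rw [dotProduct_comm]; exact b3
  have c32 : w3 ⬝ᵥ w2 = 0 := by rw [dotProduct_comm]; exact c23
  set x : Matrix (Fin n) (Fin n) Φ := vecMulVec u0 u2 + ε • vecMulVec u2 u0 +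
    (vecMulVec u1 u3 + ε • vecMulVec u3 u1) with hx
  set y : Matrix (Fin n) (Fin n) Φ := vecMulVec u0 w3 + ε • vecMulVec w3 u0 -
    (vecMulVec u1 w2 + ε • vecMulVec w2 u1) with hy
  clear_value x y
  have hxt : xᵀ = ε • x := by
    rw [hx]
    simp only [transpose_add, transpose_smul, transpose_vecMulVec, smul_add, smul_smul, hε, one_smul]
    abel
  have hyt : yᵀ = ε • y := by
    rw [hy]
    simp only [transpose_add, transpose_sub, transpose_smul, transpose_vecMulVec, smul_add, smul_sub,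
      smul_smul, hε, one_smul]
    abel
  have hxx : x * x = 0 := by
    rw [hx]
    simp [add_mul, mul_add, vecMulVec_mul_vecMulVec, h00, h01, h02, h03, h10, h11, h12, h13,
      h20, h21, h22, h23, h30, h31, h32, h33]
  have hyy : y * y = 0 := by
    rw [hy]
    simp [add_mul, mul_add, sub_mul, mul_sub, vecMulVec_mul_vecMulVec, h00, h01, h10, h11,
      a0, a1, b0, b1, a0', a1', b0', b1', c22, c23, c33, c32]
  have hxy : x * y = ε • (vecMulVec u1 u0 - vecMulVec u0 u1) := by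
    rw [hx, hy]
    simp [add_mul, mul_add, sub_mul, mul_sub, vecMulVec_mul_vecMulVec, h00, h01, h10, h11,
      h20, h21, h30, h31, a0, a1, a2, a3, b0, b1, b2, b3, smul_sub]
    try abel
  have hyx : y * x = ε • (vecMulVec u0 u1 - vecMulVec u1 u0) := by
    rw [hx, hy]
    simp [add_mul, mul_add, sub_mul, mul_sub, vecMulVec_mul_vecMulVec, h00, h01, h10, h11,
      h02, h03, h12, h13, a0', a1', a2', a3', b0', b1', b2', b3', smul_sub]
    try abel
  have hsum : x * y + y * x = 0 := by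
    rw [hxy, hyx, ← smul_add]
    have : vecMulVec u1 u0 - vecMulVec u0 u1 + (vecMulVec u0 u1 - vecMulVec u1 u0) =
      (0 : Matrix (Fin n) (Fin n) Φ) := by abel
    rw [this, smul_zero]
  have hε0 : ε ≠ 0 := by
    rintro rfl
    rw [mul_zero] at hε
    exact zero_ne_one hε
  refine ⟨Submodule.span Φ {x, y}, ?_, x, Submodule.subset_span (by simp), y,
    Submodule.subset_span (by simp), ?_⟩
  · intro z hz
    obtain ⟨a, b, rfl⟩ := Submodule.mem_span_pair.mp hz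
    constructor
    · have e : (a • x + b • y) * (a • x + b • y) =
          (a * a) • (x * x) + (a * b) • (x * y + y * x) + (b * b) • (y * y) := by
        simp only [add_mul, mul_add, smul_mul_assoc, mul_smul_comm, smul_smul, smul_add]
        rw [mul_comm b a]
        abel
      rw [e, hxx, hyy, hsum, smul_zero, smul_zero, smul_zero, add_zero, add_zero]
    · rw [transpose_add, transpose_smul, transpose_smul, hxt, hyt, smul_add, smul_comm a ε,
        smul_comm b ε]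
  · rw [hxy]
    intro h0
    have h1 := congrArg (fun M : Matrix (Fin n) (Fin n) Φ => (M * vecMulVec w0 w1).trace) h0
    simp only [smul_mul_assoc, sub_mul, vecMulVec_mul_vecMulVec, d0, d1, one_smul, zero_smul,
      zero_mul, trace_zero, trace_smul, trace_sub, trace_vecMulVec, e1] at h1
    simp at h1
    exact hε0 h1

/-- If there is a totally isotropic subspace of dimension at least 4, some SAAM / SASM has a nonzero product. -/
theorem hyp_pair (h2 : (2 : Φ) ≠ 0) {ε : Φ} (hε : ε * ε = 1)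
    {U : Submodule Φ (Fin n → Φ)} (hU : TotIso U) (h4 : 4 ≤ Module.finrank Φ U) :
    ∃ V : Submodule Φ (Matrix (Fin n) (Fin n) Φ), IsAC ε V ∧ ∃ x ∈ V, ∃ y ∈ V, x * y ≠ 0 := by
  obtain ⟨f, hf⟩ := exists_linearIndependent_of_le_finrank h4
  have hu : LinearIndependent Φ (fun i => (f i : Fin n → Φ)) :=
    hf.map' U.subtype (Submodule.ker_subtype U)
  set u : Fin 4 → (Fin n → Φ) := fun i => (f i : Fin n → Φ) with hudef
  have huu : ∀ i j, u i ⬝ᵥ u j = 0 := fun i j => hU _ (f i).2 _ (f j).2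
  obtain ⟨g, hg⟩ := LinearMap.exists_leftInverse_of_injective (Fintype.linearCombination Φ u)
    (LinearMap.ker_eq_bot.mpr (linearIndependent_iff_injective_fintypeLinearCombination.mp hu))
  have hgu : ∀ i, g (u i) = Pi.single i 1 := by
    intro i
    have h := congrArg (fun L => L (Pi.single i (1 : Φ))) hg
    simpa [Fintype.linearCombination_apply_single] using h
  let w : Fin 4 → (Fin n → Φ) := fun j k => g (fun l => if k = l then 1 else 0) j
  have hw : ∀ v j, v ⬝ᵥ w j = g v j := by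
    intro v j
    rw [LinearMap.pi_apply_eq_sum_univ g v, Finset.sum_apply]
    rfl
  have huw : ∀ i j, u i ⬝ᵥ w j = if i = j then 1 else 0 := by
    intro i j
    rw [hw, hgu, Pi.single_apply]
    by_cases h : i = j
    · subst h; simp
    · rw [if_neg h, if_neg (fun h' => h h'.symm)]
  have hwu : ∀ i j, w j ⬝ᵥ u i = if i = j then 1 else 0 := fun i j => by
    rw [dotProduct_comm, huw]
  let W2 : Fin n → Φ := w 2 - (2 : Φ)⁻¹ • ((w 2 ⬝ᵥ w 2) • u 2 + (w 2 ⬝ᵥ w 3) • u 3)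
  let W3 : Fin n → Φ := w 3 - (2 : Φ)⁻¹ • ((w 2 ⬝ᵥ w 3) • u 2 + (w 3 ⬝ᵥ w 3) • u 3)
  have hcomm : w 3 ⬝ᵥ w 2 = w 2 ⬝ᵥ w 3 := dotProduct_comm _ _
  have hW2 : ∀ i, u i ⬝ᵥ W2 = if i = 2 then 1 else 0 := by
    intro i
    simp only [W2, dotProduct_sub, dotProduct_smul, dotProduct_add, huu, huw]
    simp
  have hW3 : ∀ i, u i ⬝ᵥ W3 = if i = 3 then 1 else 0 := by
    intro i
    simp only [W3, dotProduct_sub, dotProduct_smul, dotProduct_add, huu, huw]
    simp
  refine hyp_pair_core hε (u 0) (u 1) (u 2) (u 3) (w 0) (w 1) W2 W3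
    (huu _ _) (huu _ _) (huu _ _) (huu _ _) (huu _ _) (huu _ _) (huu _ _) (huu _ _)
    (huu _ _) (huu _ _) (huu _ _) (huu _ _) (huu _ _) (huu _ _) (huu _ _) (huu _ _)
    (by rw [hW2]; simp) (by rw [hW2]; simp) (by rw [hW2]; simp) (by rw [hW2]; simp)
    (by rw [hW3]; simp) (by rw [hW3]; simp) (by rw [hW3]; simp) (by rw [hW3]; simp)
    ?_ ?_ ?_ (by rw [huw]; simp) (by rw [huw]; simp) (by rw [huw]; simp)
  · simp only [W2, dotProduct_sub, sub_dotProduct, dotProduct_smul, smul_dotProduct,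
      dotProduct_add, add_dotProduct, huu, huw, hwu]
    simp
    field_simp
    ring
  · simp only [W2, W3, dotProduct_sub, sub_dotProduct, dotProduct_smul, smul_dotProduct,
      dotProduct_add, add_dotProduct, huu, huw, hwu]
    simp
    field_simp
    ring
  · simp only [W3, dotProduct_sub, sub_dotProduct, dotProduct_smul, smul_dotProduct,
      dotProduct_add, add_dotProduct, huu, huw, hwu]
    simp
    field_simp
    ring


/-! ### part J4 -/

theorem dot_anti251 {y : Matrix (Fin n) (Fin n) Φ} (hy : yᵀ = (-1 : Φ) • y)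
    (a b : Fin n → Φ) : a ⬝ᵥ (y *ᵥ b) = -((y *ᵥ a) ⬝ᵥ b) := by
  have h1 : a ⬝ᵥ (y *ᵥ b) = (yᵀ *ᵥ a) ⬝ᵥ b := by
    rw [mulVec_transpose, dotProduct_mulVec]
  rw [h1, hy, smul_mulVec, neg_one_smul, neg_dotProduct]

theorem exists_beta251 {u v : Fin n → Φ} (hv : v ∉ Submodule.span Φ {u}) :
    ∃ β : Fin n → Φ, u ⬝ᵥ β = 0 ∧ v ⬝ᵥ β = 1 := by
  obtain ⟨f, hf1, hf2⟩ := Submodule.exists_le_ker_of_notMem hv
  have hu : f u = 0 := hf2 (Submodule.mem_span_singleton_self u)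
  have hfd : ∀ w, f w = w ⬝ᵥ (fun i => f (fun j => if i = j then 1 else 0)) := by
    intro w
    rw [LinearMap.pi_apply_eq_sum_univ f w]
    rfl
  refine ⟨(f v)⁻¹ • (fun i => f (fun j => if i = j then 1 else 0)), ?_, ?_⟩
  · rw [dotProduct_smul, ← hfd, hu, smul_zero]
  · rw [dotProduct_smul, ← hfd, smul_eq_mul, inv_mul_cancel₀ hf1]

/-- `Λ²U` cannot be enlarged, `dim U ≥ 2`. -/
theorem alt_max (h2 : (2 : Φ) ≠ 0) {U : Submodule Φ (Fin n → Φ)} (hU : MaxTotIso U)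
    (hd : 2 ≤ Module.finrank Φ U) {W : Submodule Φ (Matrix (Fin n) (Fin n) Φ)}
    (hW : IsAC (-1 : Φ) W) (hle : colSpace (-1 : Φ) U ≤ W) : W ≤ colSpace (-1 : Φ) U := by
  intro y hy
  obtain ⟨hyy, hyT⟩ := hW y hy
  have hyy' : ∀ p : Fin n → Φ, y *ᵥ (y *ᵥ p) = 0 := by
    intro p
    rw [mulVec_mulVec, hyy, zero_mulVec]
  have step1 : ∀ u ∈ U, y *ᵥ u = 0 := by
    intro u hu
    by_cases hu0 : u = 0
    · rw [hu0, mulVec_zero]
    obtain ⟨v, hvU, hv⟩ : ∃ v ∈ U, v ∉ Submodule.span Φ {u} := by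
      by_contra hcon
      push Not at hcon
      have h3 : U ≤ Submodule.span Φ {u} := hcon
      have h4 := Submodule.finrank_mono h3
      rw [finrank_span_singleton hu0] at h4
      omega
    obtain ⟨β, hβ1, hβ2⟩ := exists_beta251 hv
    set x : Matrix (Fin n) (Fin n) Φ := vecMulVec u v - vecMulVec v u with hx
    have hxw : ∀ w, x *ᵥ w = (v ⬝ᵥ w) • u - (u ⬝ᵥ w) • v := by
      intro w
      funext i
      rw [hx, sub_mulVec]
      simp only [Pi.sub_apply, Pi.smul_apply, mulVec, dotProduct, vecMulVec_apply, smul_eq_mul,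
        Finset.sum_mul]
      congr 1 <;> exact Finset.sum_congr rfl fun j _ => by ring
    have hxc : x ∈ colSpace (-1 : Φ) U := by
      refine ⟨?_, fun w => ?_⟩
      · rw [hx]
        ext i j
        simp [vecMulVec_apply]
        ring
      · rw [hxw w]
        exact U.sub_mem (U.smul_mem _ hu) (U.smul_mem _ hvU)
    have hxW := hle hxc
    have hxx := (hW x hxW).1
    have hxy := (hW (x + y) (W.add_mem hxW hy)).1
    have hanti : x * y + y * x = 0 := by
      have : (x + y) * (x + y) = x * x + y * y + (x * y + y * x) := by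
        rw [add_mul, mul_add, mul_add]; abel
      rw [this, hxx, hyy, zero_add, zero_add] at hxy
      exact hxy
    have hstar : x *ᵥ (y *ᵥ β) + y *ᵥ (x *ᵥ β) = 0 := by
      rw [mulVec_mulVec, mulVec_mulVec, ← add_mulVec, hanti, zero_mulVec]
    rw [hxw, hxw, hβ1, hβ2, one_smul, zero_smul, sub_zero] at hstar
    -- hstar : (v ⬝ᵥ yβ) • u - (u ⬝ᵥ yβ) • v + y u = 0
    rw [dot_anti251 hyT v β, dot_anti251 hyT u β] at hstar
    have hyu : y *ᵥ u = ((y *ᵥ v) ⬝ᵥ β) • u + (-((y *ᵥ u) ⬝ᵥ β)) • v := by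
      have h5 : y *ᵥ u = -((-((y *ᵥ v) ⬝ᵥ β)) • u - (-((y *ᵥ u) ⬝ᵥ β)) • v) := by
        rw [eq_neg_iff_add_eq_zero, add_comm]
        exact hstar
      refine h5.trans ?_
      simp only [neg_smul]
      abel
    have hd0 : (y *ᵥ u) ⬝ᵥ β = 0 := by
      have h6 : (y *ᵥ u) ⬝ᵥ β = -((y *ᵥ u) ⬝ᵥ β) := by
        conv_lhs => rw [hyu]
        rw [add_dotProduct, smul_dotProduct, smul_dotProduct, hβ1, hβ2, smul_zero, zero_add,
          smul_eq_mul, mul_one]
      have h7 : 2 * ((y *ᵥ u) ⬝ᵥ β) = 0 := by linear_combination h6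
      exact (mul_eq_zero.1 h7).resolve_left h2
    rw [hd0, neg_zero, zero_smul, add_zero] at hyu
    set c := (y *ᵥ v) ⬝ᵥ β with hc
    have h8 : (c * c) • u = 0 := by
      have h9 := hyy' u
      rw [hyu, mulVec_smul, hyu, smul_smul] at h9
      exact h9
    have h10 : c = 0 := by
      rcases smul_eq_zero.1 h8 with h | h
      · exact mul_self_eq_zero.1 h
      · exact absurd h hu0
    rw [hyu, h10, zero_smul]
  refine ⟨hyT, fun p => ?_⟩
  set w := y *ᵥ p with hw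
  have hwu : ∀ u ∈ U, w ⬝ᵥ u = 0 := by
    intro u hu
    have h3 := dot_anti251 hyT p u
    rw [step1 u hu, dotProduct_zero] at h3
    rw [hw]
    exact neg_eq_zero.1 h3.symm
  have hww : w ⬝ᵥ w = 0 := by
    rw [hw, dot_mulVec_mulVec hyT, hyy, zero_mulVec, dotProduct_zero, mul_zero]
  have hU' : TotIso (U ⊔ Submodule.span Φ {w}) := by
    intro a ha b hb
    obtain ⟨a1, ha1, a2, ha2, rfl⟩ := Submodule.mem_sup.1 ha
    obtain ⟨b1, hb1, b2, hb2, rfl⟩ := Submodule.mem_sup.1 hb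
    obtain ⟨s, rfl⟩ := Submodule.mem_span_singleton.1 ha2
    obtain ⟨t, rfl⟩ := Submodule.mem_span_singleton.1 hb2
    rw [add_dotProduct, dotProduct_add, dotProduct_add, smul_dotProduct, smul_dotProduct,
      dotProduct_smul, dotProduct_smul, hU.1 a1 ha1 b1 hb1, hww, hwu b1 hb1,
      dotProduct_comm a1 w, hwu a1 ha1]
    simp
  have h11 := hU.2 _ hU' le_sup_left
  rw [← h11]
  exact Submodule.mem_sup_right (Submodule.mem_span_singleton_self w)


/-! ### part J5 -/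

/-- `S²U` cannot be enlarged. -/
theorem sym_max (h2 : (2 : Φ) ≠ 0) {U : Submodule Φ (Fin n → Φ)} (hU : MaxTotIso U)
    {W : Submodule Φ (Matrix (Fin n) (Fin n) Φ)}
    (hW : IsAC (1 : Φ) W) (hle : colSpace (1 : Φ) U ≤ W) : W ≤ colSpace (1 : Φ) U := by
  intro y hy
  obtain ⟨hyy, hyt⟩ := hW y hy
  have hyt' : yᵀ = y := by rw [hyt, one_smul]
  have hsym : ∀ a b : Fin n → Φ, a ⬝ᵥ (y *ᵥ b) = (y *ᵥ a) ⬝ᵥ b := by
    intro a b
    rw [dotProduct_mulVec, ← mulVec_transpose, hyt']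
  have hvm : ∀ u p : Fin n → Φ, (vecMulVec u u) *ᵥ p = (u ⬝ᵥ p) • u := by
    intro u p
    ext i
    simp only [mulVec, dotProduct, vecMulVec_apply, Pi.smul_apply, smul_eq_mul, Finset.sum_mul]
    exact Finset.sum_congr rfl (fun j _ => by ring)
  have step1 : ∀ u ∈ U, y *ᵥ u = 0 := by
    intro u hu
    by_cases hu0 : u = 0
    · rw [hu0, mulVec_zero]
    · obtain ⟨k, hk⟩ := Function.ne_iff.1 hu0
      have hk' : u k ≠ 0 := hk
      obtain ⟨α, hα⟩ : ∃ α : Fin n → Φ, u ⬝ᵥ α = 1 := by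
        refine ⟨Pi.single k (u k)⁻¹, ?_⟩
        rw [dotProduct_single]
        exact mul_inv_cancel₀ hk'
      have hx : vecMulVec u u ∈ W := by
        apply hle
        rw [mem_colSpace]
        refine ⟨?_, fun v => ?_⟩
        · rw [one_smul, transpose_vecMulVec]
        · rw [hvm]
          exact U.smul_mem _ hu
      have hxx := (hW _ hx).1
      have hsum := (hW _ (W.add_mem hx hy)).1
      have hcomm : vecMulVec u u * y + y * vecMulVec u u = 0 := by
        have e : (vecMulVec u u + y) * (vecMulVec u u + y) =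
            vecMulVec u u * vecMulVec u u + (vecMulVec u u * y + y * vecMulVec u u) + y * y := by
          noncomm_ring
        rw [e, hxx, hyy, zero_add, add_zero] at hsum
        exact hsum
      have happ : (u ⬝ᵥ (y *ᵥ α)) • u + y *ᵥ u = 0 := by
        have e := congrArg (fun m => m *ᵥ α) hcomm
        simp only [add_mulVec, ← mulVec_mulVec, zero_mulVec, hvm, hα, one_smul] at e
        exact e
      have hyu : y *ᵥ u = (-(u ⬝ᵥ (y *ᵥ α))) • u := by
        rw [neg_smul]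
        exact eq_neg_of_add_eq_zero_right happ
      have hc : u ⬝ᵥ (y *ᵥ α) = -(u ⬝ᵥ (y *ᵥ α)) := by
        have e := hsym u α
        rw [hyu, smul_dotProduct, hα, smul_eq_mul, mul_one] at e
        exact e
      have hc0 : u ⬝ᵥ (y *ᵥ α) = 0 := by
        have e : (2 : Φ) * (u ⬝ᵥ (y *ᵥ α)) = 0 := by
          rw [two_mul]
          nth_rewrite 2 [hc]
          exact add_neg_cancel _
        exact (mul_eq_zero.1 e).resolve_left h2
      rw [hyu, hc0, neg_zero, zero_smul]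
  rw [mem_colSpace]
  refine ⟨hyt, fun p => ?_⟩
  have hwu : ∀ u ∈ U, u ⬝ᵥ (y *ᵥ p) = 0 := by
    intro u hu
    rw [hsym, step1 u hu, zero_dotProduct]
  have hww : (y *ᵥ p) ⬝ᵥ (y *ᵥ p) = 0 := by
    rw [dot_mulVec_mulVec hyt, hyy, zero_mulVec, dotProduct_zero, mul_zero]
  have hT : TotIso (U ⊔ Submodule.span Φ {y *ᵥ p}) := by
    intro a ha b hb
    obtain ⟨a1, ha1, a2, ha2, rfl⟩ := Submodule.mem_sup.1 ha
    obtain ⟨b1, hb1, b2, hb2, rfl⟩ := Submodule.mem_sup.1 hb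
    obtain ⟨s, rfl⟩ := Submodule.mem_span_singleton.1 ha2
    obtain ⟨t, rfl⟩ := Submodule.mem_span_singleton.1 hb2
    have e1 : (y *ᵥ p) ⬝ᵥ b1 = 0 := by rw [dotProduct_comm]; exact hwu b1 hb1
    simp only [add_dotProduct, dotProduct_add, smul_dotProduct, dotProduct_smul, hwu a1 ha1, e1, hww,
      hU.1 a1 ha1 b1 hb1, smul_zero, add_zero]
  have hEq := hU.2 _ hT le_sup_left
  rw [← hEq]
  exact (le_sup_right : Submodule.span Φ {y *ᵥ p} ≤ U ⊔ Submodule.span Φ {y *ᵥ p})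
    (Submodule.mem_span_singleton_self _)


/-! ### part J6 -/

/-- A nonzero antisymmetric `y` with `y²=0` gives a totally isotropic subspace of dimension 2. -/
theorem alt_small (h2 : (2 : Φ) ≠ 0) {y : Matrix (Fin n) (Fin n) Φ}
    (hy : y * y = 0) (hyt : yᵀ = -y) (h0 : y ≠ 0) :
    ∃ U : Submodule Φ (Fin n → Φ), TotIso U ∧ Module.finrank Φ U = 2 := by
  classical
  obtain ⟨i, k, hik⟩ : ∃ i k, y i k ≠ 0 := by
    by_contra hcon
    push Not at hcon
    exact h0 (by ext i k; simpa using hcon i k)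
  have hanti : ∀ a b, y b a = - y a b := fun a b => by
    have := congrFun (congrFun hyt a) b
    simpa [transpose_apply] using this
  have hdiag : ∀ a, y a a = 0 := fun a => by
    have h := hanti a a
    have h3 : (2 : Φ) * y a a = 0 := by linear_combination h
    exact (mul_eq_zero.1 h3).resolve_left h2
  have hcol : ∀ a, y *ᵥ (Pi.single a (1 : Φ)) = fun r => y r a := fun a => by
    ext r; simp [mulVec_single]
  have hyt' : yᵀ = (-1 : Φ) • y := by rw [hyt]; simp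
  have hli : LinearIndependent Φ ![y *ᵥ (Pi.single i (1 : Φ)), y *ᵥ (Pi.single k (1 : Φ))] := by
    rw [LinearIndependent.pair_iff]
    intro s t hst
    rw [hcol, hcol] at hst
    have e1 := congrFun hst i
    have e2 := congrFun hst k
    simp only [Pi.add_apply, Pi.smul_apply, smul_eq_mul, Pi.zero_apply, hdiag, mul_zero, zero_add,
      add_zero] at e1 e2
    rw [hanti i k] at e2
    refine ⟨?_, ?_⟩
    · rcases mul_eq_zero.1 e2 with h | h
      · exact h
      · exact absurd (neg_eq_zero.1 h) hik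
    · exact (mul_eq_zero.1 e1).resolve_right hik
  refine ⟨Submodule.span Φ (Set.range ![y *ᵥ (Pi.single i (1 : Φ)), y *ᵥ (Pi.single k (1 : Φ))]), ?_, ?_⟩
  · have hle : Submodule.span Φ (Set.range ![y *ᵥ (Pi.single i (1 : Φ)), y *ᵥ (Pi.single k (1 : Φ))])
        ≤ LinearMap.range (Matrix.mulVecLin y) := by
      rw [Submodule.span_le]
      rintro _ ⟨r, rfl⟩
      fin_cases r
      · exact ⟨Pi.single i (1 : Φ), rfl⟩
      · exact ⟨Pi.single k (1 : Φ), rfl⟩
    intro u hu v hv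
    obtain ⟨p, rfl⟩ := hle hu
    obtain ⟨q, rfl⟩ := hle hv
    simp only [Matrix.mulVecLin_apply]
    rw [dot_mulVec_mulVec hyt', hy]
    simp
  · rw [finrank_span_eq_card hli]
    simp

/-- Totally isotropic subspaces have dimension at most `n / 2`. -/
theorem totIso_le {U : Submodule Φ (Fin n → Φ)} (hU : TotIso U) :
    2 * Module.finrank Φ U ≤ n := by
  classical
  let b := Module.finBasis Φ U
  let A : Matrix (Fin (Module.finrank Φ U)) (Fin n) Φ := fun r j => ((b r : U) : Fin n → Φ) j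
  have hli : LinearIndependent Φ A.row := by
    have := b.linearIndependent.map' U.subtype (Submodule.ker_subtype U)
    exact this
  have h1 : A.rank = Module.finrank Φ U := by
    rw [hli.rank_matrix, Fintype.card_fin]
  have h2 : A * Aᵀ = 0 := by
    ext r s
    have := hU _ (b r).2 _ (b s).2
    simpa [Matrix.mul_apply, dotProduct] using this
  have h3 := Matrix.rank_add_rank_le_card_of_mul_eq_zero h2
  rw [rank_transpose, h1, Fintype.card_fin] at h3
  omega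


/-! ### part J7 -/

theorem exists_maxTotIso_ge {U : Submodule Φ (Fin n → Φ)} (hU : TotIso U) :
    ∃ U', MaxTotIso U' ∧ U ≤ U' := by
  obtain ⟨m, hm, hmax⟩ := WellFounded.has_min
    (wellFounded_gt : WellFounded (fun a b : Submodule Φ (Fin n → Φ) => a > b))
    {U' | TotIso U' ∧ U ≤ U'} ⟨U, hU, le_rfl⟩
  refine ⟨m, ⟨hm.1, ?_⟩, hm.2⟩
  intro U' hU' hle
  by_contra hne
  exact hmax U' ⟨hU', hm.2.trans hle⟩ (lt_of_le_of_ne hle (fun h => hne h.symm))

theorem exists_maxAC_ge {ε : Φ} {V : Submodule Φ (Matrix (Fin n) (Fin n) Φ)} (hV : IsAC ε V) :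
    ∃ W, IsMaxAC ε W ∧ V ≤ W := by
  obtain ⟨m, hm, hmax⟩ := WellFounded.has_min
    (wellFounded_gt : WellFounded (fun a b : Submodule Φ (Matrix (Fin n) (Fin n) Φ) => a > b))
    {W | IsAC ε W ∧ V ≤ W} ⟨V, hV, le_rfl⟩
  refine ⟨m, ⟨hm.1, ?_⟩, hm.2⟩
  intro U' hU' hle
  by_contra hne
  exact hmax U' ⟨hU', hm.2.trans hle⟩ (lt_of_le_of_ne hle (fun h => hne h.symm))

/-- A space with all products zero is contained in some `colSpace ε U`. -/
theorem zero_prod {ε : Φ} (hε : ε * ε = 1) {V : Submodule Φ (Matrix (Fin n) (Fin n) Φ)}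
    (hV : IsAC ε V) (h0 : ∀ x ∈ V, ∀ y ∈ V, x * y = 0) :
    ∃ U : Submodule Φ (Fin n → Φ), TotIso U ∧ V ≤ colSpace ε U := by
  refine ⟨Submodule.span Φ {w | ∃ x ∈ V, ∃ u, w = x *ᵥ u}, ?_, ?_⟩
  · intro a ha b hb
    induction ha using Submodule.span_induction with
    | mem a ha =>
      obtain ⟨x, hx, u, rfl⟩ := ha
      induction hb using Submodule.span_induction with
      | mem b hb =>
        obtain ⟨y, hy, v, rfl⟩ := hb
        rw [dot_mulVec_mulVec (hV x hx).2, h0 x hx y hy, zero_mulVec, dotProduct_zero, mul_zero]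
      | zero => exact dotProduct_zero _
      | add p q _ _ hp hq => rw [dotProduct_add, hp, hq, add_zero]
      | smul c p _ hp => rw [dotProduct_smul, hp, smul_zero]
    | zero => exact zero_dotProduct _
    | add p q _ _ hp hq => rw [add_dotProduct, hp, hq, add_zero]
    | smul c p _ hp => rw [smul_dotProduct, hp, smul_zero]
  · intro x hx
    exact ⟨(hV x hx).2, fun v => Submodule.subset_span ⟨x, hx, v, rfl⟩⟩


/-! ### part J8 -/

theorem colSpace_isAC {ε : Φ} (hε : ε * ε = 1) {U : Submodule Φ (Fin n → Φ)} (hU : TotIso U) :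
    IsAC ε (colSpace ε U) ∧ ∀ x ∈ colSpace ε U, ∀ y ∈ colSpace ε U, x * y = 0 := by
  have hε0 : ε ≠ 0 := by
    rintro rfl
    simp at hε
  have key : ∀ x ∈ colSpace ε U, ∀ y ∈ colSpace ε U, x * y = 0 := by
    intro x hx y hy
    rw [mem_colSpace] at hx hy
    ext i j
    have h := dot_mulVec_mulVec (y := y) hx.1 (Pi.single i 1) (Pi.single j 1)
    rw [hU _ (hx.2 _) _ (hy.2 _)] at h
    have h2 := (mul_eq_zero.1 h.symm).resolve_left hε0
    simpa using h2
  exact ⟨fun x hx => ⟨key x hx x hx, (mem_colSpace.1 hx).1⟩, key⟩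

theorem equivt_colSpace {ε : Φ} {U U' : Submodule Φ (Fin n → Φ)} {q : Matrix (Fin n) (Fin n) Φ}
    (hq : q * qᵀ = 1) (h : ∀ v, v ∈ U' ↔ ∃ u ∈ U, v = q *ᵥ u) :
    Equivt (colSpace ε U) (colSpace ε U') := by
  have hq' : qᵀ * q = 1 := mul_eq_one_comm.mp hq
  refine ⟨q, hq, fun x => ⟨fun hx => ?_, ?_⟩⟩
  · rw [mem_colSpace] at hx
    refine ⟨qᵀ * x * q, ?_, ?_⟩
    · rw [mem_colSpace]
      refine ⟨?_, fun v => ?_⟩
      · rw [transpose_mul, transpose_mul, transpose_transpose, hx.1, Matrix.smul_mul, Matrix.mul_smul,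
          Matrix.mul_assoc]
      · obtain ⟨u, hu, huv⟩ := (h _).1 (hx.2 (q *ᵥ v))
        have : (qᵀ * x * q) *ᵥ v = u := by
          rw [← mulVec_mulVec, ← mulVec_mulVec, huv, mulVec_mulVec, hq', one_mulVec]
        rw [this]
        exact hu
    · calc x = (q * qᵀ) * x * (q * qᵀ) := by rw [hq, Matrix.one_mul, Matrix.mul_one]
        _ = q * (qᵀ * x * q) * qᵀ := by simp only [Matrix.mul_assoc]
  · rintro ⟨y, hy, rfl⟩
    rw [mem_colSpace] at hy ⊢
    refine ⟨?_, fun v => ?_⟩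
    · rw [transpose_mul, transpose_mul, transpose_transpose, hy.1, Matrix.smul_mul, Matrix.mul_smul,
        Matrix.mul_assoc]
    · rw [h]
      exact ⟨y *ᵥ (qᵀ *ᵥ v), hy.2 _, by simp only [mulVec_mulVec, Matrix.mul_assoc]⟩

theorem equivt_finrank {V W : Submodule Φ (Matrix (Fin n) (Fin n) Φ)} (h : Equivt V W) :
    Module.finrank Φ V = Module.finrank Φ W := by
  obtain ⟨q, hq, hW⟩ := h
  have hq' : qᵀ * q = 1 := mul_eq_one_comm.mp hq
  let L : Matrix (Fin n) (Fin n) Φ ≃ₗ[Φ] Matrix (Fin n) (Fin n) Φ :=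
    { toFun := fun y => q * y * qᵀ
      map_add' := fun a b => by rw [Matrix.mul_add, Matrix.add_mul]
      map_smul' := fun c a => by simp
      invFun := fun x => qᵀ * x * q
      left_inv := fun y => by
        show qᵀ * (q * y * qᵀ) * q = y
        calc qᵀ * (q * y * qᵀ) * q = (qᵀ * q) * y * (qᵀ * q) := by simp only [Matrix.mul_assoc]
          _ = y := by rw [hq', Matrix.one_mul, Matrix.mul_one]
      right_inv := fun x => by
        show q * (qᵀ * x * q) * qᵀ = x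
        calc q * (qᵀ * x * q) * qᵀ = (q * qᵀ) * x * (q * qᵀ) := by simp only [Matrix.mul_assoc]
          _ = x := by rw [hq, Matrix.one_mul, Matrix.mul_one] }
  have hWL : W = V.map (L : Matrix (Fin n) (Fin n) Φ →ₗ[Φ] Matrix (Fin n) (Fin n) Φ) := by
    ext x
    rw [hW, Submodule.mem_map]
    constructor
    · rintro ⟨y, hy, rfl⟩
      exact ⟨y, hy, rfl⟩
    · rintro ⟨y, hy, rfl⟩
      exact ⟨y, hy, rfl⟩
  rw [hWL]
  exact (LinearEquiv.finrank_map_eq L V).symm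

theorem equivt_zero {V W : Submodule Φ (Matrix (Fin n) (Fin n) Φ)} (h : Equivt V W)
    (h0 : ∀ x ∈ V, ∀ y ∈ V, x * y = 0) : ∀ x ∈ W, ∀ y ∈ W, x * y = 0 := by
  obtain ⟨q, hq, hW⟩ := h
  have hq' : qᵀ * q = 1 := mul_eq_one_comm.mp hq
  intro x hx y hy
  obtain ⟨a, ha, rfl⟩ := (hW x).1 hx
  obtain ⟨b, hb, rfl⟩ := (hW y).1 hy
  calc q * a * qᵀ * (q * b * qᵀ) = q * (a * ((qᵀ * q) * b)) * qᵀ := by simp only [Matrix.mul_assoc]
    _ = 0 := by rw [hq', Matrix.one_mul, h0 a ha b hb]; simp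


theorem finrank_le_of_image {U U' : Submodule Φ (Fin n → Φ)} {q : Matrix (Fin n) (Fin n) Φ}
    (h : ∀ v, v ∈ U' ↔ ∃ u ∈ U, v = q *ᵥ u) : Module.finrank Φ U' ≤ Module.finrank Φ U := by
  have hU' : U' = U.map q.mulVecLin := by
    ext v
    rw [h v, Submodule.mem_map]
    constructor
    · rintro ⟨u, hu, rfl⟩
      exact ⟨u, hu, rfl⟩
    · rintro ⟨u, hu, rfl⟩
      exact ⟨u, hu, rfl⟩
  rw [hU']
  exact Submodule.finrank_map_le _ _

theorem maxTotIso_finrank (h2 : (2 : Φ) ≠ 0) {U U' : Submodule Φ (Fin n → Φ)}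
    (hU : MaxTotIso U) (hU' : MaxTotIso U') : Module.finrank Φ U' = Module.finrank Φ U := by
  obtain ⟨q, -, h⟩ := witt_trans h2 hU hU'
  obtain ⟨q', -, h'⟩ := witt_trans h2 hU' hU
  exact le_antisymm (finrank_le_of_image h) (finrank_le_of_image h')

theorem totIso_finrank_le (h2 : (2 : Φ) ≠ 0) {U T : Submodule Φ (Fin n → Φ)}
    (hU : MaxTotIso U) (hT : TotIso T) : Module.finrank Φ T ≤ Module.finrank Φ U := by
  obtain ⟨U', hU', hle⟩ := exists_maxTotIso_ge hT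
  rw [← maxTotIso_finrank h2 hU hU']
  exact Submodule.finrank_mono hle

theorem colSpace_mono {ε : Φ} {U U' : Submodule Φ (Fin n → Φ)} (h : U ≤ U') :
    colSpace ε U ≤ colSpace ε U' := fun x hx => ⟨hx.1, fun v => h (hx.2 v)⟩

theorem sq_of_eps {ε : Φ} (hε : ε = -1 ∨ ε = 1) : ε * ε = 1 := by
  rcases hε with h | h <;> rw [h] <;> ring

theorem colSpace_max (h2 : (2 : Φ) ≠ 0) {ε : Φ} (hε : ε = -1 ∨ ε = 1)
    {U : Submodule Φ (Fin n → Φ)} (hU : MaxTotIso U) : IsMaxAC ε (colSpace ε U) := by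
  refine ⟨(colSpace_isAC (sq_of_eps hε) hU.1).1, fun W hW hle => le_antisymm ?_ hle⟩
  rcases hε with h | h
  · subst h
    by_cases hd : 2 ≤ Module.finrank Φ U
    · exact alt_max h2 hU hd hW hle
    · intro y hy
      have hy0 : y = 0 := by
        by_contra hne
        obtain ⟨T, hT, hT2⟩ := alt_small h2 (hW y hy).1 (by rw [(hW y hy).2, neg_one_smul]) hne
        have := totIso_finrank_le h2 hU hT
        omega
      rw [hy0]
      exact Submodule.zero_mem _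
  · subst h
    exact sym_max h2 hU hW hle

theorem zero_iff (h2 : (2 : Φ) ≠ 0) {ε : Φ} (hε : ε = -1 ∨ ε = 1)
    {U : Submodule Φ (Fin n → Φ)} (hU : MaxTotIso U)
    {V : Submodule Φ (Matrix (Fin n) (Fin n) Φ)} (hV : IsMaxAC ε V) :
    (∀ x ∈ V, ∀ y ∈ V, x * y = 0) ↔ Equivt (colSpace ε U) V := by
  constructor
  · intro h0
    obtain ⟨T, hT, hVT⟩ := zero_prod (sq_of_eps hε) hV.1 h0
    obtain ⟨U', hU', hle⟩ := exists_maxTotIso_ge hT
    have hVU : V ≤ colSpace ε U' := hVT.trans (colSpace_mono hle)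
    have heq : colSpace ε U' = V := hV.2 _ (colSpace_isAC (sq_of_eps hε) hU'.1).1 hVU
    obtain ⟨q, hq, h⟩ := witt_trans h2 hU hU'
    rw [← heq]
    exact equivt_colSpace hq h
  · intro h
    exact equivt_zero h (colSpace_isAC (sq_of_eps hε) hU.1).2

theorem all_iff (h2 : (2 : Φ) ≠ 0) {ε : Φ} (hε : ε = -1 ∨ ε = 1)
    {U : Submodule Φ (Fin n → Φ)} (hU : MaxTotIso U) :
    (∀ V, IsMaxAC ε V → Equivt (colSpace ε U) V) ↔ Module.finrank Φ U ≤ 3 := by
  constructor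
  · intro h
    by_contra hlt
    have h4 : 4 ≤ Module.finrank Φ U := by omega
    obtain ⟨V, hV, x, hx, y, hy, hxy⟩ := hyp_pair h2 (sq_of_eps hε) hU.1 h4
    obtain ⟨W, hW, hVW⟩ := exists_maxAC_ge hV
    exact hxy ((zero_iff h2 hε hU hW).2 (h W hW) x (hVW hx) y (hVW hy))
  · intro h3 V hV
    refine (zero_iff h2 hε hU hV).1 fun x hx y hy => ?_
    by_contra hxy
    obtain ⟨T, hT, hT4⟩ := four_tot_iso h2 (sq_of_eps hε) hV.1 hx hy hxy
    have := totIso_finrank_le h2 hU hT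
    omega

end Pool.Agent.Helper917.SAAM
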