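import Mathlib
import Pool.Agent.Helper917.SAAM.Base

set_option linter.unusedVariables false
set_option linter.unusedSimpArgs false

namespace Pool.Agent.Helper917.SAAM

open Matrix

variable {Φ : Type*} [Field Φ] {n : ℕ}


/-! ### part K1 -/

theorem hyp_refl (m : Fin n → Φ) (hm : m ⬝ᵥ m ≠ 0) :
    ∃ s : Matrix (Fin n) (Fin n) Φ, s * sᵀ = 1 ∧
      ∀ v, s *ᵥ v = v - (2 * (m ⬝ᵥ v) / (m ⬝ᵥ m)) • m := by
  have hact : ∀ v, (1 - (2 / (m ⬝ᵥ m)) • vecMulVec m m) *ᵥ v =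
      v - (2 * (m ⬝ᵥ v) / (m ⬝ᵥ m)) • m := by
    intro v
    rw [sub_mulVec, one_mulVec, smul_mulVec, vecMulVec_mulVec]
    ext i
    simp only [Pi.sub_apply, Pi.smul_apply, smul_eq_mul, MulOpposite.smul_eq_mul_unop,
      MulOpposite.unop_op]
    ring
  refine ⟨1 - (2 / (m ⬝ᵥ m)) • vecMulVec m m, ?_, hact⟩
  have hsymm : (1 - (2 / (m ⬝ᵥ m)) • vecMulVec m m)ᵀ = 1 - (2 / (m ⬝ᵥ m)) • vecMulVec m m := by
    rw [transpose_sub, transpose_one, transpose_smul]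
    congr 2
    ext i j
    simp [vecMulVec_apply, mul_comm]
  rw [hsymm]
  have hsq : vecMulVec m m * vecMulVec m m = (m ⬝ᵥ m) • vecMulVec m m := by
    ext i j
    simp only [Matrix.mul_apply, vecMulVec_apply, Matrix.smul_apply, smul_eq_mul, dotProduct,
      Finset.sum_mul]
    refine Finset.sum_congr rfl fun k _ => ?_
    ring
  rw [sub_mul, mul_sub, mul_sub, one_mul, one_mul, mul_one, smul_mul_smul_comm, hsq, smul_smul]
  have hc : 2 / (m ⬝ᵥ m) * (2 / (m ⬝ᵥ m)) * (m ⬝ᵥ m) = 2 / (m ⬝ᵥ m) + 2 / (m ⬝ᵥ m) := by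
    field_simp
    ring
  rw [hc, add_smul]
  abel

theorem hyp_orth_dot (q : Matrix (Fin n) (Fin n) Φ) (hq : q * qᵀ = 1) (x y : Fin n → Φ) :
    (q *ᵥ x) ⬝ᵥ (q *ᵥ y) = x ⬝ᵥ y := by
  have hq' : qᵀ * q = 1 := mul_eq_one_comm.mp hq
  have h1 : (q *ᵥ x) ⬝ᵥ (q *ᵥ y) = x ⬝ᵥ (qᵀ *ᵥ (q *ᵥ y)) := by
    rw [mulVec_transpose, dotProduct_comm (q *ᵥ x), dotProduct_mulVec, dotProduct_comm]
  rw [h1, mulVec_mulVec, hq', one_mulVec]

theorem hyp_step (h2 : (2 : Φ) ≠ 0) (b b' : Fin n → Φ) (c : Φ) (hc : c ≠ 0) (hb : b ⬝ᵥ b = c)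
    (hb' : b' ⬝ᵥ b' = c) :
    ∃ s : Matrix (Fin n) (Fin n) Φ, s * sᵀ = 1 ∧ s *ᵥ b = b' ∧
      ∀ v, b ⬝ᵥ v = 0 → b' ⬝ᵥ v = 0 → s *ᵥ v = v := by
  by_cases hm : (b - b') ⬝ᵥ (b - b') = 0
  · have hbb : b ⬝ᵥ b' = c := by
      rw [sub_dotProduct, dotProduct_sub, dotProduct_sub, hb, hb', dotProduct_comm b' b] at hm
      have : (2 : Φ) * (c - b ⬝ᵥ b') = 0 := by linear_combination hm
      rcases mul_eq_zero.mp this with h | h
      · exact absurd h h2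
      · exact (sub_eq_zero.mp h).symm
    have hp : (b + b') ⬝ᵥ (b + b') = 4 * c := by
      rw [add_dotProduct, dotProduct_add, dotProduct_add, hb, hb', dotProduct_comm b' b, hbb]
      ring
    have h4 : (4 : Φ) ≠ 0 := by
      have : (4 : Φ) = 2 * 2 := by norm_num
      rw [this]
      exact mul_ne_zero h2 h2
    have hp0 : (b + b') ⬝ᵥ (b + b') ≠ 0 := by
      rw [hp]
      exact mul_ne_zero h4 hc
    obtain ⟨s1, hs1, ha1⟩ := hyp_refl (b + b') hp0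
    obtain ⟨s2, hs2, ha2⟩ := hyp_refl b' (by rw [hb']; exact hc)
    refine ⟨s2 * s1, ?_, ?_, ?_⟩
    · rw [transpose_mul, Matrix.mul_assoc, ← Matrix.mul_assoc s1, hs1, Matrix.one_mul, hs2]
    · rw [← mulVec_mulVec, ha1, hp, add_dotProduct, hb, dotProduct_comm b' b, hbb]
      have e1 : 2 * (c + c) / (4 * c) = 1 := by
        field_simp
        ring
      rw [e1, one_smul]
      have e2 : b - (b + b') = -b' := by abel
      rw [e2, ha2, dotProduct_neg, hb']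
      have e3 : 2 * -c / c = -2 := by
        field_simp
      rw [e3]
      ext i
      simp only [Pi.sub_apply, Pi.neg_apply, Pi.smul_apply, smul_eq_mul]
      ring
    · intro v hv hv'
      rw [← mulVec_mulVec, ha1, add_dotProduct, hv, hv']
      simp only [add_zero, mul_zero, zero_div, zero_smul, sub_zero]
      rw [ha2, hv']
      simp only [mul_zero, zero_div, zero_smul, sub_zero]
  · obtain ⟨s1, hs1, ha1⟩ := hyp_refl (b - b') hm
    refine ⟨s1, hs1, ?_, ?_⟩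
    · rw [ha1]
      have e1 : 2 * ((b - b') ⬝ᵥ b) = (b - b') ⬝ᵥ (b - b') := by
        rw [sub_dotProduct, sub_dotProduct, dotProduct_sub, dotProduct_sub, hb, hb',
          dotProduct_comm b' b]
        ring
      rw [e1, div_self hm, one_smul]
      abel
    · intro v hv hv'
      rw [ha1, sub_dotProduct, hv, hv']
      simp

theorem hyp_witt {ι : Type*} [DecidableEq ι] (h2 : (2 : Φ) ≠ 0) (a a' : ι → (Fin n → Φ))
    (ho : ∀ i j, i ≠ j → a i ⬝ᵥ a j = 0) (ho' : ∀ i j, i ≠ j → a' i ⬝ᵥ a' j = 0)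
    (hn : ∀ i, a i ⬝ᵥ a i ≠ 0) (hnn : ∀ i, a' i ⬝ᵥ a' i = a i ⬝ᵥ a i) (s : Finset ι) :
    ∃ q : Matrix (Fin n) (Fin n) Φ, q * qᵀ = 1 ∧ ∀ i ∈ s, q *ᵥ a i = a' i := by
  induction s using Finset.induction_on with
  | empty => exact ⟨1, by simp, by simp⟩
  | insert j s hj ih =>
    obtain ⟨q, hq, hqa⟩ := ih
    obtain ⟨r, hr, hr1, hr2⟩ := hyp_step h2 (q *ᵥ a j) (a' j) (a j ⬝ᵥ a j) (hn j)
      (hyp_orth_dot q hq _ _) (hnn j)
    refine ⟨r * q, ?_, ?_⟩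
    · rw [transpose_mul, Matrix.mul_assoc, ← Matrix.mul_assoc q, hq, Matrix.one_mul, hr]
    · intro i hi
      rw [← mulVec_mulVec]
      rcases Finset.mem_insert.mp hi with rfl | hi
      · exact hr1
      · have hij : j ≠ i := fun h => hj (h ▸ hi)
        rw [hqa i hi]
        refine hr2 _ ?_ (ho' j i hij)
        rw [← hqa i hi, hyp_orth_dot q hq]
        exact ho j i hij

/-- Two hyperbolic systems are related by an orthogonal matrix. -/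
theorem hyp_trans (h2 : (2 : Φ) ≠ 0) {u w u' w' : Fin 4 → (Fin n → Φ)}
    (h : Hyp u w) (h' : Hyp u' w') :
    ∃ q : Matrix (Fin n) (Fin n) Φ, q * qᵀ = 1 ∧ (∀ i, q *ᵥ u i = u' i) ∧ ∀ i, q *ᵥ w i = w' i := by
  have key : ∀ {u w : Fin 4 → (Fin n → Φ)}, Hyp u w → ∀ p r : Fin 4 × Bool,
      (u p.1 + (if p.2 then (1 : Φ) else -1) • w p.1) ⬝ᵥ
        (u r.1 + (if r.2 then (1 : Φ) else -1) • w r.1) =
      if p = r then (if p.2 then (2 : Φ) else -2) else 0 := by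
    intro u w h p r
    obtain ⟨p1, p2⟩ := p
    obtain ⟨r1, r2⟩ := r
    have hwu : w p1 ⬝ᵥ u r1 = if p1 = r1 then 1 else 0 := by
      rw [dotProduct_comm, h.2.2]
      simp only [eq_comm]
    rw [add_dotProduct, dotProduct_add, dotProduct_add, smul_dotProduct, smul_dotProduct,
      dotProduct_smul, dotProduct_smul, h.1, h.2.1, h.2.2, hwu]
    by_cases h1 : p1 = r1
    · subst h1
      cases p2 <;> cases r2 <;> simp <;> norm_num
    · cases p2 <;> cases r2 <;> simp [h1]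
  obtain ⟨q, hq, hqa⟩ := hyp_witt h2
    (fun p : Fin 4 × Bool => u p.1 + (if p.2 then (1 : Φ) else -1) • w p.1)
    (fun p : Fin 4 × Bool => u' p.1 + (if p.2 then (1 : Φ) else -1) • w' p.1)
    (fun i j hij => by rw [key h]; simp [hij])
    (fun i j hij => by rw [key h']; simp [hij])
    (fun i => by
      rw [key h]
      rcases i with ⟨i, b⟩
      cases b <;> simp [h2])
    (fun i => by rw [key h, key h']) Finset.univ
  have hp : ∀ i, q *ᵥ u i + q *ᵥ w i = u' i + w' i := by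
    intro i
    have := hqa (i, true) (Finset.mem_univ _)
    simpa [mulVec_add] using this
  have hm : ∀ i, q *ᵥ u i - q *ᵥ w i = u' i - w' i := by
    intro i
    have := hqa (i, false) (Finset.mem_univ _)
    simpa [mulVec_add, mulVec_neg, sub_eq_add_neg] using this
  refine ⟨q, hq, fun i => ?_, fun i => ?_⟩
  · ext k
    have e1 := congrFun (hp i) k
    have e2 := congrFun (hm i) k
    simp only [Pi.add_apply, Pi.sub_apply] at e1 e2
    have : (2 : Φ) * ((q *ᵥ u i) k) = 2 * u' i k := by linear_combination e1 + e2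
    exact mul_left_cancel₀ h2 this
  · ext k
    have e1 := congrFun (hp i) k
    have e2 := congrFun (hm i) k
    simp only [Pi.add_apply, Pi.sub_apply] at e1 e2
    have : (2 : Φ) * ((q *ᵥ w i) k) = 2 * w' i k := by linear_combination e1 - e2
    exact mul_left_cancel₀ h2 this

/-! ### part K2 -/

theorem hyp_exists (h2 : (2 : Φ) ≠ 0) {U : Submodule Φ (Fin n → Φ)} (hU : TotIso U)
    (h4 : 4 ≤ Module.finrank Φ U) : ∃ u w : Fin 4 → (Fin n → Φ), Hyp u w := by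
  obtain ⟨f, hf⟩ := exists_linearIndependent_of_le_finrank h4
  set u : Fin 4 → (Fin n → Φ) := fun i => (f i : Fin n → Φ) with hu
  have hui : LinearIndependent Φ u := hf.map' U.subtype (Submodule.ker_subtype U)
  have huu : ∀ i j, u i ⬝ᵥ u j = 0 := fun i j => hU _ (f i).2 _ (f j).2
  set M : Matrix (Fin 4) (Fin n) Φ := Matrix.of u with hM
  have hrank : M.rank = 4 := by
    have h1 : LinearIndependent Φ M.row := hui
    simpa using h1.rank_matrix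
  have hsurj : Function.Surjective M.mulVecLin := by
    rw [← LinearMap.range_eq_top]
    apply Submodule.eq_top_of_finrank_eq
    have h1 : Module.finrank Φ (LinearMap.range M.mulVecLin) = 4 := hrank
    rw [h1]
    simp
  have hw' : ∀ j, ∃ v : Fin n → Φ, ∀ i, u i ⬝ᵥ v = if i = j then 1 else 0 := by
    intro j
    obtain ⟨v, hv⟩ := hsurj (fun i => if i = j then 1 else 0)
    refine ⟨v, fun i => ?_⟩
    exact congrFun hv i
  choose w' hw' using hw'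
  have hw'2 : ∀ j i, w' j ⬝ᵥ u i = if i = j then 1 else 0 := by
    intro j i
    rw [dotProduct_comm]; exact hw' j i
  refine ⟨u, fun i => w' i - (1/2 : Φ) • ∑ j, (w' i ⬝ᵥ w' j) • u j, huu, ?_, ?_⟩
  · intro i j
    have e1 : w' i ⬝ᵥ (∑ k, (w' j ⬝ᵥ w' k) • u k) = w' j ⬝ᵥ w' i := by
      rw [dotProduct_sum]
      simp only [dotProduct_smul, hw'2, smul_eq_mul, mul_ite, mul_one, mul_zero]
      simp
    have e2 : (∑ k, (w' i ⬝ᵥ w' k) • u k) ⬝ᵥ w' j = w' i ⬝ᵥ w' j := by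
      rw [sum_dotProduct]
      simp only [smul_dotProduct, hw', smul_eq_mul, mul_ite, mul_one, mul_zero]
      simp
    have e3 : (∑ k, (w' i ⬝ᵥ w' k) • u k) ⬝ᵥ (∑ k, (w' j ⬝ᵥ w' k) • u k) = 0 := by
      rw [sum_dotProduct]
      refine Finset.sum_eq_zero fun k _ => ?_
      rw [smul_dotProduct, dotProduct_sum]
      have : ∑ l, u k ⬝ᵥ (w' j ⬝ᵥ w' l) • u l = 0 :=
        Finset.sum_eq_zero fun l _ => by rw [dotProduct_smul, huu, smul_zero]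
      rw [this, smul_zero]
    simp only [sub_dotProduct, dotProduct_sub, smul_dotProduct, dotProduct_smul, e1, e2, e3,
      smul_eq_mul]
    rw [dotProduct_comm (w' j) (w' i)]
    field_simp
    ring
  · intro i j
    have e1 : u i ⬝ᵥ (∑ k, (w' j ⬝ᵥ w' k) • u k) = 0 := by
      rw [dotProduct_sum]
      exact Finset.sum_eq_zero fun k _ => by rw [dotProduct_smul, huu, smul_zero]
    rw [dotProduct_sub, dotProduct_smul, e1, smul_zero, sub_zero]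
    exact hw' j i

/-- if all totally isotropic subspaces have dimension at most 4, the complement of a hyperbolic
system is anisotropic. -/
theorem hyp_aniso (h2 : (2 : Φ) ≠ 0) (h4 : ∀ T : Submodule Φ (Fin n → Φ), TotIso T → Module.finrank Φ T ≤ 4)
    {u w : Fin 4 → (Fin n → Φ)} (h : Hyp u w) (a : Fin n → Φ) (hu : ∀ i, a ⬝ᵥ u i = 0)
    (hw : ∀ i, a ⬝ᵥ w i = 0) (ha : a ⬝ᵥ a = 0) : a = 0 := by
  by_contra hne
  obtain ⟨h1, -, h3⟩ := h
  have hdot : ∀ (c : Fin 4 → Φ) (j : Fin 4), (∑ i, c i • u i) ⬝ᵥ w j = c j := by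
    intro c j
    rw [sum_dotProduct]
    simp only [smul_dotProduct, h3, smul_eq_mul, mul_ite, mul_one, mul_zero]
    simp
  have hui : LinearIndependent Φ u := by
    rw [Fintype.linearIndependent_iff]
    intro c hc j
    rw [← hdot c j, hc, zero_dotProduct]
  have hna : a ∉ Submodule.span Φ (Set.range u) := by
    intro hmem
    obtain ⟨c, hc⟩ := (Submodule.mem_span_range_iff_exists_fun Φ).1 hmem
    apply hne
    have hc0 : ∀ j, c j = 0 := by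
      intro j
      rw [← hdot c j, hc]; exact hw j
    rw [← hc]
    simp [hc0]
  have hli : LinearIndependent Φ (Fin.cons a u : Fin 5 → (Fin n → Φ)) :=
    linearIndependent_finCons.2 ⟨hui, hna⟩
  have hpair : ∀ x ∈ Set.range (Fin.cons a u : Fin 5 → (Fin n → Φ)),
      ∀ y ∈ Set.range (Fin.cons a u : Fin 5 → (Fin n → Φ)), x ⬝ᵥ y = 0 := by
    rintro _ ⟨i, rfl⟩ _ ⟨j, rfl⟩
    refine Fin.cases ?_ (fun i => ?_) i <;> refine Fin.cases ?_ (fun j => ?_) j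
    · simpa using ha
    · simpa using hu j
    · simp only [Fin.cons_zero, Fin.cons_succ]
      rw [dotProduct_comm]; exact hu i
    · simpa using h1 i j
  have hT : TotIso (Submodule.span Φ (Set.range (Fin.cons a u : Fin 5 → (Fin n → Φ)))) := by
    intro x hx y hy
    induction hx using Submodule.span_induction with
    | mem x hx =>
      induction hy using Submodule.span_induction with
      | mem y hy => exact hpair x hx y hy
      | zero => exact dotProduct_zero _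
      | add y z _ _ ihy ihz => rw [dotProduct_add, ihy, ihz, add_zero]
      | smul c y _ ih => rw [dotProduct_smul, ih, smul_zero]
    | zero => exact zero_dotProduct _
    | add x z _ _ ihx ihz => rw [add_dotProduct, ihx, ihz, add_zero]
    | smul c x _ ih => rw [smul_dotProduct, ih, smul_zero]
  have h5 := h4 _ hT
  rw [finrank_span_eq_card hli] at h5
  simp at h5

/-- decomposition of a vector along a hyperbolic system -/
theorem hyp_decomp {u w : Fin 4 → (Fin n → Φ)} (h : Hyp u w) (v : Fin n → Φ) :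
    ∃ a : Fin n → Φ, (∀ i, a ⬝ᵥ u i = 0) ∧ (∀ i, a ⬝ᵥ w i = 0) ∧
      v = (∑ i, (v ⬝ᵥ w i) • u i) + (∑ i, (v ⬝ᵥ u i) • w i) + a := by
  obtain ⟨h1, h2, h3⟩ := h
  have h3' : ∀ i j, w i ⬝ᵥ u j = if j = i then 1 else 0 := by
    intro i j
    rw [dotProduct_comm]; exact h3 j i
  refine ⟨v - (∑ i, (v ⬝ᵥ w i) • u i) - (∑ i, (v ⬝ᵥ u i) • w i), ?_, ?_, ?_⟩
  · intro j
    have e1 : (∑ i, (v ⬝ᵥ w i) • u i) ⬝ᵥ u j = 0 := by
      rw [sum_dotProduct]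
      exact Finset.sum_eq_zero fun k _ => by rw [smul_dotProduct, h1, smul_zero]
    have e2 : (∑ i, (v ⬝ᵥ u i) • w i) ⬝ᵥ u j = v ⬝ᵥ u j := by
      rw [sum_dotProduct]
      simp only [smul_dotProduct, h3', smul_eq_mul, mul_ite, mul_one, mul_zero]
      simp
    rw [sub_dotProduct, sub_dotProduct, e1, e2]; ring
  · intro j
    have e1 : (∑ i, (v ⬝ᵥ w i) • u i) ⬝ᵥ w j = v ⬝ᵥ w j := by
      rw [sum_dotProduct]
      simp only [smul_dotProduct, h3, smul_eq_mul, mul_ite, mul_one, mul_zero]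
      simp
    have e2 : (∑ i, (v ⬝ᵥ u i) • w i) ⬝ᵥ w j = 0 := by
      rw [sum_dotProduct]
      exact Finset.sum_eq_zero fun k _ => by rw [smul_dotProduct, h2, smul_zero]
    rw [sub_dotProduct, sub_dotProduct, e1, e2]; ring
  · abel

/-! ### part K3a -/

theorem pair_gens (h2 : (2 : Φ) ≠ 0) {ε : Φ} (hε : ε * ε = 1)
    {x y : Matrix (Fin n) (Fin n) Φ} (hx : x * x = 0) (hy : y * y = 0) (hyx : y * x = -(x * y))
    (hxt : xᵀ = ε • x) (hyt : yᵀ = ε • y) (hxy : x * y ≠ 0) :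
    ∃ e f : Fin n → Φ, e ⬝ᵥ e = 0 ∧ e ⬝ᵥ f = 0 ∧ f ⬝ᵥ f = 0 ∧
      e ⬝ᵥ (x *ᵥ e) = 0 ∧ e ⬝ᵥ (x *ᵥ f) = 0 ∧ f ⬝ᵥ (x *ᵥ e) = 0 ∧ f ⬝ᵥ (x *ᵥ f) = 0 ∧
      e ⬝ᵥ (y *ᵥ e) = 0 ∧ e ⬝ᵥ (y *ᵥ f) = 0 ∧ f ⬝ᵥ (y *ᵥ e) = 0 ∧ f ⬝ᵥ (y *ᵥ f) = 0 ∧
      e ⬝ᵥ ((x * y) *ᵥ f) = -ε := by
  set z := x * y with hz
  obtain ⟨c, hc⟩ : ∃ c : Φ, 2 * c = 1 := ⟨(2:Φ)⁻¹, mul_inv_cancel₀ h2⟩
  have hε0 : ε ≠ 0 := by rintro rfl; simp at hε
  have hX : ∀ u v, (x *ᵥ u) ⬝ᵥ v = ε * (u ⬝ᵥ (x *ᵥ v)) := by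
    intro u v
    have h1 : (x *ᵥ u) ⬝ᵥ v = u ⬝ᵥ (xᵀ *ᵥ v) := by
      rw [mulVec_transpose, dotProduct_comm (x *ᵥ u), dotProduct_mulVec, dotProduct_comm]
    rw [h1, hxt, smul_mulVec, dotProduct_smul, smul_eq_mul]
  have hY : ∀ u v, (y *ᵥ u) ⬝ᵥ v = ε * (u ⬝ᵥ (y *ᵥ v)) := by
    intro u v
    have h1 : (y *ᵥ u) ⬝ᵥ v = u ⬝ᵥ (yᵀ *ᵥ v) := by
      rw [mulVec_transpose, dotProduct_comm (y *ᵥ u), dotProduct_mulVec, dotProduct_comm]
    rw [h1, hyt, smul_mulVec, dotProduct_smul, smul_eq_mul]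
  have hxx : ∀ v, x *ᵥ (x *ᵥ v) = 0 := by intro v; rw [mulVec_mulVec, hx, zero_mulVec]
  have hyy : ∀ v, y *ᵥ (y *ᵥ v) = 0 := by intro v; rw [mulVec_mulVec, hy, zero_mulVec]
  have hxy' : ∀ v, x *ᵥ (y *ᵥ v) = z *ᵥ v := by intro v; rw [mulVec_mulVec]
  have hyx' : ∀ v, y *ᵥ (x *ᵥ v) = -(z *ᵥ v) := by intro v; rw [mulVec_mulVec, hyx, neg_mulVec]
  have hxz : ∀ v, x *ᵥ (z *ᵥ v) = 0 := by
    intro v; rw [mulVec_mulVec, hz, ← mul_assoc, hx, zero_mul, zero_mulVec]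
  have hyz : ∀ v, y *ᵥ (z *ᵥ v) = 0 := by
    intro v; rw [mulVec_mulVec, hz, ← mul_assoc, hyx, neg_mul, mul_assoc, hy, mul_zero, neg_zero, zero_mulVec]
  have hzx : ∀ v, z *ᵥ (x *ᵥ v) = 0 := by
    intro v; rw [mulVec_mulVec, hz, mul_assoc, hyx, mul_neg, ← mul_assoc, hx, zero_mul, neg_zero, zero_mulVec]
  have hzy : ∀ v, z *ᵥ (y *ᵥ v) = 0 := by
    intro v; rw [mulVec_mulVec, hz, mul_assoc, hy, mul_zero, zero_mulVec]
  have hzz : ∀ v, z *ᵥ (z *ᵥ v) = 0 := by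
    intro v; rw [← hxy' v, hzx]
  have hZ : ∀ u v, (z *ᵥ u) ⬝ᵥ v = -(u ⬝ᵥ (z *ᵥ v)) := by
    intro u v
    rw [← hxy' u, hX, hY, hyx', dotProduct_neg]
    linear_combination (-(u ⬝ᵥ (z *ᵥ v))) * hε
  have hcomm : ∀ u v : Fin n → Φ, u ⬝ᵥ v = v ⬝ᵥ u := fun u v => dotProduct_comm u v
  -- step 1
  obtain ⟨e, f, hef⟩ : ∃ e f : Fin n → Φ, e ⬝ᵥ (z *ᵥ f) = -ε := by
    have h1 : ∃ a b, z a b ≠ 0 := by
      by_contra hcon
      push Not at hcon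
      exact hxy (by ext a b; exact hcon a b)
    obtain ⟨a, b, hab⟩ := h1
    refine ⟨Pi.single a 1, (-ε / z a b) • Pi.single b 1, ?_⟩
    rw [mulVec_smul, dotProduct_smul, mulVec_single_one, single_one_dotProduct]
    simp only [col_apply, smul_eq_mul]
    field_simp
  have hself : ∀ v, v ⬝ᵥ (z *ᵥ v) = 0 := by
    intro v
    have h1 := hZ v v
    rw [hcomm (z *ᵥ v) v] at h1
    have h3 : 2 * (v ⬝ᵥ (z *ᵥ v)) = 0 := by linear_combination h1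
    rcases mul_eq_zero.mp h3 with h | h
    · exact absurd h h2
    · exact h
  have hfe : f ⬝ᵥ (z *ᵥ e) = ε := by
    have h1 := hZ f e
    rw [hcomm (z *ᵥ f) e, hef] at h1
    linear_combination h1
  have hee := hself e
  have hff := hself f
  set p := e ⬝ᵥ (x *ᵥ e) with hpd
  set q := e ⬝ᵥ (x *ᵥ f) with hqd
  set r := f ⬝ᵥ (x *ᵥ f) with hrd
  set p' := e ⬝ᵥ (y *ᵥ e) with hpd'
  set q' := e ⬝ᵥ (y *ᵥ f) with hqd'
  set r' := f ⬝ᵥ (y *ᵥ f) with hrd'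
  have hp : p = ε * p := by rw [hpd, ← hX, hcomm]
  have hr : r = ε * r := by rw [hrd, ← hX, hcomm]
  have hp' : p' = ε * p' := by rw [hpd', ← hY, hcomm]
  have hr' : r' = ε * r' := by rw [hrd', ← hY, hcomm]
  have hq : f ⬝ᵥ (x *ᵥ e) = ε * q := by rw [hqd, ← hX, hcomm]
  have hq' : f ⬝ᵥ (y *ᵥ e) = ε * q' := by rw [hqd', ← hY, hcomm]
  obtain ⟨e1, he1⟩ : ∃ v, v = e + (c*q') • (x *ᵥ e) - (c*p') • (x *ᵥ f) - (c*q) • (y *ᵥ e) + (c*p) • (y *ᵥ f) := ⟨_, rfl⟩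
  obtain ⟨f1, hf1⟩ : ∃ v, v = f + (c*r') • (x *ᵥ e) - (c*ε*q') • (x *ᵥ f) - (c*r) • (y *ᵥ e) + (c*ε*q) • (y *ᵥ f) := ⟨_, rfl⟩
  have hxe1 : x *ᵥ e1 = x *ᵥ e - (c*q) • (z *ᵥ e) + (c*p) • (z *ᵥ f) := by
    rw [he1]; simp only [mulVec_add, mulVec_sub, mulVec_smul, hxx, hxy', smul_zero, add_zero, sub_zero]
  have hxf1 : x *ᵥ f1 = x *ᵥ f - (c*r) • (z *ᵥ e) + (c*ε*q) • (z *ᵥ f) := by
    rw [hf1]; simp only [mulVec_add, mulVec_sub, mulVec_smul, hxx, hxy', smul_zero, add_zero, sub_zero]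
  have hye1 : y *ᵥ e1 = y *ᵥ e - (c*q') • (z *ᵥ e) + (c*p') • (z *ᵥ f) := by
    rw [he1]; simp only [mulVec_add, mulVec_sub, mulVec_smul, hyy, hyx', smul_zero, add_zero, sub_zero, smul_neg, sub_neg_eq_add, ← sub_eq_add_neg]
  have hyf1 : y *ᵥ f1 = y *ᵥ f - (c*r') • (z *ᵥ e) + (c*ε*q') • (z *ᵥ f) := by
    rw [hf1]; simp only [mulVec_add, mulVec_sub, mulVec_smul, hyy, hyx', smul_zero, add_zero, sub_zero, smul_neg, sub_neg_eq_add, ← sub_eq_add_neg]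
  have hze1 : z *ᵥ e1 = z *ᵥ e := by
    rw [he1]; simp only [mulVec_add, mulVec_sub, mulVec_smul, hzx, hzy, smul_zero, add_zero, sub_zero]
  have hzf1 : z *ᵥ f1 = z *ᵥ f := by
    rw [hf1]; simp only [mulVec_add, mulVec_sub, mulVec_smul, hzx, hzy, smul_zero, add_zero, sub_zero]
  have a1 : e1 ⬝ᵥ (x *ᵥ e1) = 0 := by
    rw [hxe1, he1]
    simp only [add_dotProduct, sub_dotProduct, smul_dotProduct, dotProduct_add, dotProduct_sub, dotProduct_smul,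
      hX, hY, hxx, hyy, hxy', hyx', hxz, hyz, dotProduct_zero, dotProduct_neg, smul_eq_mul, mul_zero, hee, hff, hef, hfe, hq, hq', ← hpd, ← hqd, ← hrd, ← hpd', ← hqd', ← hrd']
    grind
  have a2 : e1 ⬝ᵥ (x *ᵥ f1) = 0 := by
    rw [hxf1, he1]
    simp only [add_dotProduct, sub_dotProduct, smul_dotProduct, dotProduct_add, dotProduct_sub, dotProduct_smul,
      hX, hY, hxx, hyy, hxy', hyx', hxz, hyz, dotProduct_zero, dotProduct_neg, smul_eq_mul, mul_zero, hee, hff, hef, hfe, hq, hq', ← hpd, ← hqd, ← hrd, ← hpd', ← hqd', ← hrd']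
    grind
  have a3 : f1 ⬝ᵥ (x *ᵥ e1) = 0 := by
    rw [hxe1, hf1]
    simp only [add_dotProduct, sub_dotProduct, smul_dotProduct, dotProduct_add, dotProduct_sub, dotProduct_smul,
      hX, hY, hxx, hyy, hxy', hyx', hxz, hyz, dotProduct_zero, dotProduct_neg, smul_eq_mul, mul_zero, hee, hff, hef, hfe, hq, hq', ← hpd, ← hqd, ← hrd, ← hpd', ← hqd', ← hrd']
    grind
  have a4 : f1 ⬝ᵥ (x *ᵥ f1) = 0 := by
    rw [hxf1, hf1]
    simp only [add_dotProduct, sub_dotProduct, smul_dotProduct, dotProduct_add, dotProduct_sub, dotProduct_smul,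
      hX, hY, hxx, hyy, hxy', hyx', hxz, hyz, dotProduct_zero, dotProduct_neg, smul_eq_mul, mul_zero, hee, hff, hef, hfe, hq, hq', ← hpd, ← hqd, ← hrd, ← hpd', ← hqd', ← hrd']
    grind
  have b1 : e1 ⬝ᵥ (y *ᵥ e1) = 0 := by
    rw [hye1, he1]
    simp only [add_dotProduct, sub_dotProduct, smul_dotProduct, dotProduct_add, dotProduct_sub, dotProduct_smul,
      hX, hY, hxx, hyy, hxy', hyx', hxz, hyz, dotProduct_zero, dotProduct_neg, smul_eq_mul, mul_zero, hee, hff, hef, hfe, hq, hq', ← hpd, ← hqd, ← hrd, ← hpd', ← hqd', ← hrd']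
    grind
  have b2 : e1 ⬝ᵥ (y *ᵥ f1) = 0 := by
    rw [hyf1, he1]
    simp only [add_dotProduct, sub_dotProduct, smul_dotProduct, dotProduct_add, dotProduct_sub, dotProduct_smul,
      hX, hY, hxx, hyy, hxy', hyx', hxz, hyz, dotProduct_zero, dotProduct_neg, smul_eq_mul, mul_zero, hee, hff, hef, hfe, hq, hq', ← hpd, ← hqd, ← hrd, ← hpd', ← hqd', ← hrd']
    grind
  have b3 : f1 ⬝ᵥ (y *ᵥ e1) = 0 := by
    rw [hye1, hf1]
    simp only [add_dotProduct, sub_dotProduct, smul_dotProduct, dotProduct_add, dotProduct_sub, dotProduct_smul,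
      hX, hY, hxx, hyy, hxy', hyx', hxz, hyz, dotProduct_zero, dotProduct_neg, smul_eq_mul, mul_zero, hee, hff, hef, hfe, hq, hq', ← hpd, ← hqd, ← hrd, ← hpd', ← hqd', ← hrd']
    grind
  have b4 : f1 ⬝ᵥ (y *ᵥ f1) = 0 := by
    rw [hyf1, hf1]
    simp only [add_dotProduct, sub_dotProduct, smul_dotProduct, dotProduct_add, dotProduct_sub, dotProduct_smul,
      hX, hY, hxx, hyy, hxy', hyx', hxz, hyz, dotProduct_zero, dotProduct_neg, smul_eq_mul, mul_zero, hee, hff, hef, hfe, hq, hq', ← hpd, ← hqd, ← hrd, ← hpd', ← hqd', ← hrd']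
    grind
  have z1 : e1 ⬝ᵥ (z *ᵥ f1) = -ε := by
    rw [hzf1, he1]
    simp only [add_dotProduct, sub_dotProduct, smul_dotProduct, hX, hY, hxz, hyz, dotProduct_zero, smul_eq_mul, mul_zero, hef,
      add_zero, sub_zero]
  have z2 : f1 ⬝ᵥ (z *ᵥ e1) = ε := by
    rw [hze1, hf1]
    simp only [add_dotProduct, sub_dotProduct, smul_dotProduct, hX, hY, hxz, hyz, dotProduct_zero, smul_eq_mul, mul_zero, hfe,
      add_zero, sub_zero]
  have z3 := hself e1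
  have z4 := hself f1
  -- step 3
  obtain ⟨S, hS⟩ : ∃ s, s = e1 ⬝ᵥ e1 := ⟨_, rfl⟩
  obtain ⟨T, hT⟩ : ∃ s, s = e1 ⬝ᵥ f1 := ⟨_, rfl⟩
  obtain ⟨R, hR⟩ : ∃ s, s = f1 ⬝ᵥ f1 := ⟨_, rfl⟩
  have hT' : f1 ⬝ᵥ e1 = T := by rw [hT, hcomm]
  refine ⟨e1 - (c*ε*T) • (z *ᵥ e1) + (c*ε*S) • (z *ᵥ f1), f1 - (c*ε*R) • (z *ᵥ e1) + (c*ε*T) • (z *ᵥ f1),
    ?_, ?_, ?_, ?_, ?_, ?_, ?_, ?_, ?_, ?_, ?_, ?_⟩
  all_goals
    simp only [add_dotProduct, sub_dotProduct, smul_dotProduct, dotProduct_add, dotProduct_sub, dotProduct_smul,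
      mulVec_add, mulVec_sub, mulVec_smul, hZ, hzz, hxz, hyz, hzx, hzy, dotProduct_zero, dotProduct_neg, smul_eq_mul,
      mul_zero, smul_zero, add_zero, sub_zero, a1, a2, a3, a4, b1, b2, b3, b4, z1, z2, z3, z4, hT', ← hS, ← hT, ← hR, neg_zero]
  all_goals grind

/-! ### part K3b -/

theorem vmv_aux (a b v : Fin n → Φ) : vecMulVec a b *ᵥ v = (b ⬝ᵥ v) • a := by
  ext i
  simp only [mulVec, vecMulVec, dotProduct, of_apply, Pi.smul_apply, smul_eq_mul, Finset.sum_mul]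
  exact Finset.sum_congr rfl fun j _ => by ring

theorem br_mulVec (ε : Φ) (a b v : Fin n → Φ) :
    br ε a b *ᵥ v = (b ⬝ᵥ v) • a + (ε * (a ⬝ᵥ v)) • b := by
  unfold br
  rw [add_mulVec, smul_mulVec, vmv_aux, vmv_aux, smul_smul]

theorem ext_mulVec_aux {A B : Matrix (Fin n) (Fin n) Φ} (h : ∀ v, A *ᵥ v = B *ᵥ v) : A = B := by
  apply (Matrix.toLin' (R := Φ) (m := Fin n) (n := Fin n)).injective
  apply LinearMap.ext
  intro v
  simpa using h v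

theorem x_eq_aux (h2 : (2 : Φ) ≠ 0) {ε : Φ} (hε : ε * ε = 1)
    (h4 : ∀ T : Submodule Φ (Fin n → Φ), TotIso T → Module.finrank Φ T ≤ 4)
    {x : Matrix (Fin n) (Fin n) Φ} (xx : ∀ v, x *ᵥ (x *ᵥ v) = 0)
    (mx : ∀ a b : Fin n → Φ, (x *ᵥ a) ⬝ᵥ b = ε * (a ⬝ᵥ (x *ᵥ b)))
    {u w : Fin 4 → (Fin n → Φ)} (h : Hyp u w) (x0 : x *ᵥ u 0 = 0) (x1 : x *ᵥ u 1 = 0)
    (x2 : x *ᵥ u 2 = 0) (x3 : x *ᵥ u 3 = 0) (y0 : x *ᵥ w 0 = ε • u 2) (y1 : x *ᵥ w 1 = ε • u 3)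
    (y2 : x *ᵥ w 2 = u 0) (y3 : x *ᵥ w 3 = u 1) : x = bX ε u w := by
  apply ext_mulVec_aux
  intro v
  obtain ⟨a, hau, haw, hv⟩ := hyp_decomp h v
  have ha : x *ᵥ a = 0 := by
    apply hyp_aniso h2 h4 h
    · intro i
      rw [mx]
      fin_cases i
      · simp [x0]
      · simp [x1]
      · simp [x2]
      · simp [x3]
    · intro i
      rw [mx]
      fin_cases i
      · simp [y0, hau]
      · simp [y1, hau]
      · simp [y2, hau]
      · simp [y3, hau]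
    · rw [mx, xx]; simp
  have hxv : x *ᵥ v = (v ⬝ᵥ u 0) • (ε • u 2) + (v ⬝ᵥ u 1) • (ε • u 3) + (v ⬝ᵥ u 2) • u 0 +
      (v ⬝ᵥ u 3) • u 1 := by
    conv_lhs => rw [hv]
    simp only [Fin.sum_univ_four, mulVec_add, mulVec_smul, x0, x1, x2, x3, y0, y1, y2, y3, ha,
      smul_zero, add_zero, zero_add]
  rw [hxv]
  unfold bX
  rw [add_mulVec, br_mulVec, br_mulVec, dotProduct_comm (u 0), dotProduct_comm (u 1),
    dotProduct_comm (u 2), dotProduct_comm (u 3)]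
  module

theorem y_eq_aux (h2 : (2 : Φ) ≠ 0) {ε : Φ} (hε : ε * ε = 1)
    (h4 : ∀ T : Submodule Φ (Fin n → Φ), TotIso T → Module.finrank Φ T ≤ 4)
    {x : Matrix (Fin n) (Fin n) Φ} (xx : ∀ v, x *ᵥ (x *ᵥ v) = 0)
    (mx : ∀ a b : Fin n → Φ, (x *ᵥ a) ⬝ᵥ b = ε * (a ⬝ᵥ (x *ᵥ b)))
    {u w : Fin 4 → (Fin n → Φ)} (h : Hyp u w) (x0 : x *ᵥ u 0 = 0) (x1 : x *ᵥ u 1 = 0)
    (x2 : x *ᵥ u 2 = -u 1) (x3 : x *ᵥ u 3 = u 0) (y0 : x *ᵥ w 0 = ε • w 3)
    (y1 : x *ᵥ w 1 = -(ε • w 2)) (y2 : x *ᵥ w 2 = 0) (y3 : x *ᵥ w 3 = 0) : x = bY ε u w := by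
  apply ext_mulVec_aux
  intro v
  obtain ⟨a, hau, haw, hv⟩ := hyp_decomp h v
  have ha : x *ᵥ a = 0 := by
    apply hyp_aniso h2 h4 h
    · intro i
      rw [mx]
      fin_cases i
      · simp [x0]
      · simp [x1]
      · simp [x2, hau]
      · simp [x3, hau]
    · intro i
      rw [mx]
      fin_cases i
      · simp [y0, haw]
      · simp [y1, haw]
      · simp [y2]
      · simp [y3]
    · rw [mx, xx]; simp
  have hxv : x *ᵥ v = (v ⬝ᵥ w 2) • (-u 1) + (v ⬝ᵥ w 3) • u 0 + (v ⬝ᵥ u 0) • (ε • w 3) +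
      (v ⬝ᵥ u 1) • (-(ε • w 2)) := by
    conv_lhs => rw [hv]
    simp only [Fin.sum_univ_four, mulVec_add, mulVec_smul, x0, x1, x2, x3, y0, y1, y2, y3, ha,
      smul_zero, add_zero, zero_add]
    abel
  rw [hxv]
  unfold bY
  rw [sub_mulVec, br_mulVec, br_mulVec, dotProduct_comm (u 0), dotProduct_comm (u 1),
    dotProduct_comm (w 2), dotProduct_comm (w 3)]
  module

theorem pair_of_gens (h2 : (2 : Φ) ≠ 0) {ε : Φ} (hε : ε * ε = 1)
    (h4 : ∀ T : Submodule Φ (Fin n → Φ), TotIso T → Module.finrank Φ T ≤ 4)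
    {x y : Matrix (Fin n) (Fin n) Φ} (hx : x * x = 0) (hy : y * y = 0) (hyx : y * x = -(x * y))
    (hxt : xᵀ = ε • x) (hyt : yᵀ = ε • y) {e f : Fin n → Φ}
    (hee : e ⬝ᵥ e = 0) (hef : e ⬝ᵥ f = 0) (hff : f ⬝ᵥ f = 0)
    (h1 : e ⬝ᵥ (x *ᵥ e) = 0) (h2' : e ⬝ᵥ (x *ᵥ f) = 0) (h3 : f ⬝ᵥ (x *ᵥ e) = 0) (h4' : f ⬝ᵥ (x *ᵥ f) = 0)
    (h5 : e ⬝ᵥ (y *ᵥ e) = 0) (h6 : e ⬝ᵥ (y *ᵥ f) = 0) (h7 : f ⬝ᵥ (y *ᵥ e) = 0) (h8 : f ⬝ᵥ (y *ᵥ f) = 0)
    (hz : e ⬝ᵥ ((x * y) *ᵥ f) = -ε) :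
    Hyp ![-ε • ((x * y) *ᵥ f), ε • ((x * y) *ᵥ e), ε • (x *ᵥ e), ε • (x *ᵥ f)]
        ![e, f, -ε • (y *ᵥ f), ε • (y *ᵥ e)] ∧
      x = bX ε ![-ε • ((x * y) *ᵥ f), ε • ((x * y) *ᵥ e), ε • (x *ᵥ e), ε • (x *ᵥ f)]
        ![e, f, -ε • (y *ᵥ f), ε • (y *ᵥ e)] ∧
      y = bY ε ![-ε • ((x * y) *ᵥ f), ε • ((x * y) *ᵥ e), ε • (x *ᵥ e), ε • (x *ᵥ f)]
        ![e, f, -ε • (y *ᵥ f), ε • (y *ᵥ e)] := by
  have mx : ∀ a b : Fin n → Φ, (x *ᵥ a) ⬝ᵥ b = ε * (a ⬝ᵥ (x *ᵥ b)) := by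
    intro a b
    have h := dot_mulVec_mulVec (y := 1) hxt a b
    simpa using h
  have my : ∀ a b : Fin n → Φ, (y *ᵥ a) ⬝ᵥ b = ε * (a ⬝ᵥ (y *ᵥ b)) := by
    intro a b
    have h := dot_mulVec_mulVec (y := 1) hyt a b
    simpa using h
  have xx : ∀ v, x *ᵥ (x *ᵥ v) = 0 := by intro v; rw [mulVec_mulVec, hx, zero_mulVec]
  have yy : ∀ v, y *ᵥ (y *ᵥ v) = 0 := by intro v; rw [mulVec_mulVec, hy, zero_mulVec]
  have yx : ∀ v, y *ᵥ (x *ᵥ v) = -(x *ᵥ (y *ᵥ v)) := by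
    intro v; rw [mulVec_mulVec, hyx, neg_mulVec, mulVec_mulVec]
  have xy : ∀ v, (x * y) *ᵥ v = x *ᵥ (y *ᵥ v) := fun v => (mulVec_mulVec _ _ _).symm
  have zz : ∀ v w, v ⬝ᵥ (x *ᵥ (y *ᵥ w)) = -(w ⬝ᵥ (x *ᵥ (y *ᵥ v))) := by
    intro v w
    rw [dotProduct_comm, mx, my, yx, dotProduct_neg, ← mul_assoc, hε, one_mul]
  have self0 : ∀ v, v ⬝ᵥ (x *ᵥ (y *ᵥ v)) = 0 := by
    intro v
    have h := zz v v
    have h' : (2 : Φ) * (v ⬝ᵥ (x *ᵥ (y *ᵥ v))) = 0 := by linear_combination h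
    exact (mul_eq_zero.1 h').resolve_left h2
  have ezf : e ⬝ᵥ (x *ᵥ (y *ᵥ f)) = -ε := by rw [← xy]; exact hz
  have fze : f ⬝ᵥ (x *ᵥ (y *ᵥ e)) = ε := by rw [zz, ezf, neg_neg]
  have hfe : f ⬝ᵥ e = 0 := by rw [dotProduct_comm]; exact hef
  have hyp : Hyp ![-ε • ((x * y) *ᵥ f), ε • ((x * y) *ᵥ e), ε • (x *ᵥ e), ε • (x *ᵥ f)]
        ![e, f, -ε • (y *ᵥ f), ε • (y *ᵥ e)] := by
    refine ⟨?_, ?_, ?_⟩
    · intro i j
      fin_cases i <;> fin_cases j <;>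
      simp [-mulVec_mulVec, xy, mx, my, xx, yy, yx, hee, hef, hff, hfe, h1, h2', h3, h4', h5, h6, h7, h8, self0,
        ezf, fze, mulVec_smul, mulVec_neg, hε]
    · intro i j
      fin_cases i <;> fin_cases j <;>
      simp [-mulVec_mulVec, xy, mx, my, xx, yy, yx, hee, hef, hff, hfe, h1, h2', h3, h4', h5, h6, h7, h8, self0,
        ezf, fze, mulVec_smul, mulVec_neg, hε]
    · intro i j
      fin_cases i <;> fin_cases j <;>
      simp [-mulVec_mulVec, xy, mx, my, xx, yy, yx, hee, hef, hff, hfe, h1, h2', h3, h4', h5, h6, h7, h8, self0,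
        ezf, fze, mulVec_smul, mulVec_neg, hε]
  refine ⟨hyp, ?_, ?_⟩
  · apply x_eq_aux h2 hε h4 xx mx hyp
    · simp [-mulVec_mulVec, xy, xx, mulVec_smul, mulVec_neg]
    · simp [-mulVec_mulVec, xy, xx, mulVec_smul, mulVec_neg]
    · simp [-mulVec_mulVec, xy, xx, mulVec_smul, mulVec_neg]
    · simp [-mulVec_mulVec, xy, xx, mulVec_smul, mulVec_neg]
    · simp [smul_smul, hε]
    · simp [smul_smul, hε]
    · simp [-mulVec_mulVec, xy, mulVec_smul, mulVec_neg]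
    · simp [-mulVec_mulVec, xy, mulVec_smul, mulVec_neg]
  · apply y_eq_aux h2 hε h4 yy my hyp
    · simp [-mulVec_mulVec, xy, yx, yy, mulVec_smul, mulVec_neg]
    · simp [-mulVec_mulVec, xy, yx, yy, mulVec_smul, mulVec_neg]
    · simp [-mulVec_mulVec, xy, yx, yy, mulVec_smul, mulVec_neg]
    · simp [-mulVec_mulVec, xy, yx, yy, mulVec_smul, mulVec_neg]
    · simp [smul_smul, hε]
    · simp [smul_smul, hε]
    · simp [-mulVec_mulVec, yy, mulVec_smul, mulVec_neg]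
    · simp [-mulVec_mulVec, yy, mulVec_smul, mulVec_neg]

/-! ### part K5 -/

theorem vmv_mulVec (a b x : Fin n → Φ) : vecMulVec a b *ᵥ x = (b ⬝ᵥ x) • a := by
  ext k
  simp only [mulVec, vecMulVec_apply, dotProduct, Pi.smul_apply, smul_eq_mul, Finset.sum_mul]
  exact Finset.sum_congr rfl fun l _ => by ring

theorem br_mulVec5 (ε : Φ) (a b x : Fin n → Φ) :
    br ε a b *ᵥ x = (b ⬝ᵥ x) • a + (ε * (a ⬝ᵥ x)) • b := by
  rw [br, add_mulVec, smul_mulVec, vmv_mulVec, vmv_mulVec, smul_smul]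

theorem bX_mulVec (ε : Φ) (u w : Fin 4 → (Fin n → Φ)) (x : Fin n → Φ) :
    bX ε u w *ᵥ x = (u 2 ⬝ᵥ x) • u 0 + (ε * (u 0 ⬝ᵥ x)) • u 2 +
      ((u 3 ⬝ᵥ x) • u 1 + (ε * (u 1 ⬝ᵥ x)) • u 3) := by
  rw [bX, add_mulVec, br_mulVec5, br_mulVec5]

theorem bY_mulVec (ε : Φ) (u w : Fin 4 → (Fin n → Φ)) (x : Fin n → Φ) :
    bY ε u w *ᵥ x = (w 3 ⬝ᵥ x) • u 0 + (ε * (u 0 ⬝ᵥ x)) • w 3 -
      ((w 2 ⬝ᵥ x) • u 1 + (ε * (u 1 ⬝ᵥ x)) • w 2) := by
  rw [bY, sub_mulVec, br_mulVec5, br_mulVec5]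

theorem sym_dot {ε : Φ} {v : Matrix (Fin n) (Fin n) Φ} (hvt : vᵀ = ε • v) (a c : Fin n → Φ) :
    (v *ᵥ a) ⬝ᵥ c = ε * (a ⬝ᵥ (v *ᵥ c)) := by
  have h1 : (v *ᵥ a) ⬝ᵥ c = a ⬝ᵥ (vᵀ *ᵥ c) := by
    rw [mulVec_transpose, dotProduct_comm (v *ᵥ a), dotProduct_mulVec, dotProduct_comm]
  rw [h1, hvt, smul_mulVec, dotProduct_smul, smul_eq_mul]

theorem coords (h2 : (2 : Φ) ≠ 0) {ε : Φ} (hε : ε * ε = 1) {u w : Fin 4 → (Fin n → Φ)} (h : Hyp u w)
    (hA : ∀ a : Fin n → Φ, (∀ i, a ⬝ᵥ u i = 0) → (∀ i, a ⬝ᵥ w i = 0) → a ⬝ᵥ a = 0 → a = 0)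
    {v : Matrix (Fin n) (Fin n) Φ} (hvt : vᵀ = ε • v) (hvv : v * v = 0)
    (hvX : v * bX ε u w = -(bX ε u w * v)) (hvY : v * bY ε u w = -(bY ε u w * v)) :
    ∃ (s t r0 r1 r2 p0 p1 p2 : Φ) (α β : Fin n → Φ),
      (∀ i, α ⬝ᵥ u i = 0) ∧ (∀ i, α ⬝ᵥ w i = 0) ∧ (∀ i, β ⬝ᵥ u i = 0) ∧ (∀ i, β ⬝ᵥ w i = 0) ∧
      p0 = ε * p0 ∧ p2 = ε * p2 ∧ r1 = -ε * r1 ∧ r2 = -ε * r2 ∧ r0 * r0 + r1 * r2 = 0 ∧
      (v - s • bX ε u w - t • bY ε u w) *ᵥ w 0 = p0 • u 0 + p1 • u 1 + r0 • w 0 + r1 • w 1 + α ∧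
      (v - s • bX ε u w - t • bY ε u w) *ᵥ w 1 =
        (ε * p1) • u 0 + p2 • u 1 + r2 • w 0 + (ε * r0) • w 1 + β ∧
      (v - s • bX ε u w - t • bY ε u w) *ᵥ u 0 = (ε * r0) • u 0 - r2 • u 1 ∧
      (v - s • bX ε u w - t • bY ε u w) *ᵥ u 1 = r0 • u 1 - r1 • u 0 ∧
      (v - s • bX ε u w - t • bY ε u w) *ᵥ u 2 = -(r0 • u 2 + r1 • u 3) ∧
      (v - s • bX ε u w - t • bY ε u w) *ᵥ u 3 = -(r2 • u 2 + (ε * r0) • u 3) ∧
      (v - s • bX ε u w - t • bY ε u w) *ᵥ w 2 = r2 • w 3 - (ε * r0) • w 2 ∧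
      (v - s • bX ε u w - t • bY ε u w) *ᵥ w 3 = -(r0 • w 3) + r1 • w 2 ∧
      (∀ a : Fin n → Φ, (∀ i, a ⬝ᵥ u i = 0) → (∀ i, a ⬝ᵥ w i = 0) →
        (v - s • bX ε u w - t • bY ε u w) *ᵥ a = (ε * (a ⬝ᵥ α)) • u 0 + (ε * (a ⬝ᵥ β)) • u 1) := by
  have hε' : ε = 1 ∨ ε = -1 := mul_self_eq_one_iff.1 hε
  obtain ⟨huu, hww, huw⟩ := h
  have hwu : ∀ i j, w i ⬝ᵥ u j = if i = j then 1 else 0 := by
    intro i j
    rw [dotProduct_comm, huw]
    by_cases hij : i = j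
    · rw [if_pos hij, if_pos hij.symm]
    · rw [if_neg hij, if_neg fun h => hij h.symm]
  have n01 : ¬ ((0 : Fin 4) = 1) := by decide
  have n02 : ¬ ((0 : Fin 4) = 2) := by decide
  have n03 : ¬ ((0 : Fin 4) = 3) := by decide
  have n12 : ¬ ((1 : Fin 4) = 2) := by decide
  have n13 : ¬ ((1 : Fin 4) = 3) := by decide
  have n23 : ¬ ((2 : Fin 4) = 3) := by decide
  have n10 : ¬ ((1 : Fin 4) = 0) := by decide
  have n20 : ¬ ((2 : Fin 4) = 0) := by decide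
  have n30 : ¬ ((3 : Fin 4) = 0) := by decide
  have n21 : ¬ ((2 : Fin 4) = 1) := by decide
  have n31 : ¬ ((3 : Fin 4) = 1) := by decide
  have n32 : ¬ ((3 : Fin 4) = 2) := by decide
  have Xu : ∀ i, bX ε u w *ᵥ u i = 0 := by
    intro i
    rw [bX_mulVec, huu, huu, huu, huu]
    simp
  have Xw0 : bX ε u w *ᵥ w 0 = ε • u 2 := by
    rw [bX_mulVec, huw, huw, huw, huw]
    simp [n20, n30, n10]
  have Xw1 : bX ε u w *ᵥ w 1 = ε • u 3 := by
    rw [bX_mulVec, huw, huw, huw, huw]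
    simp [n21, n01, n31]
  have Xw2 : bX ε u w *ᵥ w 2 = u 0 := by
    rw [bX_mulVec, huw, huw, huw, huw]
    simp [n02, n32, n12]
  have Xw3 : bX ε u w *ᵥ w 3 = u 1 := by
    rw [bX_mulVec, huw, huw, huw, huw]
    simp [n23, n03, n13]
  have Yu0 : bY ε u w *ᵥ u 0 = 0 := by
    rw [bY_mulVec, huu, huu, hwu, hwu]
    simp [n30, n20]
  have Yu1 : bY ε u w *ᵥ u 1 = 0 := by
    rw [bY_mulVec, huu, huu, hwu, hwu]
    simp [n31, n21]
  have Yu2 : bY ε u w *ᵥ u 2 = -(u 1) := by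
    rw [bY_mulVec, huu, huu, hwu, hwu]
    simp [n32]
  have Yu3 : bY ε u w *ᵥ u 3 = u 0 := by
    rw [bY_mulVec, huu, huu, hwu, hwu]
    simp [n23]
  have Yw0 : bY ε u w *ᵥ w 0 = ε • w 3 := by
    rw [bY_mulVec, hww, hww, huw, huw]
    simp [n10]
  have Yw1 : bY ε u w *ᵥ w 1 = -(ε • w 2) := by
    rw [bY_mulVec, hww, hww, huw, huw]
    simp [n01]
  have Yw2 : bY ε u w *ᵥ w 2 = 0 := by
    rw [bY_mulVec, hww, hww, huw, huw]
    simp [n02, n12]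
  have Yw3 : bY ε u w *ᵥ w 3 = 0 := by
    rw [bY_mulVec, hww, hww, huw, huw]
    simp [n03, n13]
  have cX : ∀ x, v *ᵥ (bX ε u w *ᵥ x) = -(bX ε u w *ᵥ (v *ᵥ x)) := by
    intro x
    rw [mulVec_mulVec, hvX, neg_mulVec, mulVec_mulVec]
  have cY : ∀ x, v *ᵥ (bY ε u w *ᵥ x) = -(bY ε u w *ᵥ (v *ᵥ x)) := by
    intro x
    rw [mulVec_mulVec, hvY, neg_mulVec, mulVec_mulVec]
  have vv : ∀ x, v *ᵥ (v *ᵥ x) = 0 := by
    intro x
    rw [mulVec_mulVec, hvv, zero_mulVec]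
  have sy := sym_dot hvt
  obtain ⟨A, hA0⟩ : ∃ A, A = v *ᵥ w 0 := ⟨_, rfl⟩
  obtain ⟨B, hB0⟩ : ∃ B, B = v *ᵥ w 1 := ⟨_, rfl⟩
  obtain ⟨α, hαu, hαw, hAd⟩ := hyp_decomp ⟨huu, hww, huw⟩ A
  obtain ⟨β, hβu, hβw, hBd⟩ := hyp_decomp ⟨huu, hww, huw⟩ B
  rw [Fin.sum_univ_four, Fin.sum_univ_four] at hAd hBd
  obtain ⟨p0, hp0⟩ : ∃ x, x = A ⬝ᵥ w 0 := ⟨_, rfl⟩
  obtain ⟨p1, hp1⟩ : ∃ x, x = A ⬝ᵥ w 1 := ⟨_, rfl⟩
  obtain ⟨p2, hp2⟩ : ∃ x, x = A ⬝ᵥ w 2 := ⟨_, rfl⟩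
  obtain ⟨p3, hp3⟩ : ∃ x, x = A ⬝ᵥ w 3 := ⟨_, rfl⟩
  obtain ⟨r0, hr0⟩ : ∃ x, x = A ⬝ᵥ u 0 := ⟨_, rfl⟩
  obtain ⟨r1, hr1⟩ : ∃ x, x = A ⬝ᵥ u 1 := ⟨_, rfl⟩
  obtain ⟨r2, hr2⟩ : ∃ x, x = A ⬝ᵥ u 2 := ⟨_, rfl⟩
  obtain ⟨r3, hr3⟩ : ∃ x, x = A ⬝ᵥ u 3 := ⟨_, rfl⟩
  obtain ⟨q0, hq0⟩ : ∃ x, x = B ⬝ᵥ w 0 := ⟨_, rfl⟩
  obtain ⟨q1, hq1⟩ : ∃ x, x = B ⬝ᵥ w 1 := ⟨_, rfl⟩
  obtain ⟨q2, hq2⟩ : ∃ x, x = B ⬝ᵥ w 2 := ⟨_, rfl⟩
  obtain ⟨q3, hq3⟩ : ∃ x, x = B ⬝ᵥ w 3 := ⟨_, rfl⟩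
  obtain ⟨t0, ht0⟩ : ∃ x, x = B ⬝ᵥ u 0 := ⟨_, rfl⟩
  obtain ⟨t1, ht1⟩ : ∃ x, x = B ⬝ᵥ u 1 := ⟨_, rfl⟩
  obtain ⟨t2, ht2⟩ : ∃ x, x = B ⬝ᵥ u 2 := ⟨_, rfl⟩
  obtain ⟨t3, ht3⟩ : ∃ x, x = B ⬝ᵥ u 3 := ⟨_, rfl⟩
  rw [← hp0, ← hp1, ← hp2, ← hp3, ← hr0, ← hr1, ← hr2, ← hr3] at hAd
  rw [← hq0, ← hq1, ← hq2, ← hq3, ← ht0, ← ht1, ← ht2, ← ht3] at hBd
  have XA : bX ε u w *ᵥ A = r2 • u 0 + (ε * r0) • u 2 + (r3 • u 1 + (ε * r1) • u 3) := by
    rw [bX_mulVec, dotProduct_comm (u 2), dotProduct_comm (u 0), dotProduct_comm (u 3),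
      dotProduct_comm (u 1), ← hr0, ← hr1, ← hr2, ← hr3]
  have XB : bX ε u w *ᵥ B = t2 • u 0 + (ε * t0) • u 2 + (t3 • u 1 + (ε * t1) • u 3) := by
    rw [bX_mulVec, dotProduct_comm (u 2), dotProduct_comm (u 0), dotProduct_comm (u 3),
      dotProduct_comm (u 1), ← ht0, ← ht1, ← ht2, ← ht3]
  have YA : bY ε u w *ᵥ A = p3 • u 0 + (ε * r0) • w 3 - (p2 • u 1 + (ε * r1) • w 2) := by
    rw [bY_mulVec, dotProduct_comm (w 3), dotProduct_comm (u 0), dotProduct_comm (w 2),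
      dotProduct_comm (u 1), ← hr0, ← hr1, ← hp2, ← hp3]
  have YB : bY ε u w *ᵥ B = q3 • u 0 + (ε * t0) • w 3 - (q2 • u 1 + (ε * t1) • w 2) := by
    rw [bY_mulVec, dotProduct_comm (w 3), dotProduct_comm (u 0), dotProduct_comm (w 2),
      dotProduct_comm (u 1), ← ht0, ← ht1, ← hq2, ← hq3]
  have hε1 : ∀ x : Fin n → Φ, ε • ε • x = x := by
    intro x
    rw [smul_smul, hε, one_smul]
  have vu2 : v *ᵥ u 2 = -((ε * r2) • u 0) - r0 • u 2 - (ε * r3) • u 1 - r1 • u 3 := by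
    have h1 := cX (w 0)
    rw [Xw0, ← hA0, XA, mulVec_smul] at h1
    have h3 := congrArg (fun x => ε • x) h1
    simp only [hε1] at h3
    rw [h3]
    rcases hε' with e | e <;> rw [e] <;> module
  have vu3 : v *ᵥ u 3 = -((ε * t2) • u 0) - t0 • u 2 - (ε * t3) • u 1 - t1 • u 3 := by
    have h1 := cX (w 1)
    rw [Xw1, ← hB0, XB, mulVec_smul] at h1
    have h3 := congrArg (fun x => ε • x) h1
    simp only [hε1] at h3
    rw [h3]
    rcases hε' with e | e <;> rw [e] <;> module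
  have vw3 : v *ᵥ w 3 = -((ε * p3) • u 0) - r0 • w 3 + (ε * p2) • u 1 + r1 • w 2 := by
    have h1 := cY (w 0)
    rw [Yw0, ← hA0, YA, mulVec_smul] at h1
    have h3 := congrArg (fun x => ε • x) h1
    simp only [hε1] at h3
    rw [h3]
    rcases hε' with e | e <;> rw [e] <;> module
  have vw2 : v *ᵥ w 2 = (ε * q3) • u 0 + t0 • w 3 - (ε * q2) • u 1 - t1 • w 2 := by
    have h1 := cY (w 1)
    rw [Yw1, ← hB0, YB, mulVec_neg, mulVec_smul, neg_inj] at h1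
    have h3 := congrArg (fun x => ε • x) h1
    simp only [hε1] at h3
    rw [h3]
    rcases hε' with e | e <;> rw [e] <;> module
  have vu1 : v *ᵥ u 1 = r0 • u 1 - r1 • u 0 := by
    have h1 := cX (w 3)
    rw [Xw3, vw3, mulVec_add, mulVec_add, mulVec_sub, mulVec_neg, mulVec_smul, mulVec_smul,
      mulVec_smul, mulVec_smul, Xu, Xu, Xw3, Xw2] at h1
    rw [h1]
    module
  have vu0 : v *ᵥ u 0 = t1 • u 0 - t0 • u 1 := by
    have h1 := cX (w 2)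
    rw [Xw2, vw2, mulVec_sub, mulVec_sub, mulVec_add, mulVec_smul, mulVec_smul,
      mulVec_smul, mulVec_smul, Xu, Xu, Xw3, Xw2] at h1
    rw [h1]
    module
  -- scalar relations
  have d : ∀ (a : Fin n → Φ) (b : Fin n → Φ) (x : Φ), a ⬝ᵥ (x • b) = x * (a ⬝ᵥ b) := by
    intro a b x
    rw [dotProduct_smul, smul_eq_mul]
  have e1 : t1 = ε * r0 := by
    have h1 := sy (w 1) (u 1)
    rw [← hB0, ← ht1, vu1, dotProduct_sub, d, d, hwu, hwu] at h1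
    simpa [n10] using h1
  have e2 : t0 = -ε * t0 := by
    have h1 := sy (w 1) (u 0)
    rw [← hB0, ← ht0, vu0, dotProduct_sub, d, d, hwu, hwu] at h1
    simpa [n10] using h1
  have e3 : r1 = -ε * r1 := by
    have h1 := sy (w 0) (u 1)
    rw [← hA0, ← hr1, vu1, dotProduct_sub, d, d, hwu, hwu] at h1
    simpa [n01] using h1
  have two : ∀ x : Φ, x = -x → x = 0 := by
    intro x hx
    have h3 : 2 * x = 0 := by linear_combination hx
    exact (mul_eq_zero.1 h3).resolve_left h2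
  have e4 : r2 = 0 := by
    apply two
    have h1 := sy (w 0) (u 2)
    rw [← hA0, ← hr2, vu2, dotProduct_sub, dotProduct_sub, dotProduct_sub, dotProduct_neg, d, d, d,
      d, hwu, hwu, hwu, hwu] at h1
    simp [n01, n02, n03] at h1
    linear_combination h1 - r2 * hε
  have e5 : r3 = -t2 := by
    have h1 := sy (w 0) (u 3)
    rw [← hA0, ← hr3, vu3, dotProduct_sub, dotProduct_sub, dotProduct_sub, dotProduct_neg, d, d, d,
      d, hwu, hwu, hwu, hwu] at h1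
    simp [n01, n02, n03] at h1
    linear_combination h1 - t2 * hε
  have e6 : t3 = 0 := by
    apply two
    have h1 := sy (w 1) (u 3)
    rw [← hB0, ← ht3, vu3, dotProduct_sub, dotProduct_sub, dotProduct_sub, dotProduct_neg, d, d, d,
      d, hwu, hwu, hwu, hwu] at h1
    simp [n10, n12, n13] at h1
    linear_combination h1 - t3 * hε
  have e7 : p3 = 0 := by
    apply two
    have h1 := sy (w 0) (w 3)
    rw [← hA0, ← hp3, vw3, dotProduct_add, dotProduct_add, dotProduct_sub, dotProduct_neg, d, d, d,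
      d, hwu, hwu, hww, hww] at h1
    simp [n01] at h1
    linear_combination h1 - p3 * hε
  have e8 : q3 = p2 := by
    have h1 := sy (w 1) (w 3)
    rw [← hB0, ← hq3, vw3, dotProduct_add, dotProduct_add, dotProduct_sub, dotProduct_neg, d, d, d,
      d, hwu, hwu, hww, hww] at h1
    simp [n10] at h1
    linear_combination h1 + p2 * hε
  have e9 : q2 = 0 := by
    apply two
    have h1 := sy (w 1) (w 2)
    rw [← hB0, ← hq2, vw2, dotProduct_sub, dotProduct_sub, dotProduct_add, d, d, d,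
      d, hwu, hwu, hww, hww] at h1
    simp [n10] at h1
    linear_combination h1 - q2 * hε
  have e10 : p0 = ε * p0 := by
    have h1 := sy (w 0) (w 0)
    rw [← hA0, dotProduct_comm (w 0), ← hp0] at h1
    exact h1
  have e11 : q1 = ε * q1 := by
    have h1 := sy (w 1) (w 1)
    rw [← hB0, dotProduct_comm (w 1), ← hq1] at h1
    exact h1
  have e12 : q0 = ε * p1 := by
    have h1 := sy (w 1) (w 0)
    rw [← hB0, ← hA0, dotProduct_comm (w 1), ← hq0, ← hp1] at h1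
    exact h1
  have e13 : r0 * r0 + r1 * t0 = 0 := by
    have h1 := sy A (u 0)
    rw [hA0, vv, zero_dotProduct, ← hA0, vu0, dotProduct_sub, d, d, ← hr0, ← hr1, e1] at h1
    linear_combination -h1 - r0 * r0 * hε + t0 * e3
  have hN : ∀ x, (v - (ε * p2) • bX ε u w - (ε * r3) • bY ε u w) *ᵥ x =
      v *ᵥ x - (ε * p2) • (bX ε u w *ᵥ x) - (ε * r3) • (bY ε u w *ᵥ x) := by
    intro x
    rw [sub_mulVec, sub_mulVec, smul_mulVec, smul_mulVec]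
  have t2e : t2 = -r3 := by rw [e5, neg_neg]
  refine ⟨ε * p2, ε * r3, r0, r1, t0, p0, p1, q1, α, β, hαu, hαw, hβu, hβw, e10, e11, e3, e2,
    e13, ?_, ?_, ?_, ?_, ?_, ?_, ?_, ?_, ?_⟩
  · rw [hN, ← hA0, Xw0, Yw0, hAd, e4, e7]
    rcases hε' with e | e <;> rw [e] <;> module
  · rw [hN, ← hB0, Xw1, Yw1, hBd, e6, e8, e9, e12, e1, t2e]
    rcases hε' with e | e <;> rw [e] <;> module
  · rw [hN, Xu, Yu0, vu0, e1]
    module
  · rw [hN, Xu, Yu1, vu1]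
    module
  · rw [hN, Xu, Yu2, vu2, e4]
    module
  · rw [hN, Xu, Yu3, vu3, e6, t2e, e1]
    module
  · rw [hN, Xw2, Yw2, vw2, e8, e9, e1]
    module
  · rw [hN, Xw3, Yw3, vw3, e7]
    module
  · intro a hau haw
    have hua : ∀ i, u i ⬝ᵥ a = 0 := fun i => by rw [dotProduct_comm]; exact hau i
    have hwa : ∀ i, w i ⬝ᵥ a = 0 := fun i => by rw [dotProduct_comm]; exact haw i
    have Xa : bX ε u w *ᵥ a = 0 := by
      rw [bX_mulVec, hua, hua, hua, hua]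
      simp
    have Ya : bY ε u w *ᵥ a = 0 := by
      rw [bY_mulVec, hua, hua, hwa, hwa]
      simp
    rw [hN, Xa, Ya, smul_zero, smul_zero, sub_zero, sub_zero]
    obtain ⟨a', ha'u, ha'w, had⟩ := hyp_decomp ⟨huu, hww, huw⟩ (v *ᵥ a)
    rw [Fin.sum_univ_four, Fin.sum_univ_four] at had
    have c0 : (v *ᵥ a) ⬝ᵥ u 0 = 0 := by
      rw [sy, vu0, dotProduct_sub, d, d, hau, hau]
      simp
    have c1 : (v *ᵥ a) ⬝ᵥ u 1 = 0 := by
      rw [sy, vu1, dotProduct_sub, d, d, hau, hau]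
      simp
    have c2 : (v *ᵥ a) ⬝ᵥ u 2 = 0 := by
      rw [sy, vu2, dotProduct_sub, dotProduct_sub, dotProduct_sub, dotProduct_neg, d, d, d, d, hau,
        hau, hau, hau]
      simp
    have c3 : (v *ᵥ a) ⬝ᵥ u 3 = 0 := by
      rw [sy, vu3, dotProduct_sub, dotProduct_sub, dotProduct_sub, dotProduct_neg, d, d, d, d, hau,
        hau, hau, hau]
      simp
    have c4 : (v *ᵥ a) ⬝ᵥ w 2 = 0 := by
      rw [sy, vw2, dotProduct_sub, dotProduct_sub, dotProduct_add, d, d, d, d, hau,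
        hau, haw, haw]
      simp
    have c5 : (v *ᵥ a) ⬝ᵥ w 3 = 0 := by
      rw [sy, vw3, dotProduct_add, dotProduct_add, dotProduct_sub, dotProduct_neg, d, d, d, d, hau,
        hau, haw, haw]
      simp
    have c6 : (v *ᵥ a) ⬝ᵥ w 0 = ε * (a ⬝ᵥ α) := by
      rw [sy, ← hA0, hAd]
      simp only [dotProduct_add, d, hau, haw]
      ring
    have c7 : (v *ᵥ a) ⬝ᵥ w 1 = ε * (a ⬝ᵥ β) := by
      rw [sy, ← hB0, hBd]
      simp only [dotProduct_add, d, hau, haw]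
      ring
    rw [c0, c1, c2, c3, c4, c5, c6, c7] at had
    have had' : v *ᵥ a = (ε * (a ⬝ᵥ α)) • u 0 + (ε * (a ⬝ᵥ β)) • u 1 + a' := by
      rw [had]
      module
    have hva' : v *ᵥ a' = -((ε * (a ⬝ᵥ α)) • (t1 • u 0 - t0 • u 1)) -
        (ε * (a ⬝ᵥ β)) • (r0 • u 1 - r1 • u 0) := by
      have h1 := vv a
      rw [had', mulVec_add, mulVec_add, mulVec_smul, mulVec_smul, vu0, vu1] at h1
      have h3 : v *ᵥ a' = 0 - ((ε * (a ⬝ᵥ α)) • (t1 • u 0 - t0 • u 1) +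
        (ε * (a ⬝ᵥ β)) • (r0 • u 1 - r1 • u 0)) := by
        rw [← h1]
        module
      rw [h3]
      module
    have haa : a' ⬝ᵥ a' = 0 := by
      have h1 : a' = v *ᵥ a - (ε * (a ⬝ᵥ α)) • u 0 - (ε * (a ⬝ᵥ β)) • u 1 := by
        rw [had']
        module
      have h3 : a' ⬝ᵥ a' = a' ⬝ᵥ (v *ᵥ a) := by
        conv_lhs => rw [h1]
        rw [← h1]
        conv_lhs => rw [h1]
        rw [← h1]
        have h4 : a' ⬝ᵥ a' = a' ⬝ᵥ (v *ᵥ a - (ε * (a ⬝ᵥ α)) • u 0 - (ε * (a ⬝ᵥ β)) • u 1) := by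
          rw [← h1]
        rw [h4, dotProduct_sub, dotProduct_sub, d, d, ha'u, ha'u]
        ring
      rw [h3, dotProduct_comm, sy, hva']
      simp only [dotProduct_sub, dotProduct_neg, d, hau]
      ring
    have ha0 := hA a' ha'u ha'w haa
    rw [had', ha0, add_zero]

/-! ### part K6 -/

theorem sym_in_T1 (h2 : (2 : Φ) ≠ 0) {u w : Fin 4 → (Fin n → Φ)} (h : Hyp u w)
    (hA : ∀ a : Fin n → Φ, (∀ i, a ⬝ᵥ u i = 0) → (∀ i, a ⬝ᵥ w i = 0) → a ⬝ᵥ a = 0 → a = 0)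
    {V : Submodule Φ (Matrix (Fin n) (Fin n) Φ)} (hV : IsAC (1 : Φ) V)
    (hX : bX 1 u w ∈ V) (hY : bY 1 u w ∈ V) : V ≤ T1 u w := by
  intro v hv
  obtain ⟨hvv, hvt⟩ := hV v hv
  have hanti : ∀ x ∈ V, v * x = -(x * v) := by
    intro x hx
    have h1 := (hV _ (V.add_mem hv hx)).1
    have h3 := (hV x hx).1
    rw [add_mul, mul_add, mul_add, hvv, h3, zero_add, add_zero] at h1
    exact eq_neg_of_add_eq_zero_left h1
  obtain ⟨s, t, r0, r1, r2, p0, p1, p2, α, β, hαu, hαw, hβu, hβw, -, -, hr1, hr2, hr0, hw0, hw1,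
    hu0, hu1, hu2, hu3, hw2, hw3, ha⟩ :=
    coords h2 (one_mul 1) h hA hvt hvv (hanti _ hX) (hanti _ hY)
  have hr1' : r1 = 0 := by
    have h3 : 2 * r1 = 0 := by linear_combination hr1
    exact (mul_eq_zero.1 h3).resolve_left h2
  have hr2' : r2 = 0 := by
    have h3 : 2 * r2 = 0 := by linear_combination hr2
    exact (mul_eq_zero.1 h3).resolve_left h2
  subst hr1'
  subst hr2'
  have hr0' : r0 = 0 := by
    have h3 : r0 * r0 = 0 := by linear_combination hr0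
    exact mul_self_eq_zero.1 h3
  subst hr0'
  have hv'V : v - s • bX 1 u w - t • bY 1 u w ∈ V :=
    V.sub_mem (V.sub_mem hv (V.smul_mem _ hX)) (V.smul_mem _ hY)
  have hvv' := (hV _ hv'V).1
  have hvdef : v = (v - s • bX 1 u w - t • bY 1 u w) + s • bX 1 u w + t • bY 1 u w := by abel
  generalize v - s • bX 1 u w - t • bY 1 u w = v' at *
  simp only [mul_zero, zero_smul, sub_zero, add_zero, neg_zero, one_mul] at hw0 hw1 hu0 hu1 hu2 hu3 hw2 hw3 ha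
  obtain ⟨huu, hww, huw⟩ := h
  have hα0 : α = 0 := by
    apply hA α hαu hαw
    have h3 : v' *ᵥ (v' *ᵥ w 0) = 0 := by rw [mulVec_mulVec, hvv', zero_mulVec]
    rw [hw0, mulVec_add, mulVec_add, mulVec_smul, mulVec_smul, hu0, hu1, ha α hαu hαw] at h3
    have h4 := congrArg (fun z => z ⬝ᵥ w 0) h3
    simpa [add_dotProduct, smul_dotProduct, huw] using h4
  have hβ0 : β = 0 := by
    apply hA β hβu hβw
    have h3 : v' *ᵥ (v' *ᵥ w 1) = 0 := by rw [mulVec_mulVec, hvv', zero_mulVec]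
    rw [hw1, mulVec_add, mulVec_add, mulVec_smul, mulVec_smul, hu0, hu1, ha β hβu hβw] at h3
    have h4 := congrArg (fun z => z ⬝ᵥ w 1) h3
    simpa [add_dotProduct, smul_dotProduct, huw] using h4
  subst hα0
  subst hβ0
  have hz : v' = p0 • vecMulVec (u 0) (u 0) + p1 • br 1 (u 0) (u 1) + p2 • vecMulVec (u 1) (u 1) := by
    have hkey : ∀ x, v' *ᵥ x = (p0 • vecMulVec (u 0) (u 0) + p1 • br 1 (u 0) (u 1) +
        p2 • vecMulVec (u 1) (u 1)) *ᵥ x := by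
      intro x
      obtain ⟨a, hau, haw, hx⟩ := hyp_decomp ⟨huu, hww, huw⟩ x
      have hva : v' *ᵥ a = 0 := by rw [ha a hau haw]; simp
      conv_lhs => rw [hx]
      rw [mulVec_add, mulVec_add, hva, Fin.sum_univ_four, Fin.sum_univ_four]
      simp only [mulVec_add, mulVec_smul, hu0, hu1, hu2, hu3, hw0, hw1, hw2, hw3, smul_zero,
        add_zero, zero_add]
      simp only [add_mulVec, smul_mulVec, br, one_smul, vecMulVec_mulVec]
      rw [dotProduct_comm (u 0) x, dotProduct_comm (u 1) x]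
      ext i
      simp only [Pi.add_apply, Pi.smul_apply, smul_eq_mul, MulOpposite.smul_eq_mul_unop,
        MulOpposite.unop_op]
      ring
    apply Matrix.toLin'.injective
    refine LinearMap.ext fun x => ?_
    rw [Matrix.toLin'_apply, Matrix.toLin'_apply]
    exact hkey x
  rw [hvdef, hz]
  unfold T1
  refine Submodule.add_mem _ (Submodule.add_mem _ (Submodule.add_mem _ (Submodule.add_mem _ ?_ ?_) ?_) ?_) ?_
  · exact Submodule.smul_mem _ _ (Submodule.subset_span (by simp))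
  · exact Submodule.smul_mem _ _ (Submodule.subset_span (by simp))
  · exact Submodule.smul_mem _ _ (Submodule.subset_span (by simp))
  · exact Submodule.smul_mem _ _ (Submodule.subset_span (by simp))
  · exact Submodule.smul_mem _ _ (Submodule.subset_span (by simp))

/-! ### part K7 -/

theorem alt_in_T2 (h2 : (2 : Φ) ≠ 0) {u w : Fin 4 → (Fin n → Φ)} (h : Hyp u w)
    (hA : ∀ a : Fin n → Φ, (∀ i, a ⬝ᵥ u i = 0) → (∀ i, a ⬝ᵥ w i = 0) → a ⬝ᵥ a = 0 → a = 0)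
    {V : Submodule Φ (Matrix (Fin n) (Fin n) Φ)} (hV : IsAC (-1 : Φ) V)
    (hX : bX (-1) u w ∈ V) (hY : bY (-1) u w ∈ V) {v : Matrix (Fin n) (Fin n) Φ} (hv : v ∈ V)
    (h0 : bX (-1) u w * bY (-1) u w * v = 0) : v ∈ T2 u w := by
  have h' := h
  obtain ⟨huu, hww, huw⟩ := h'
  have hvm : ∀ (a b z : Fin n → Φ), vecMulVec a b *ᵥ z = (b ⬝ᵥ z) • a := by
    intro a b z
    ext i
    simp only [mulVec, vecMulVec_apply, dotProduct, Pi.smul_apply, smul_eq_mul]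
    rw [Finset.sum_mul]
    apply Finset.sum_congr rfl
    intro j _
    ring
  have hbr : ∀ (a b z : Fin n → Φ), br (-1 : Φ) a b *ᵥ z = (b ⬝ᵥ z) • a - (a ⬝ᵥ z) • b := by
    intro a b z
    rw [br, add_mulVec, smul_mulVec, hvm, hvm, neg_smul, one_smul, sub_eq_add_neg]
  have hpol : ∀ x ∈ V, ∀ y ∈ V, y * x = -(x * y) := by
    intro x hx y hy
    have h1 := (hV _ (V.add_mem hx hy)).1
    have hx' := (hV x hx).1
    have hy' := (hV y hy).1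
    have h3 : (x + y) * (x + y) = x * x + (x * y + y * x) + y * y := by noncomm_ring
    rw [h3, hx', hy', zero_add, add_zero] at h1
    exact eq_neg_of_add_eq_zero_right h1
  obtain ⟨s, t, r0, r1, r2, p0, p1, p2, α, β, hαu, hαw, hβu, hβw, hp0, hp2, hr1, hr2, hr,
    e1, e2, e3, e4, e5, e6, e7, e8, e9⟩ := coords h2 (ε := (-1 : Φ)) (by ring) h hA
      (hV v hv).2 (hV v hv).1 (hpol _ hX _ hv) (hpol _ hY _ hv)
  obtain ⟨v', hv'⟩ : ∃ v', v' = v - s • bX (-1) u w - t • bY (-1) u w := ⟨_, rfl⟩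
  rw [← hv'] at e1 e2 e3 e4 e5 e6 e7 e8
  have hv'V : v' ∈ V := by
    rw [hv']
    exact V.sub_mem (V.sub_mem hv (V.smul_mem s hX)) (V.smul_mem t hY)
  have e9' : ∀ a : Fin n → Φ, (∀ i, a ⬝ᵥ u i = 0) → (∀ i, a ⬝ᵥ w i = 0) →
        v' *ᵥ a = ((-1) * (a ⬝ᵥ α)) • u 0 + ((-1) * (a ⬝ᵥ β)) • u 1 := by
    intro a ha ha'
    rw [hv']
    exact e9 a ha ha'
  have hXz : ∀ z, bX (-1) u w *ᵥ z = (u 2 ⬝ᵥ z) • u 0 - (u 0 ⬝ᵥ z) • u 2 +
      ((u 3 ⬝ᵥ z) • u 1 - (u 1 ⬝ᵥ z) • u 3) := by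
    intro z; rw [bX, add_mulVec, hbr, hbr]
  have hYz : ∀ z, bY (-1) u w *ᵥ z = (w 3 ⬝ᵥ z) • u 0 - (u 0 ⬝ᵥ z) • w 3 -
      ((w 2 ⬝ᵥ z) • u 1 - (u 1 ⬝ᵥ z) • w 2) := by
    intro z; rw [bY, sub_mulVec, hbr, hbr]
  have hZz : ∀ z, bX (-1) u w *ᵥ (bY (-1) u w *ᵥ z) = (u 1 ⬝ᵥ z) • u 0 - (u 0 ⬝ᵥ z) • u 1 := by
    intro z
    rw [hYz, hXz]
    simp only [dotProduct_sub, dotProduct_smul, huu, huw]
    simp
    try module
  have hZv' : ∀ z, bX (-1) u w *ᵥ (bY (-1) u w *ᵥ (v' *ᵥ z)) = 0 := by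
    have hXX := (hV _ hX).1
    have hYY := (hV _ hY).1
    have hYX : bY (-1) u w * bX (-1) u w = -(bX (-1) u w * bY (-1) u w) := hpol _ hX _ hY
    have a1 : bX (-1) u w * bY (-1) u w * bX (-1) u w = 0 := by
      rw [mul_assoc, hYX, mul_neg, ← mul_assoc, hXX, zero_mul, neg_zero]
    have a2 : bX (-1) u w * bY (-1) u w * bY (-1) u w = 0 := by
      rw [mul_assoc, hYY, mul_zero]
    have a3 : bX (-1) u w * bY (-1) u w * v' = 0 := by
      rw [hv', mul_sub, mul_sub, h0, Matrix.mul_smul, Matrix.mul_smul, a1, a2]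
      simp
    intro z
    rw [mulVec_mulVec, mulVec_mulVec, a3, zero_mulVec]
  have hind : ∀ c d : Φ, c • u 0 + d • u 1 = 0 → c = 0 ∧ d = 0 := by
    intro c d hcd
    have h1 : (c • u 0 + d • u 1) ⬝ᵥ w 0 = 0 := by rw [hcd, zero_dotProduct]
    have h2' : (c • u 0 + d • u 1) ⬝ᵥ w 1 = 0 := by rw [hcd, zero_dotProduct]
    rw [add_dotProduct, smul_dotProduct, smul_dotProduct, huw, huw] at h1 h2'
    simp at h1 h2'
    exact ⟨h1, h2'⟩
  have huα : ∀ i, u i ⬝ᵥ α = 0 := fun i => by rw [dotProduct_comm]; exact hαu i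
  have huβ : ∀ i, u i ⬝ᵥ β = 0 := fun i => by rw [dotProduct_comm]; exact hβu i
  have hp00 : p0 = 0 := by
    have : 2 * p0 = 0 := by linear_combination hp0
    exact (mul_eq_zero.mp this).resolve_left h2
  have hp20 : p2 = 0 := by
    have : 2 * p2 = 0 := by linear_combination hp2
    exact (mul_eq_zero.mp this).resolve_left h2
  subst hp00 hp20
  have k1 := hZv' (w 0)
  rw [hZz, e1] at k1
  have k1' : r1 = 0 ∧ -r0 = 0 := by
    apply hind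
    rw [← k1]
    simp only [dotProduct_add, dotProduct_smul, huu, huw, huα]
    simp [sub_eq_add_neg]
  have hr10 : r1 = 0 := k1'.1
  have hr00 : r0 = 0 := neg_eq_zero.mp k1'.2
  have k2 := hZv' (w 1)
  rw [hZz, e2] at k2
  have k2' : (-1) * r0 = 0 ∧ -r2 = 0 := by
    apply hind
    rw [← k2]
    simp only [dotProduct_add, dotProduct_smul, huu, huw, huβ]
    simp [sub_eq_add_neg]
  have hr20 : r2 = 0 := neg_eq_zero.mp k2'.2
  subst hr10 hr00 hr20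
  simp only [zero_smul, mul_zero, add_zero, zero_add, sub_zero, neg_zero, sub_self] at e1 e2 e3 e4 e5 e6 e7 e8
  have hsq : ∀ z, v' *ᵥ (v' *ᵥ z) = 0 := by
    intro z
    rw [mulVec_mulVec, (hV _ hv'V).1, zero_mulVec]
  have hα0 : α = 0 := by
    have k := hsq (w 0)
    rw [e1, mulVec_add, mulVec_smul, e4, smul_zero, zero_add, e9' α hαu hαw] at k
    have := (hind _ _ k).1
    apply hA α hαu hαw
    linear_combination -this
  have hβ0 : β = 0 := by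
    have k := hsq (w 1)
    rw [e2, mulVec_add, mulVec_smul, e3, smul_zero, zero_add, e9' β hβu hβw] at k
    have := (hind _ _ k).2
    apply hA β hβu hβw
    linear_combination -this
  subst hα0 hβ0
  simp only [add_zero] at e1 e2
  have hfin : v' = (-p1) • br (-1) (u 0) (u 1) := by
    apply Matrix.ext_of_mulVec_single
    intro i
    obtain ⟨z, hz⟩ : ∃ z : Fin n → Φ, z = Pi.single i 1 := ⟨_, rfl⟩
    rw [← hz]
    obtain ⟨a, ha, ha', hza⟩ := hyp_decomp h z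
    have hza0 : u 0 ⬝ᵥ a = 0 := by rw [dotProduct_comm]; exact ha 0
    have hza1 : u 1 ⬝ᵥ a = 0 := by rw [dotProduct_comm]; exact ha 1
    rw [smul_mulVec, hbr]
    have L : v' *ᵥ z = (z ⬝ᵥ u 0) • (p1 • u 1) + (z ⬝ᵥ u 1) • (((-1) * p1) • u 0) := by
      conv_lhs => rw [hza]
      simp only [Fin.sum_univ_four, mulVec_add, mulVec_smul, e1, e2, e3, e4, e5, e6, e7, e8,
        e9' a ha ha', dotProduct_zero, mul_zero, zero_smul, smul_zero, add_zero, zero_add]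
    rw [L, dotProduct_comm (u 1) z, dotProduct_comm (u 0) z]
    module
  have hvv : v = (-p1) • br (-1) (u 0) (u 1) + s • bX (-1) u w + t • bY (-1) u w := by
    rw [← hfin, hv']
    abel
  rw [hvv]
  unfold T2
  refine Submodule.add_mem _ (Submodule.add_mem _ (Submodule.smul_mem _ _ ?_)
    (Submodule.smul_mem _ _ ?_)) (Submodule.smul_mem _ _ ?_)
  · exact Submodule.subset_span (by simp)
  · exact Submodule.subset_span (by simp)
  · exact Submodule.subset_span (by simp)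

/-! ### part K8 -/

theorem br_mulVec' (ε : Φ) (a b v : Fin n → Φ) :
    br ε a b *ᵥ v = (b ⬝ᵥ v) • a + ε • ((a ⬝ᵥ v) • b) := by
  unfold br
  rw [add_mulVec, smul_mulVec, vecMulVec_mulVec, vecMulVec_mulVec]
  simp [MulOpposite.smul_eq_mul_unop, op_smul_eq_smul]

theorem alt_in_T3 (h2 : (2 : Φ) ≠ 0) {u w : Fin 4 → (Fin n → Φ)} (h : Hyp u w)
    (hA : ∀ a : Fin n → Φ, (∀ i, a ⬝ᵥ u i = 0) → (∀ i, a ⬝ᵥ w i = 0) → a ⬝ᵥ a = 0 → a = 0)
    {V : Submodule Φ (Matrix (Fin n) (Fin n) Φ)} (hV : IsAC (-1 : Φ) V)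
    (hX : bX (-1) u w ∈ V) (hY : bY (-1) u w ∈ V) (hW : bW u w ∈ V) : V ≤ T3 u w := by
  obtain ⟨huu, hww, huw⟩ := h
  have hwu : ∀ i j, w i ⬝ᵥ u j = if i = j then 1 else 0 := by
    intro i j
    rw [dotProduct_comm, huw j i]
    by_cases hij : i = j
    · simp [hij]
    · rw [if_neg hij, if_neg (fun e => hij e.symm)]
  have pol : ∀ x ∈ V, ∀ y ∈ V, x * y = -(y * x) := by
    intro x hx y hy
    have h1 := (hV (x + y) (V.add_mem hx hy)).1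
    have h3 := (hV x hx).1
    have h4 := (hV y hy).1
    have h5 : x * y + y * x = 0 := by
      have : (x + y) * (x + y) = x * x + y * y + (x * y + y * x) := by noncomm_ring
      rw [this, h3, h4] at h1
      simpa using h1
    exact eq_neg_of_add_eq_zero_left h5
  intro v hv
  obtain ⟨s, t, r0, r1, r2, p0, p1, p2, α, β, hαu, hαw, hβu, hβw, hp0, hp2, hr1, hr2, hr, e1, e2,
    e3, e4, -⟩ := coords h2 (by ring) ⟨huu, hww, huw⟩ hA (hV v hv).2 (hV v hv).1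
      (pol v hv _ hX) (pol v hv _ hY)
  set v' := v - s • bX (-1) u w - t • bY (-1) u w with hv'
  have hv'V : v' ∈ V := V.sub_mem (V.sub_mem hv (V.smul_mem _ hX)) (V.smul_mem _ hY)
  have Wact : ∀ z : Fin n → Φ, bW u w *ᵥ z = (u 1 ⬝ᵥ z) • w 0 - (w 0 ⬝ᵥ z) • u 1 +
      ((u 2 ⬝ᵥ z) • w 3 - (w 3 ⬝ᵥ z) • u 2) := by
    intro z
    unfold bW
    rw [add_mulVec, br_mulVec', br_mulVec']
    simp [sub_eq_add_neg]
  have Ww1 : bW u w *ᵥ w 1 = w 0 := by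
    rw [Wact]; simp [huw, hww]
  have Ww0 : bW u w *ᵥ w 0 = 0 := by
    rw [Wact]; simp [huw, hww]
  have Wu0 : bW u w *ᵥ u 0 = - u 1 := by
    rw [Wact]; simp [huu, hwu]
  have Wu1 : bW u w *ᵥ u 1 = 0 := by
    rw [Wact]; simp [huu, hwu]
  have Wβ : bW u w *ᵥ β = 0 := by
    rw [Wact]
    have a1 : u 1 ⬝ᵥ β = 0 := by rw [dotProduct_comm]; exact hβu 1
    have a2 : w 0 ⬝ᵥ β = 0 := by rw [dotProduct_comm]; exact hβw 0
    have a3 : u 2 ⬝ᵥ β = 0 := by rw [dotProduct_comm]; exact hβu 2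
    have a4 : w 3 ⬝ᵥ β = 0 := by rw [dotProduct_comm]; exact hβw 3
    simp [a1, a2, a3, a4]
  have key := congrArg (fun M => M *ᵥ w 1) (pol v' hv'V _ hW)
  simp only [neg_mulVec, ← mulVec_mulVec] at key
  rw [Ww1, e1, e2] at key
  simp only [mulVec_add, mulVec_smul, Ww1, Ww0, Wu0, Wu1, Wβ] at key
  have hr1z : r1 = 0 := by
    have := congrArg (fun z => z ⬝ᵥ u 1) key
    simp [add_dotProduct, smul_dotProduct, neg_dotProduct, huu, hwu, hαu] at this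
    exact this
  have hr0z : r0 = 0 := by
    rw [hr1z] at hr
    simpa using hr
  set v'' := v' - r2 • bW u w with hv''
  have hv''V : v'' ∈ V := V.sub_mem hv'V (V.smul_mem _ hW)
  have f1 : v'' *ᵥ u 1 = 0 := by
    rw [hv'', sub_mulVec, smul_mulVec, e4, Wu1, hr0z, hr1z]; simp
  have f0 : v'' *ᵥ u 0 = 0 := by
    rw [hv'', sub_mulVec, smul_mulVec, e3, Wu0, hr0z]; simp
  have ht : v''ᵀ = (-1 : Φ) • v'' := (hV v'' hv''V).2
  have Xact : ∀ z : Fin n → Φ, bX (-1) u w *ᵥ z = (u 2 ⬝ᵥ z) • u 0 - (u 0 ⬝ᵥ z) • u 2 +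
      ((u 3 ⬝ᵥ z) • u 1 - (u 1 ⬝ᵥ z) • u 3) := by
    intro z
    unfold bX
    rw [add_mulVec, br_mulVec', br_mulVec']
    simp [sub_eq_add_neg]
  have Yact : ∀ z : Fin n → Φ, bY (-1) u w *ᵥ z = (w 3 ⬝ᵥ z) • u 0 - (u 0 ⬝ᵥ z) • w 3 -
      ((w 2 ⬝ᵥ z) • u 1 - (u 1 ⬝ᵥ z) • w 2) := by
    intro z
    unfold bY
    rw [sub_mulVec, br_mulVec', br_mulVec']
    simp [sub_eq_add_neg]
  have dz : ∀ (a z : Fin n → Φ), v'' *ᵥ a = 0 → a ⬝ᵥ (v'' *ᵥ z) = 0 := by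
    intro a z ha
    have : a ⬝ᵥ (v'' *ᵥ z) = (v''ᵀ *ᵥ a) ⬝ᵥ z := by
      rw [mulVec_transpose, dotProduct_mulVec]
    rw [this, ht, smul_mulVec, ha]; simp
  have hZ : bX (-1) u w * bY (-1) u w * v'' = 0 := by
    apply Matrix.ext_of_mulVec_single
    intro i
    rw [zero_mulVec, ← mulVec_mulVec, ← mulVec_mulVec]
    set z := v'' *ᵥ Pi.single i 1 with hz
    have z0 : u 0 ⬝ᵥ z = 0 := dz _ _ f0
    have z1 : u 1 ⬝ᵥ z = 0 := dz _ _ f1
    rw [Yact, z0, z1]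
    rw [Xact]
    simp [dotProduct_sub, dotProduct_smul, huu]
  have hT2 := alt_in_T2 h2 ⟨huu, hww, huw⟩ hA hV hX hY hv''V hZ
  unfold T2 at hT2
  rw [Submodule.mem_span_triple] at hT2
  obtain ⟨a, b, d, hd⟩ := hT2
  have hDV : d • br (-1) (u 0) (u 1) ∈ V := by
    have : d • br (-1) (u 0) (u 1) = v'' - a • bX (-1) u w - b • bY (-1) u w := by
      rw [← hd]; abel
    rw [this]
    exact V.sub_mem (V.sub_mem hv''V (V.smul_mem _ hX)) (V.smul_mem _ hY)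
  have key2 := congrArg (fun M => M *ᵥ w 1) (pol _ hDV _ hW)
  simp only [neg_mulVec, ← mulVec_mulVec] at key2
  rw [Ww1] at key2
  simp only [smul_mulVec, br_mulVec', huw, mulVec_add, mulVec_smul, Wu0, Wu1] at key2
  have hdz : d = 0 := by
    have := congrArg (fun z => z ⬝ᵥ w 1) key2
    simp [add_dotProduct, smul_dotProduct, neg_dotProduct, huw, hww] at this
    have h3 : (2 : Φ) * d = 0 := by linear_combination (-1 : Φ) * this
    rcases mul_eq_zero.1 h3 with h | h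
    · exact absurd h h2
    · exact h
  unfold T3
  rw [Submodule.mem_span_triple]
  refine ⟨s + a, t + b, r2, ?_⟩
  rw [hdz, zero_smul, add_zero] at hd
  have : v = v'' + r2 • bW u w + t • bY (-1) u w + s • bX (-1) u w := by
    rw [hv'', hv']; abel
  rw [this, ← hd, add_smul, add_smul]
  abel

/-! ### part K9 -/

theorem K9_vv (a b c d : Fin n → Φ) :
    vecMulVec a b * vecMulVec c d = (b ⬝ᵥ c) • vecMulVec a d := by
  rw [vecMulVec_mul_vecMulVec, vecMulVec_smul]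

theorem K9_wu {u w : Fin 4 → (Fin n → Φ)} (h : Hyp u w) (i j : Fin 4) :
    w i ⬝ᵥ u j = if i = j then 1 else 0 := by
  rw [dotProduct_comm, h.2.2 j i]
  by_cases hij : i = j
  · simp [hij]
  · rw [if_neg hij, if_neg (fun h => hij h.symm)]

theorem K9_br_T {ε : Φ} (hε : ε * ε = 1) (a b : Fin n → Φ) : (br ε a b)ᵀ = ε • br ε a b := by
  unfold br
  rw [transpose_add, transpose_smul, transpose_vecMulVec, transpose_vecMulVec, smul_add, smul_smul,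
    hε, one_smul, add_comm]

/-- span criterion -/
theorem K9_span (h2 : (2 : Φ) ≠ 0) (ε : Φ) (S : Set (Matrix (Fin n) (Fin n) Φ))
    (hT : ∀ x ∈ S, xᵀ = ε • x) (hA : ∀ x ∈ S, ∀ y ∈ S, x * y + y * x = 0) :
    IsAC ε (Submodule.span Φ S) := by
  have hA1 : ∀ x ∈ Submodule.span Φ S, ∀ y ∈ S, x * y + y * x = 0 := by
    intro x hx
    induction hx using Submodule.span_induction with
    | mem x hx => exact hA x hx
    | zero => intro y _; simp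
    | add a b _ _ ha hb =>
      intro y hy
      have h1 := ha y hy
      have h2 := hb y hy
      have : (a + b) * y + y * (a + b) = (a * y + y * a) + (b * y + y * b) := by
        rw [add_mul, mul_add]; abel
      rw [this, h1, h2, add_zero]
    | smul c a _ ha =>
      intro y hy
      rw [smul_mul_assoc, mul_smul_comm, ← smul_add, ha y hy, smul_zero]
  have hA2 : ∀ x ∈ Submodule.span Φ S, ∀ y ∈ Submodule.span Φ S, x * y + y * x = 0 := by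
    intro x hx y hy
    induction hy using Submodule.span_induction with
    | mem y hy => exact hA1 x hx y hy
    | zero => simp
    | add a b _ _ ha hb =>
      have : x * (a + b) + (a + b) * x = (x * a + a * x) + (x * b + b * x) := by
        rw [add_mul, mul_add]; abel
      rw [this, ha, hb, add_zero]
    | smul c a _ ha =>
      rw [smul_mul_assoc, mul_smul_comm, ← smul_add, ha, smul_zero]
  have hT1 : ∀ x ∈ Submodule.span Φ S, xᵀ = ε • x := by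
    intro x hx
    induction hx using Submodule.span_induction with
    | mem x hx => exact hT x hx
    | zero => simp
    | add a b _ _ ha hb => rw [transpose_add, ha, hb, smul_add]
    | smul c a _ ha => rw [transpose_smul, ha, smul_comm]
  intro x hx
  refine ⟨?_, hT1 x hx⟩
  have h := hA2 x hx x hx
  have h3 : (2 : Φ) • (x * x) = 0 := by rw [two_smul]; exact h
  exact (smul_eq_zero.1 h3).resolve_left h2

theorem K9_XY {ε : Φ} {u w : Fin 4 → (Fin n → Φ)} (h : Hyp u w) :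
    bX ε u w * bY ε u w = ε • (vecMulVec (u 1) (u 0) - vecMulVec (u 0) (u 1)) := by
  unfold bX bY br
  simp [add_mul, mul_add, mul_sub, sub_mul, smul_mul_assoc, mul_smul_comm, K9_vv, h.1, h.2.1,
    h.2.2, K9_wu h, smul_sub]
  try abel

theorem T1_isAC (h2 : (2 : Φ) ≠ 0) {u w : Fin 4 → (Fin n → Φ)} (h : Hyp u w) : IsAC (1 : Φ) (T1 u w) := by
  unfold T1
  apply K9_span h2
  · intro x hx
    simp only [Set.mem_insert_iff, Set.mem_singleton_iff] at hx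
    rcases hx with rfl | rfl | rfl | rfl | rfl
    · unfold bX
      rw [transpose_add, K9_br_T (one_mul 1), K9_br_T (one_mul 1), smul_add]
    · unfold bY
      rw [transpose_sub, K9_br_T (one_mul 1), K9_br_T (one_mul 1), smul_sub]
    · rw [transpose_vecMulVec, one_smul]
    · exact K9_br_T (one_mul 1) _ _
    · rw [transpose_vecMulVec, one_smul]
  · intro x hx y hy
    simp only [Set.mem_insert_iff, Set.mem_singleton_iff] at hx hy
    rcases hx with rfl | rfl | rfl | rfl | rfl <;> rcases hy with rfl | rfl | rfl | rfl | rfl <;>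
    · simp [bX, bY, br, add_mul, mul_add, mul_sub, sub_mul, smul_mul_assoc, mul_smul_comm, K9_vv, h.1, h.2.1,
        h.2.2, K9_wu h, smul_sub]
      try abel

theorem T2_isAC (h2 : (2 : Φ) ≠ 0) {u w : Fin 4 → (Fin n → Φ)} (h : Hyp u w) : IsAC (-1 : Φ) (T2 u w) := by
  have hm : (-1 : Φ) * -1 = 1 := by ring
  unfold T2
  apply K9_span h2
  · intro x hx
    simp only [Set.mem_insert_iff, Set.mem_singleton_iff] at hx
    rcases hx with rfl | rfl | rfl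
    · unfold bX
      rw [transpose_add, K9_br_T hm, K9_br_T hm, smul_add]
    · unfold bY
      rw [transpose_sub, K9_br_T hm, K9_br_T hm, smul_sub]
    · exact K9_br_T hm _ _
  · intro x hx y hy
    simp only [Set.mem_insert_iff, Set.mem_singleton_iff] at hx hy
    rcases hx with rfl | rfl | rfl <;> rcases hy with rfl | rfl | rfl <;>
    · simp [bX, bY, br, add_mul, mul_add, mul_sub, sub_mul, smul_mul_assoc, mul_smul_comm, K9_vv, h.1, h.2.1,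
        h.2.2, K9_wu h, smul_sub]
      try abel

theorem T3_isAC (h2 : (2 : Φ) ≠ 0) {u w : Fin 4 → (Fin n → Φ)} (h : Hyp u w) : IsAC (-1 : Φ) (T3 u w) := by
  have hm : (-1 : Φ) * -1 = 1 := by ring
  unfold T3
  apply K9_span h2
  · intro x hx
    simp only [Set.mem_insert_iff, Set.mem_singleton_iff] at hx
    rcases hx with rfl | rfl | rfl
    · unfold bX
      rw [transpose_add, K9_br_T hm, K9_br_T hm, smul_add]
    · unfold bY
      rw [transpose_sub, K9_br_T hm, K9_br_T hm, smul_sub]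
    · unfold bW
      rw [transpose_add, K9_br_T hm, K9_br_T hm, smul_add]
  · intro x hx y hy
    simp only [Set.mem_insert_iff, Set.mem_singleton_iff] at hx hy
    rcases hx with rfl | rfl | rfl <;> rcases hy with rfl | rfl | rfl <;>
    · simp [bX, bY, bW, br, add_mul, mul_add, mul_sub, sub_mul, smul_mul_assoc, mul_smul_comm, K9_vv, h.1, h.2.1,
        h.2.2, K9_wu h, smul_sub]
      try abel

theorem XY_ne {ε : Φ} (hε : ε * ε = 1) {u w : Fin 4 → (Fin n → Φ)} (h : Hyp u w) :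
    bX ε u w * bY ε u w ≠ 0 := by
  intro h0
  rw [K9_XY h] at h0
  have h1 := congrArg (fun M : Matrix (Fin n) (Fin n) Φ => w 1 ⬝ᵥ (M *ᵥ w 0)) h0
  simp [smul_mulVec, sub_mulVec, vecMulVec_mulVec, h.2.2, K9_wu h] at h1
  rw [h1] at hε
  simp at hε

theorem XYW_ne {u w : Fin 4 → (Fin n → Φ)} (h : Hyp u w) :
    bX (-1) u w * bY (-1) u w * bW u w ≠ 0 := by
  intro h0
  rw [K9_XY h] at h0
  have h1 := congrArg (fun M : Matrix (Fin n) (Fin n) Φ => w 1 ⬝ᵥ (M *ᵥ w 1)) h0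
  unfold bW br at h1
  simp [add_mul, mul_add, mul_sub, sub_mul, smul_mul_assoc, mul_smul_comm, K9_vv, h.1, h.2.1,
    smul_mulVec, sub_mulVec, neg_mulVec, vecMulVec_mulVec, h.2.2, K9_wu h] at h1

theorem T2_triple {u w : Fin 4 → (Fin n → Φ)} (h : Hyp u w) :
    ∀ x ∈ T2 u w, ∀ y ∈ T2 u w, ∀ z ∈ T2 u w, x * y * z = 0 := by
  unfold T2
  set S : Set (Matrix (Fin n) (Fin n) Φ) := {bX (-1) u w, bY (-1) u w, br (-1) (u 0) (u 1)} with hS
  have hg : ∀ x ∈ S, ∀ y ∈ S, ∀ z ∈ S, x * y * z = 0 := by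
    intro x hx y hy z hz
    simp only [hS, Set.mem_insert_iff, Set.mem_singleton_iff] at hx hy hz
    rcases hx with rfl | rfl | rfl <;> rcases hy with rfl | rfl | rfl <;>
      rcases hz with rfl | rfl | rfl <;>
    · simp [bX, bY, br, add_mul, mul_add, mul_sub, sub_mul, smul_mul_assoc, mul_smul_comm, K9_vv, h.1, h.2.1,
        h.2.2, K9_wu h, smul_sub]
      try abel
  have h1 : ∀ x ∈ Submodule.span Φ S, ∀ y ∈ S, ∀ z ∈ S, x * y * z = 0 := by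
    intro x hx y hy z hz
    induction hx using Submodule.span_induction with
    | mem x hx => exact hg x hx y hy z hz
    | zero => simp
    | add a b _ _ ha hb => rw [add_mul, add_mul, ha, hb, add_zero]
    | smul c a _ ha => rw [smul_mul_assoc, smul_mul_assoc, ha, smul_zero]
  have h2 : ∀ x ∈ Submodule.span Φ S, ∀ y ∈ Submodule.span Φ S, ∀ z ∈ S, x * y * z = 0 := by
    intro x hx y hy z hz
    induction hy using Submodule.span_induction with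
    | mem y hy => exact h1 x hx y hy z hz
    | zero => simp
    | add a b _ _ ha hb => rw [mul_add, add_mul, ha, hb, add_zero]
    | smul c a _ ha => rw [mul_smul_comm, smul_mul_assoc, ha, smul_zero]
  intro x hx y hy z hz
  induction hz using Submodule.span_induction with
  | mem z hz => exact h2 x hx y hy z hz
  | zero => simp
  | add a b _ _ ha hb => rw [mul_add, ha, hb, add_zero]
  | smul c a _ ha => rw [mul_smul_comm, ha, smul_zero]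

/-! ### part K10 -/

theorem tg_anti_dot {m : Matrix (Fin n) (Fin n) Φ} (hm : mᵀ = -m) (a b : Fin n → Φ) :
    (m *ᵥ a) ⬝ᵥ b = -(a ⬝ᵥ (m *ᵥ b)) := by
  rw [← vecMul_transpose, ← dotProduct_mulVec, hm, neg_mulVec, dotProduct_neg]

theorem tg_sym_dot {m : Matrix (Fin n) (Fin n) Φ} (hm : mᵀ = m) (a b : Fin n → Φ) :
    (m *ᵥ a) ⬝ᵥ b = a ⬝ᵥ (m *ᵥ b) := by
  rw [← vecMul_transpose, ← dotProduct_mulVec, hm]

theorem tg_anti_self (h2 : (2 : Φ) ≠ 0) {m : Matrix (Fin n) (Fin n) Φ} (hm : mᵀ = -m)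
    (a : Fin n → Φ) : a ⬝ᵥ (m *ᵥ a) = 0 := by
  have h := tg_anti_dot hm a a
  rw [dotProduct_comm] at h
  have h3 : (2 : Φ) * (a ⬝ᵥ (m *ᵥ a)) = 0 := by linear_combination h
  rcases mul_eq_zero.1 h3 with h4 | h4
  · exact absurd h4 h2
  · exact h4

theorem tg_exists (h2 : (2 : Φ) ≠ 0) {p : Matrix (Fin n) (Fin n) Φ} (hp : pᵀ = p) (hp0 : p ≠ 0) :
    ∃ f : Fin n → Φ, f ⬝ᵥ (p *ᵥ f) ≠ 0 := by
  by_contra hcon
  push Not at hcon
  apply hp0
  ext i j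
  have hpol : ∀ a b : Fin n → Φ, a ⬝ᵥ (p *ᵥ b) = 0 := by
    intro a b
    have h := hcon (a + b)
    rw [mulVec_add, dotProduct_add, add_dotProduct, add_dotProduct, hcon a, hcon b] at h
    have h3 : b ⬝ᵥ (p *ᵥ a) = a ⬝ᵥ (p *ᵥ b) := by
      rw [← tg_sym_dot hp, dotProduct_comm]
    rw [h3] at h
    have h4 : (2 : Φ) * (a ⬝ᵥ (p *ᵥ b)) = 0 := by linear_combination h
    rcases mul_eq_zero.1 h4 with h5 | h5
    · exact absurd h5 h2
    · exact h5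
  have h := hpol (Pi.single i 1) (Pi.single j 1)
  simpa using h

theorem triple_gens (h2 : (2 : Φ) ≠ 0)
    {x y v : Matrix (Fin n) (Fin n) Φ} (hx : x * x = 0) (hy : y * y = 0) (hv : v * v = 0)
    (hyx : y * x = -(x * y)) (hvx : v * x = -(x * v)) (hvy : v * y = -(y * v))
    (hxt : xᵀ = -x) (hyt : yᵀ = -y) (hvt : vᵀ = -v) (hxyv : x * y * v ≠ 0) :
    ∃ (c : Φ) (e f : Fin n → Φ), c ≠ 0 ∧ e = (c • v) *ᵥ f ∧ e ⬝ᵥ e = 0 ∧ e ⬝ᵥ f = 0 ∧ f ⬝ᵥ f = 0 ∧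
      e ⬝ᵥ (x *ᵥ e) = 0 ∧ e ⬝ᵥ (x *ᵥ f) = 0 ∧ f ⬝ᵥ (x *ᵥ e) = 0 ∧ f ⬝ᵥ (x *ᵥ f) = 0 ∧
      e ⬝ᵥ (y *ᵥ e) = 0 ∧ e ⬝ᵥ (y *ᵥ f) = 0 ∧ f ⬝ᵥ (y *ᵥ e) = 0 ∧ f ⬝ᵥ (y *ᵥ f) = 0 ∧
      e ⬝ᵥ ((x * y) *ᵥ f) = 1 := by
  obtain ⟨p, hpd⟩ : ∃ p, p = x * y * v := ⟨_, rfl⟩
  have hvyx : v * y * x = -p := by
    rw [hvy, neg_mul, mul_assoc, hvx, mul_neg, neg_neg, ← mul_assoc, hyx, neg_mul, hpd]
  have hpt : pᵀ = p := by
    rw [hpd, transpose_mul, transpose_mul, hxt, hyt, hvt, ← hpd]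
    calc -v * (-y * -x) = -(v * y * x) := by
          rw [neg_mul_neg, neg_mul, mul_assoc]
      _ = p := by rw [hvyx, neg_neg]
  have hpx : p * x = 0 := by
    rw [hpd, mul_assoc, hvx, mul_neg, ← mul_assoc, mul_assoc x y x, hyx, mul_neg, ← mul_assoc, hx]
    simp
  have hpp : p * p = 0 := by
    calc p * p = p * x * (y * v) := by
          conv_lhs => rw [show p * p = p * (x * y * v) by rw [← hpd]]
          rw [mul_assoc x y v, ← mul_assoc]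
      _ = 0 := by rw [hpx, zero_mul]
  have hp0 : p ≠ 0 := by rw [hpd]; exact hxyv
  obtain ⟨f0, hf0⟩ := tg_exists h2 hpt hp0
  obtain ⟨t, ht⟩ : ∃ t, t = f0 ⬝ᵥ (p *ᵥ f0) := ⟨_, rfl⟩
  rw [← ht] at hf0
  have hppf : p *ᵥ (p *ᵥ f0) = 0 := by rw [mulVec_mulVec, hpp, zero_mulVec]
  have hpfpf : (p *ᵥ f0) ⬝ᵥ (p *ᵥ f0) = 0 := by
    rw [tg_sym_dot hpt, hppf, dotProduct_zero]
  obtain ⟨s, hs⟩ : ∃ s, s = -(f0 ⬝ᵥ f0) / (2 * t) := ⟨_, rfl⟩
  have hs2 : 2 * s * t + f0 ⬝ᵥ f0 = 0 := by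
    rw [hs]; field_simp; ring
  obtain ⟨f, hf⟩ : ∃ f, f = f0 + s • (p *ᵥ f0) := ⟨_, rfl⟩
  have hff : f ⬝ᵥ f = 0 := by
    rw [hf, dotProduct_add, add_dotProduct, add_dotProduct, smul_dotProduct, dotProduct_smul,
      smul_dotProduct, dotProduct_smul, hpfpf, dotProduct_comm (p *ᵥ f0) f0, ← ht]
    simp only [smul_eq_mul]
    linear_combination hs2
  have hpf : p *ᵥ f = p *ᵥ f0 := by
    rw [hf, mulVec_add, mulVec_smul, hppf, smul_zero, add_zero]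
  have hfpf : f ⬝ᵥ (p *ᵥ f) = t := by
    rw [hpf, hf, add_dotProduct, smul_dotProduct, hpfpf, ← ht, smul_zero, add_zero]
  have hvxt : (v * x)ᵀ = -(v * x) := by
    rw [transpose_mul, hxt, hvt, neg_mul_neg, hvx, neg_neg]
  have hvyt : (v * y)ᵀ = -(v * y) := by
    rw [transpose_mul, hyt, hvt, neg_mul_neg, hvy, neg_neg]
  have hvxy : v * (x * y) = p := by
    rw [← mul_assoc, hvx, neg_mul, mul_assoc, hvy, mul_neg, neg_neg, ← mul_assoc, hpd]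
  obtain ⟨c, hc⟩ : ∃ c, c = -1 / t := ⟨_, rfl⟩
  have hc0 : c ≠ 0 := by rw [hc]; exact div_ne_zero (by simp) hf0
  have he : (c • v) *ᵥ f = c • (v *ᵥ f) := smul_mulVec _ _ _
  have hef : ∀ m : Matrix (Fin n) (Fin n) Φ, ((c • v) *ᵥ f) ⬝ᵥ (m *ᵥ f) = -c * (f ⬝ᵥ ((v * m) *ᵥ f)) := by
    intro m
    rw [he, smul_dotProduct, tg_anti_dot hvt, mulVec_mulVec, smul_eq_mul]; ring
  have hfe : ∀ m : Matrix (Fin n) (Fin n) Φ, mᵀ = -m → (v * m)ᵀ = -(v * m) →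
      f ⬝ᵥ (m *ᵥ ((c • v) *ᵥ f)) = 0 := by
    intro m hm hvm
    have h1 := tg_anti_dot hm f ((c • v) *ᵥ f)
    rw [dotProduct_comm, hef, tg_anti_self h2 hvm, mul_zero] at h1
    linear_combination h1
  refine ⟨c, (c • v) *ᵥ f, f, hc0, rfl, ?_, ?_, hff, tg_anti_self h2 hxt _, ?_, hfe x hxt hvxt,
    tg_anti_self h2 hxt _, tg_anti_self h2 hyt _, ?_, hfe y hyt hvyt, tg_anti_self h2 hyt _, ?_⟩
  · rw [he, smul_dotProduct, dotProduct_smul, tg_anti_dot hvt, mulVec_mulVec, hv, zero_mulVec,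
      dotProduct_zero]
    simp
  · rw [he, smul_dotProduct, dotProduct_comm, tg_anti_self h2 hvt, smul_zero]
  · rw [hef, tg_anti_self h2 hvxt, mul_zero]
  · rw [hef, tg_anti_self h2 hvyt, mul_zero]
  · rw [hef, hvxy, hfpf, hc]
    field_simp

/-! ### part K11 -/

theorem kk_conj_vmv (q : Matrix (Fin n) (Fin n) Φ) (a b : Fin n → Φ) :
    q * vecMulVec a b * qᵀ = vecMulVec (q *ᵥ a) (q *ᵥ b) := by
  rw [mul_vecMulVec, vecMulVec_mul, vecMul_transpose]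

/-- conjugation as a linear map -/
def kk_c (q : Matrix (Fin n) (Fin n) Φ) : Matrix (Fin n) (Fin n) Φ →ₗ[Φ] Matrix (Fin n) (Fin n) Φ where
  toFun x := q * x * qᵀ
  map_add' x y := by rw [mul_add, add_mul]
  map_smul' c x := by simp

theorem kk_c_apply (q x : Matrix (Fin n) (Fin n) Φ) : kk_c q x = q * x * qᵀ := rfl

theorem kk_c_vmv (q : Matrix (Fin n) (Fin n) Φ) (a b : Fin n → Φ) :
    kk_c q (vecMulVec a b) = vecMulVec (q *ᵥ a) (q *ᵥ b) := kk_conj_vmv q a b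

theorem kk_c_br (q : Matrix (Fin n) (Fin n) Φ) (ε : Φ) (a b : Fin n → Φ) :
    kk_c q (br ε a b) = br ε (q *ᵥ a) (q *ᵥ b) := by
  rw [br, br, map_add, map_smul, kk_c_vmv, kk_c_vmv]

theorem kk_equivt_span {S S' : Set (Matrix (Fin n) (Fin n) Φ)} {q : Matrix (Fin n) (Fin n) Φ}
    (hq : q * qᵀ = 1) (h : kk_c q '' S = S') :
    Equivt (Submodule.span Φ S) (Submodule.span Φ S') := by
  refine ⟨q, hq, fun x => ?_⟩
  rw [← h, ← Submodule.map_span, Submodule.mem_map]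
  constructor
  · rintro ⟨y, hy, rfl⟩
    exact ⟨y, hy, rfl⟩
  · rintro ⟨y, hy, rfl⟩
    exact ⟨y, hy, rfl⟩

theorem kk_dot {v : Matrix (Fin n) (Fin n) Φ} (hvt : vᵀ = -v) (a b : Fin n → Φ) :
    (v *ᵥ a) ⬝ᵥ b = -(a ⬝ᵥ (v *ᵥ b)) := by
  have h1 : (v *ᵥ a) ⬝ᵥ b = a ⬝ᵥ (vᵀ *ᵥ b) := by
    rw [mulVec_transpose, dotProduct_comm (v *ᵥ a), dotProduct_mulVec, dotProduct_comm]
  rw [h1, hvt, neg_mulVec, dotProduct_neg]

theorem W_of_gens (h2 : (2 : Φ) ≠ 0)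
    (h4 : ∀ T : Submodule Φ (Fin n → Φ), TotIso T → Module.finrank Φ T ≤ 4)
    {x y v : Matrix (Fin n) (Fin n) Φ} (hx : x * x = 0) (hy : y * y = 0) (hv : v * v = 0)
    (hyx : y * x = -(x * y)) (hvx : v * x = -(x * v)) (hvy : v * y = -(y * v))
    (hvt : vᵀ = -v) {e f : Fin n → Φ} (he : e = v *ᵥ f)
    (hH : Hyp ![(x * y) *ᵥ f, -((x * y) *ᵥ e), -(x *ᵥ e), -(x *ᵥ f)]
        ![e, f, y *ᵥ f, -(y *ᵥ e)]) :
    v = bW ![(x * y) *ᵥ f, -((x * y) *ᵥ e), -(x *ᵥ e), -(x *ᵥ f)]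
        ![e, f, y *ᵥ f, -(y *ᵥ e)] := by
  obtain ⟨u, hu⟩ : ∃ u, u = ![(x * y) *ᵥ f, -((x * y) *ᵥ e), -(x *ᵥ e), -(x *ᵥ f)] := ⟨_, rfl⟩
  obtain ⟨w, hw⟩ : ∃ w, w = ![e, f, y *ᵥ f, -(y *ᵥ e)] := ⟨_, rfl⟩
  have hve : v *ᵥ e = 0 := by rw [he, mulVec_mulVec, hv, zero_mulVec]
  have hvxe : ∀ z : Fin n → Φ, v *ᵥ (x *ᵥ z) = -(x *ᵥ (v *ᵥ z)) := by
    intro z
    rw [mulVec_mulVec, mulVec_mulVec, hvx, neg_mulVec]
  have hvye : ∀ z : Fin n → Φ, v *ᵥ (y *ᵥ z) = -(y *ᵥ (v *ᵥ z)) := by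
    intro z
    rw [mulVec_mulVec, mulVec_mulVec, hvy, neg_mulVec]
  have u0 : u 0 = x *ᵥ (y *ᵥ f) := by rw [hu]; simp [mulVec_mulVec]
  have u1 : u 1 = -(x *ᵥ (y *ᵥ e)) := by rw [hu]; simp [mulVec_mulVec]
  have u2 : u 2 = -(x *ᵥ e) := by rw [hu]; simp
  have u3 : u 3 = -(x *ᵥ f) := by rw [hu]; simp
  have w0 : w 0 = e := by rw [hw]; simp
  have w1 : w 1 = f := by rw [hw]; simp
  have w2 : w 2 = y *ᵥ f := by rw [hw]; simp
  have w3 : w 3 = -(y *ᵥ e) := by rw [hw]; simp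
  have vu0 : v *ᵥ u 0 = -(u 1) := by
    rw [u0, u1, hvxe, hvye, mulVec_neg, neg_neg, neg_neg, ← he]
  have vu1 : v *ᵥ u 1 = 0 := by
    rw [u1, mulVec_neg, hvxe, hvye, hve]; simp
  have vu2 : v *ᵥ u 2 = 0 := by
    rw [u2, mulVec_neg, hvxe, hve]; simp
  have vu3 : v *ᵥ u 3 = -(u 2) := by
    rw [u3, u2, mulVec_neg, hvxe, ← he]
  have vw0 : v *ᵥ w 0 = 0 := by rw [w0, hve]
  have vw1 : v *ᵥ w 1 = w 0 := by rw [w1, w0, ← he]
  have vw2 : v *ᵥ w 2 = w 3 := by rw [w2, w3, hvye, ← he]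
  have vw3 : v *ᵥ w 3 = 0 := by rw [w3, mulVec_neg, hvye, hve]; simp
  rw [← hu, ← hw] at hH ⊢
  have hker : ∀ a : Fin n → Φ, (∀ i, a ⬝ᵥ u i = 0) → (∀ i, a ⬝ᵥ w i = 0) → v *ᵥ a = 0 := by
    intro a hau haw
    refine hyp_aniso h2 h4 hH (v *ᵥ a) ?_ ?_ ?_
    · intro i
      rw [kk_dot hvt]
      fin_cases i
      · show -(a ⬝ᵥ (v *ᵥ u 0)) = 0
        rw [vu0, dotProduct_neg, hau]; simp
      · show -(a ⬝ᵥ (v *ᵥ u 1)) = 0
        rw [vu1]; simp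
      · show -(a ⬝ᵥ (v *ᵥ u 2)) = 0
        rw [vu2]; simp
      · show -(a ⬝ᵥ (v *ᵥ u 3)) = 0
        rw [vu3, dotProduct_neg, hau]; simp
    · intro i
      rw [kk_dot hvt]
      fin_cases i
      · show -(a ⬝ᵥ (v *ᵥ w 0)) = 0
        rw [vw0]; simp
      · show -(a ⬝ᵥ (v *ᵥ w 1)) = 0
        rw [vw1, haw]; simp
      · show -(a ⬝ᵥ (v *ᵥ w 2)) = 0
        rw [vw2, haw]; simp
      · show -(a ⬝ᵥ (v *ᵥ w 3)) = 0
        rw [vw3]; simp
    · rw [kk_dot hvt, mulVec_mulVec, hv]; simp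
  have hact : ∀ z : Fin n → Φ, v *ᵥ z = (bW u w) *ᵥ z := by
    intro z
    obtain ⟨a, hau, haw, hz⟩ := hyp_decomp hH z
    have h1 : v *ᵥ z = (z ⬝ᵥ w 0) • (-(u 1)) + (z ⬝ᵥ w 3) • (-(u 2)) + (z ⬝ᵥ u 1) • w 0
        + (z ⬝ᵥ u 2) • w 3 := by
      conv_lhs => rw [hz]
      rw [mulVec_add, mulVec_add, hker a hau haw, Fin.sum_univ_four, Fin.sum_univ_four]
      simp only [mulVec_add, mulVec_smul, vu0, vu1, vu2, vu3, vw0, vw1, vw2, vw3]
      simp only [smul_zero, add_zero, zero_add]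
      abel
    have h2' : (bW u w) *ᵥ z = (u 1 ⬝ᵥ z) • w 0 - (w 0 ⬝ᵥ z) • u 1 + (u 2 ⬝ᵥ z) • w 3
        - (w 3 ⬝ᵥ z) • u 2 := by
      rw [bW, br, br]
      simp only [add_mulVec, smul_mulVec, vecMulVec_mulVec]
      ext i
      simp
      ring
    rw [h1, h2', dotProduct_comm (u 1), dotProduct_comm (w 0), dotProduct_comm (u 2),
      dotProduct_comm (w 3), smul_neg, smul_neg]
    abel
  exact Matrix.ext_of_mulVec_single fun i => hact _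

theorem equivt_T1 {u w u' w' : Fin 4 → (Fin n → Φ)} {q : Matrix (Fin n) (Fin n) Φ} (hq : q * qᵀ = 1)
    (hu : ∀ i, q *ᵥ u i = u' i) (hw : ∀ i, q *ᵥ w i = w' i) : Equivt (T1 u w) (T1 u' w') := by
  refine kk_equivt_span hq ?_
  simp only [Set.image_insert_eq, Set.image_singleton, bX, bY, map_add, map_sub, kk_c_br, kk_c_vmv, hu, hw]

theorem equivt_T2 {u w u' w' : Fin 4 → (Fin n → Φ)} {q : Matrix (Fin n) (Fin n) Φ} (hq : q * qᵀ = 1)
    (hu : ∀ i, q *ᵥ u i = u' i) (hw : ∀ i, q *ᵥ w i = w' i) : Equivt (T2 u w) (T2 u' w') := by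
  refine kk_equivt_span hq ?_
  simp only [Set.image_insert_eq, Set.image_singleton, bX, bY, map_add, map_sub, kk_c_br, kk_c_vmv, hu, hw]

theorem equivt_T3 {u w u' w' : Fin 4 → (Fin n → Φ)} {q : Matrix (Fin n) (Fin n) Φ} (hq : q * qᵀ = 1)
    (hu : ∀ i, q *ᵥ u i = u' i) (hw : ∀ i, q *ᵥ w i = w' i) : Equivt (T3 u w) (T3 u' w') := by
  refine kk_equivt_span hq ?_
  simp only [Set.image_insert_eq, Set.image_singleton, bX, bY, bW, map_add, map_sub, kk_c_br, kk_c_vmv, hu, hw]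

theorem kk_back {q : Matrix (Fin n) (Fin n) Φ} (hq : q * qᵀ = 1) (y : Matrix (Fin n) (Fin n) Φ) :
    qᵀ * (q * y * qᵀ) * q = y := by
  have hq' : qᵀ * q = 1 := mul_eq_one_comm.mp hq
  calc qᵀ * (q * y * qᵀ) * q = (qᵀ * q) * y * (qᵀ * q) := by simp only [Matrix.mul_assoc]
    _ = y := by rw [hq', one_mul, mul_one]

theorem kk_forth {q : Matrix (Fin n) (Fin n) Φ} (hq : q * qᵀ = 1) (y : Matrix (Fin n) (Fin n) Φ) :
    q * (qᵀ * y * q) * qᵀ = y := by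
  calc q * (qᵀ * y * q) * qᵀ = (q * qᵀ) * y * (q * qᵀ) := by simp only [Matrix.mul_assoc]
    _ = y := by rw [hq, one_mul, mul_one]

theorem kk_mul {q : Matrix (Fin n) (Fin n) Φ} (hq : q * qᵀ = 1) (y z : Matrix (Fin n) (Fin n) Φ) :
    (q * y * qᵀ) * (q * z * qᵀ) = q * (y * z) * qᵀ := by
  have hq' : qᵀ * q = 1 := mul_eq_one_comm.mp hq
  calc (q * y * qᵀ) * (q * z * qᵀ) = q * y * (qᵀ * q) * z * qᵀ := by simp only [Matrix.mul_assoc]
    _ = q * (y * z) * qᵀ := by rw [hq', mul_one]; simp only [Matrix.mul_assoc]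

theorem equivt_max {ε : Φ} {V W : Submodule Φ (Matrix (Fin n) (Fin n) Φ)} (h : Equivt V W)
    (hV : IsMaxAC ε V) : IsMaxAC ε W := by
  obtain ⟨q, hq, hW⟩ := h
  obtain ⟨hV1, hV2⟩ := hV
  constructor
  · intro x hx
    obtain ⟨y, hy, rfl⟩ := (hW x).1 hx
    obtain ⟨h1, h2⟩ := hV1 y hy
    refine ⟨by rw [kk_mul hq, h1]; simp, ?_⟩
    rw [transpose_mul, transpose_mul, transpose_transpose, h2]
    simp [Matrix.mul_assoc]
  · intro W' hW' hle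
    have hAC : IsAC ε (W'.comap (kk_c q)) := by
      intro y hy
      have hy' : q * y * qᵀ ∈ W' := hy
      obtain ⟨h1, h2⟩ := hW' _ hy'
      constructor
      · rw [kk_mul hq] at h1
        have := kk_back hq (y * y)
        rw [h1] at this
        rw [← this]; simp
      · have h3 := kk_back hq (yᵀ)
        have h4 : q * yᵀ * qᵀ = ε • (q * y * qᵀ) := by
          rw [← h2, transpose_mul, transpose_mul, transpose_transpose]
          simp [Matrix.mul_assoc]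
        rw [h4] at h3
        rw [← h3]
        have h5 := kk_back hq y
        conv_rhs => rw [← h5]
        simp
    have hVle : V ≤ W'.comap (kk_c q) := by
      intro y hy
      show q * y * qᵀ ∈ W'
      exact hle ((hW _).2 ⟨y, hy, rfl⟩)
    have hEq := hV2 _ hAC hVle
    refine le_antisymm ?_ hle
    intro x hx
    rw [hW]
    refine ⟨qᵀ * x * q, ?_, (kk_forth hq x).symm⟩
    rw [← hEq]
    show q * (qᵀ * x * q) * qᵀ ∈ W'
    rw [kk_forth hq]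
    exact hx

theorem equivt_triple {V W : Submodule Φ (Matrix (Fin n) (Fin n) Φ)} (h : Equivt V W)
    (h0 : ∀ x ∈ V, ∀ y ∈ V, ∀ z ∈ V, x * y * z = 0) :
    ∀ x ∈ W, ∀ y ∈ W, ∀ z ∈ W, x * y * z = 0 := by
  obtain ⟨q, hq, hW⟩ := h
  intro x hx y hy z hz
  obtain ⟨x', hx', rfl⟩ := (hW x).1 hx
  obtain ⟨y', hy', rfl⟩ := (hW y).1 hy
  obtain ⟨z', hz', rfl⟩ := (hW z).1 hz
  rw [kk_mul hq, kk_mul hq, h0 x' hx' y' hy' z' hz']
  simp

theorem polar {ε : Φ} {V : Submodule Φ (Matrix (Fin n) (Fin n) Φ)} (hV : IsAC ε V)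
    {x y : Matrix (Fin n) (Fin n) Φ} (hx : x ∈ V) (hy : y ∈ V) : y * x = -(x * y) := by
  have h := (hV (x + y) (V.add_mem hx hy)).1
  rw [add_mul, mul_add, mul_add, (hV x hx).1, (hV y hy).1, zero_add, add_zero] at h
  exact eq_neg_of_add_eq_zero_right h

theorem pair_structure (h2 : (2 : Φ) ≠ 0) {ε : Φ} (hε : ε * ε = 1)
    (h4 : ∀ T : Submodule Φ (Fin n → Φ), TotIso T → Module.finrank Φ T ≤ 4)
    {V : Submodule Φ (Matrix (Fin n) (Fin n) Φ)} (hV : IsAC ε V)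
    {x y : Matrix (Fin n) (Fin n) Φ} (hx : x ∈ V) (hy : y ∈ V) (hxy : x * y ≠ 0) :
    ∃ u w : Fin 4 → (Fin n → Φ), Hyp u w ∧ x = bX ε u w ∧ y = bY ε u w := by
  obtain ⟨e, f, hee, hef, hff, h1, h2', h3, h4', h5, h6, h7, h8, hz⟩ :=
    pair_gens h2 hε (hV x hx).1 (hV y hy).1 (polar hV hx hy) (hV x hx).2 (hV y hy).2 hxy
  exact ⟨_, _, pair_of_gens h2 hε h4 (hV x hx).1 (hV y hy).1 (polar hV hx hy) (hV x hx).2
    (hV y hy).2 hee hef hff h1 h2' h3 h4' h5 h6 h7 h8 hz⟩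

theorem triple_structure (h2 : (2 : Φ) ≠ 0)
    (h4 : ∀ T : Submodule Φ (Fin n → Φ), TotIso T → Module.finrank Φ T ≤ 4)
    {V : Submodule Φ (Matrix (Fin n) (Fin n) Φ)} (hV : IsAC (-1 : Φ) V)
    {x y v : Matrix (Fin n) (Fin n) Φ} (hx : x ∈ V) (hy : y ∈ V) (hv : v ∈ V)
    (hxyv : x * y * v ≠ 0) :
    ∃ u w : Fin 4 → (Fin n → Φ), Hyp u w ∧ bX (-1) u w ∈ V ∧ bY (-1) u w ∈ V ∧ bW u w ∈ V := by
  have htr : ∀ a ∈ V, aᵀ = -a := fun a ha => by rw [(hV a ha).2, neg_one_smul]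
  obtain ⟨c, e, f, hc, he, hee, hef, hff, h1, h2', h3, h4', h5, h6, h7, h8, hz⟩ :=
    triple_gens h2 (hV x hx).1 (hV y hy).1 (hV v hv).1 (polar hV hx hy) (polar hV hx hv)
      (polar hV hy hv) (htr x hx) (htr y hy) (htr v hv) hxyv
  have hcv : c • v ∈ V := V.smul_mem c hv
  have hP := pair_of_gens (ε := (-1 : Φ)) h2 (by ring) h4 (hV x hx).1 (hV y hy).1 (polar hV hx hy)
    (hV x hx).2 (hV y hy).2 hee hef hff h1 h2' h3 h4' h5 h6 h7 h8 (by rw [hz, neg_neg])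
  simp only [neg_neg, one_smul, neg_smul] at hP
  obtain ⟨hH, hxX, hyY⟩ := hP
  have hW := W_of_gens h2 h4 (hV x hx).1 (hV y hy).1 (hV _ hcv).1 (polar hV hx hy)
    (polar hV hx hcv) (polar hV hy hcv) (htr _ hcv) he hH
  refine ⟨_, _, hH, ?_, ?_, ?_⟩
  · rw [← hxX]; exact hx
  · rw [← hyY]; exact hy
  · rw [← hW]; exact hcv

theorem bX_mem_T1 {u w : Fin 4 → (Fin n → Φ)} : bX 1 u w ∈ T1 u w :=
  Submodule.subset_span (by simp)
theorem bY_mem_T1 {u w : Fin 4 → (Fin n → Φ)} : bY 1 u w ∈ T1 u w :=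
  Submodule.subset_span (by simp)
theorem bX_mem_T2 {u w : Fin 4 → (Fin n → Φ)} : bX (-1) u w ∈ T2 u w :=
  Submodule.subset_span (by simp)
theorem bY_mem_T2 {u w : Fin 4 → (Fin n → Φ)} : bY (-1) u w ∈ T2 u w :=
  Submodule.subset_span (by simp)
theorem br_mem_T2 {u w : Fin 4 → (Fin n → Φ)} : br (-1) (u 0) (u 1) ∈ T2 u w :=
  Submodule.subset_span (by simp)
theorem bX_mem_T3 {u w : Fin 4 → (Fin n → Φ)} : bX (-1) u w ∈ T3 u w :=
  Submodule.subset_span (by simp)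
theorem bY_mem_T3 {u w : Fin 4 → (Fin n → Φ)} : bY (-1) u w ∈ T3 u w :=
  Submodule.subset_span (by simp)
theorem bW_mem_T3 {u w : Fin 4 → (Fin n → Φ)} : bW u w ∈ T3 u w :=
  Submodule.subset_span (by simp)

theorem Z_eq {u w : Fin 4 → (Fin n → Φ)} (h : Hyp u w) :
    bX (-1) u w * bY (-1) u w = br (-1) (u 0) (u 1) := by
  obtain ⟨hu, hw, huw⟩ := h
  have e22 : u 2 ⬝ᵥ w 2 = 1 := by rw [huw]; simp
  have e33 : u 3 ⬝ᵥ w 3 = 1 := by rw [huw]; simp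
  have e23 : u 2 ⬝ᵥ w 3 = 0 := by rw [huw]; simp
  have e32 : u 3 ⬝ᵥ w 2 = 0 := by rw [huw]; simp
  have e02 : u 0 ⬝ᵥ w 2 = 0 := by rw [huw]; simp
  have e03 : u 0 ⬝ᵥ w 3 = 0 := by rw [huw]; simp
  have e12 : u 1 ⬝ᵥ w 2 = 0 := by rw [huw]; simp
  have e13 : u 1 ⬝ᵥ w 3 = 0 := by rw [huw]; simp
  simp only [bX, bY, br, add_mul, mul_add, mul_sub, neg_mul, mul_neg,
    vecMulVec_mul_vecMulVec, hu, e22, e33, e23, e32, e02, e03, e12, e13, zero_smul,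
    vecMulVec_zero, zero_vecMulVec, one_smul, neg_smul, add_zero, zero_add, sub_zero, zero_sub, neg_zero, neg_neg]
  abel

theorem T1_max (h2 : (2 : Φ) ≠ 0)
    (h4 : ∀ T : Submodule Φ (Fin n → Φ), TotIso T → Module.finrank Φ T ≤ 4)
    {u w : Fin 4 → (Fin n → Φ)} (h : Hyp u w) : IsMaxAC 1 (T1 u w) :=
  ⟨T1_isAC h2 h, fun W hW hle => le_antisymm
    (sym_in_T1 h2 h (fun a ha hb hc => hyp_aniso h2 h4 h a ha hb hc) hW (hle bX_mem_T1)
      (hle bY_mem_T1)) hle⟩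

theorem T2_max (h2 : (2 : Φ) ≠ 0)
    (h4 : ∀ T : Submodule Φ (Fin n → Φ), TotIso T → Module.finrank Φ T ≤ 4)
    {u w : Fin 4 → (Fin n → Φ)} (h : Hyp u w) : IsMaxAC (-1) (T2 u w) := by
  refine ⟨T2_isAC h2 h, fun W hW hle => le_antisymm (fun v hv => ?_) hle⟩
  refine alt_in_T2 h2 h (fun a ha hb hc => hyp_aniso h2 h4 h a ha hb hc) hW (hle bX_mem_T2)
    (hle bY_mem_T2) hv ?_
  have hZ : bX (-1) u w * bY (-1) u w ∈ W := by rw [Z_eq h]; exact hle br_mem_T2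
  have h1 := polar hW hZ hv
  have hX := polar hW (hle bX_mem_T2) hv
  have hY := polar hW (hle bY_mem_T2) hv
  have h3 : v * (bX (-1) u w * bY (-1) u w) = bX (-1) u w * bY (-1) u w * v := by
    rw [← mul_assoc, hX, neg_mul, mul_assoc, hY, mul_neg, neg_neg, mul_assoc]
  rw [h3] at h1
  have h5 : (2 : Φ) • (bX (-1) u w * bY (-1) u w * v) = 0 := by
    rw [two_smul]
    nth_rewrite 1 [h1]
    exact neg_add_cancel _
  exact (smul_eq_zero.1 h5).resolve_left h2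

theorem T3_max (h2 : (2 : Φ) ≠ 0)
    (h4 : ∀ T : Submodule Φ (Fin n → Φ), TotIso T → Module.finrank Φ T ≤ 4)
    {u w : Fin 4 → (Fin n → Φ)} (h : Hyp u w) : IsMaxAC (-1) (T3 u w) :=
  ⟨T3_isAC h2 h, fun W hW hle => le_antisymm
    (alt_in_T3 h2 h (fun a ha hb hc => hyp_aniso h2 h4 h a ha hb hc) hW (hle bX_mem_T3)
      (hle bY_mem_T3) (hle bW_mem_T3)) hle⟩

theorem sym_class (h2 : (2 : Φ) ≠ 0) {U : Submodule Φ (Fin n → Φ)} (hU : MaxTotIso U)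
    (hd : Module.finrank Φ U ≤ 4) {u w : Fin 4 → (Fin n → Φ)} (h : Hyp u w)
    (V : Submodule Φ (Matrix (Fin n) (Fin n) Φ)) :
    IsMaxAC 1 V ↔ Equivt (colSpace 1 U) V ∨ Equivt (T1 u w) V := by
  have h4 : ∀ T : Submodule Φ (Fin n → Φ), TotIso T → Module.finrank Φ T ≤ 4 :=
    fun T hT => (totIso_finrank_le h2 hU hT).trans hd
  constructor
  · intro hV
    by_cases h0 : ∀ x ∈ V, ∀ y ∈ V, x * y = 0
    · exact Or.inl ((zero_iff h2 (Or.inr rfl) hU hV).1 h0)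
    · right
      push Not at h0
      obtain ⟨x, hx, y, hy, hxy⟩ := h0
      obtain ⟨u', w', h', rfl, rfl⟩ := pair_structure h2 (by ring) h4 hV.1 hx hy hxy
      have hle := sym_in_T1 h2 h' (fun a ha hb hc => hyp_aniso h2 h4 h' a ha hb hc) hV.1 hx hy
      have heq := hV.2 _ (T1_isAC h2 h') hle
      obtain ⟨q, hq, hqu, hqw⟩ := hyp_trans h2 h h'
      rw [← heq]
      exact equivt_T1 hq hqu hqw
  · rintro (hE | hE)
    · exact equivt_max hE (colSpace_max h2 (Or.inr rfl) hU)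
    · exact equivt_max hE (T1_max h2 h4 h)

theorem alt_class (h2 : (2 : Φ) ≠ 0) {U : Submodule Φ (Fin n → Φ)} (hU : MaxTotIso U)
    (hd : Module.finrank Φ U ≤ 4) {u w : Fin 4 → (Fin n → Φ)} (h : Hyp u w)
    (V : Submodule Φ (Matrix (Fin n) (Fin n) Φ)) :
    IsMaxAC (-1) V ↔ Equivt (colSpace (-1) U) V ∨ Equivt (T2 u w) V ∨ Equivt (T3 u w) V := by
  have h4 : ∀ T : Submodule Φ (Fin n → Φ), TotIso T → Module.finrank Φ T ≤ 4 :=
    fun T hT => (totIso_finrank_le h2 hU hT).trans hd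
  constructor
  · intro hV
    by_cases h0 : ∀ x ∈ V, ∀ y ∈ V, x * y = 0
    · exact Or.inl ((zero_iff h2 (Or.inl rfl) hU hV).1 h0)
    · right
      by_cases h3 : ∀ x ∈ V, ∀ y ∈ V, ∀ v ∈ V, x * y * v = 0
      · left
        push Not at h0
        obtain ⟨x, hx, y, hy, hxy⟩ := h0
        obtain ⟨u', w', h', rfl, rfl⟩ := pair_structure h2 (by ring) h4 hV.1 hx hy hxy
        have hle : V ≤ T2 u' w' := fun v hv => alt_in_T2 h2 h'
          (fun a ha hb hc => hyp_aniso h2 h4 h' a ha hb hc) hV.1 hx hy hv (h3 _ hx _ hy _ hv)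
        have heq := hV.2 _ (T2_isAC h2 h') hle
        obtain ⟨q, hq, hqu, hqw⟩ := hyp_trans h2 h h'
        rw [← heq]
        exact equivt_T2 hq hqu hqw
      · right
        push Not at h3
        obtain ⟨x, hx, y, hy, v, hv, hxyv⟩ := h3
        obtain ⟨u', w', h', hX, hY, hW⟩ := triple_structure h2 h4 hV.1 hx hy hv hxyv
        have hle := alt_in_T3 h2 h' (fun a ha hb hc => hyp_aniso h2 h4 h' a ha hb hc) hV.1 hX hY hW
        have heq := hV.2 _ (T3_isAC h2 h') hle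
        obtain ⟨q, hq, hqu, hqw⟩ := hyp_trans h2 h h'
        rw [← heq]
        exact equivt_T3 hq hqu hqw
  · rintro (hE | hE | hE)
    · exact equivt_max hE (colSpace_max h2 (Or.inl rfl) hU)
    · exact equivt_max hE (T2_max h2 h4 h)
    · exact equivt_max hE (T3_max h2 h4 h)

theorem one_class (h2 : (2 : Φ) ≠ 0) {U : Submodule Φ (Fin n → Φ)} (hU : MaxTotIso U)
    (hd : Module.finrank Φ U ≤ 3) {ε : Φ} (hε : ε = -1 ∨ ε = 1)
    (V : Submodule Φ (Matrix (Fin n) (Fin n) Φ)) : IsMaxAC ε V ↔ Equivt (colSpace ε U) V :=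
  ⟨fun hV => (all_iff h2 hε hU).2 hd V hV, fun hE => equivt_max hE (colSpace_max h2 hε hU)⟩

end Pool.Agent.Helper917.SAAM
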